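import Mathlib

/-! Determinants `det (e (σ_i - i + j))` for hooks and for partitions with parts at most two. -/

namespace Pool.Agent.MP2e24f1

open Matrix

variable {R : Type*} [CommRing R]

/-- Determinant of the top left `n × n` corner of an infinite array. -/
noncomputable def Dt (n : ℕ) (F : ℕ → ℕ → R) : R := (Matrix.of fun i j : Fin n => F i j).det

theorem Dt_congr {n : ℕ} {F G : ℕ → ℕ → R} (h : ∀ i < n, ∀ j < n, F i j = G i j) :
    Dt n F = Dt n G := by
  unfold Dt
  congr 1
  ext i j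
  exact h i i.2 j j.2

theorem Dt_unit_row (n c : ℕ) (F : ℕ → ℕ → R) (hc : c ≤ n)
    (h : ∀ j ≤ n, F n j = if j = c then 1 else 0) :
    Dt (n + 1) F = (-1) ^ (n + c) * Dt n (fun i j => F i (if j < c then j else j + 1)) := by
  unfold Dt
  rw [Matrix.det_succ_row _ (Fin.last n)]
  rw [Finset.sum_eq_single (⟨c, by omega⟩ : Fin (n + 1))]
  · have h1 : (Matrix.of fun i j : Fin (n + 1) => F i j) (Fin.last n) ⟨c, by omega⟩ = 1 := by
      rw [Matrix.of_apply]
      simp only [Fin.val_last]
      rw [h c hc, if_pos rfl]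
    rw [h1, mul_one]
    simp only [Fin.val_last]
    congr 2
    ext i j
    simp only [Matrix.submatrix_apply, Matrix.of_apply, Fin.succAbove_last, Fin.val_castSucc]
    congr 1
    unfold Fin.succAbove
    by_cases hj : (j : ℕ) < c
    · rw [if_pos hj, if_pos]
      · rfl
      · exact hj
    · rw [if_neg hj, if_neg]
      · rfl
      · exact hj
  · intro j _ hj
    have h1 : (Matrix.of fun i j : Fin (n + 1) => F i j) (Fin.last n) j = 0 := by
      rw [Matrix.of_apply]
      simp only [Fin.val_last]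
      rw [h j (by omega), if_neg]
      intro h2
      apply hj
      ext
      exact h2
    rw [h1]
    ring
  · simp

/-- Trailing rows that are diagonal units can be removed. -/
theorem Dt_trail (N t : ℕ) (F : ℕ → ℕ → R)
    (h : ∀ i, N ≤ i → i < N + t → ∀ j ≤ i, F i j = if j = i then 1 else 0) :
    Dt (N + t) F = Dt N F := by
  induction t with
  | zero => rfl
  | succ t ih =>
    rw [← add_assoc, Dt_unit_row (N + t) (N + t) F le_rfl (h (N + t) (by omega) (by omega))]
    have : ((-1 : R)) ^ (N + t + (N + t)) = 1 := by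
      rw [pow_add, ← mul_pow]
      simp
    rw [this, one_mul, ← ih (fun i h1 h2 => h i h1 (by omega))]
    apply Dt_congr
    intro i _ j hj
    rw [if_pos hj]

theorem Dt_hook (b : ℕ) : ∀ (F : ℕ → ℕ → R)
    (_ : ∀ i, 1 ≤ i → i ≤ b → ∀ j ≤ b, F i j = if j = i - 1 then 1 else 0),
    Dt (b + 1) F = (-1) ^ b * F 0 b := by
  induction b with
  | zero =>
    intro F _
    unfold Dt
    simp
  | succ b ih =>
    intro F h
    rw [Dt_unit_row (b + 1) b F (by omega) (h (b + 1) (by omega) le_rfl)]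
    rw [ih]
    · rw [if_neg (lt_irrefl b), ← mul_assoc, ← pow_add]
      congr 1
      have : b + 1 + b + b = (b + 1) + 2 * b := by ring
      rw [this, pow_add, pow_mul]
      simp
    · intro i h1 h2 j hj
      by_cases hjb : j < b
      · rw [if_pos hjb]
        exact h i h1 (by omega) j (by omega)
      · rw [if_neg hjb, h i h1 (by omega) (j + 1) (by omega), if_neg (by omega), if_neg (by omega)]

theorem Dt_two_base (m : ℕ) : ∀ (F : ℕ → ℕ → R)
    (_ : ∀ i, 2 ≤ i → i < m + 2 → ∀ j < m + 2, F i j = if j = i - 2 then 1 else 0),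
    Dt (m + 2) F = F 0 m * F 1 (m + 1) - F 0 (m + 1) * F 1 m := by
  induction m with
  | zero =>
    intro F _
    unfold Dt
    simp [Matrix.det_fin_two]
  | succ m ih =>
    intro F h
    rw [Dt_unit_row (m + 2) m F (by omega) (fun j hj => h (m + 2) (by omega) (by omega) j (by omega))]
    have : ((-1 : R)) ^ (m + 2 + m) = 1 := by
      have : m + 2 + m = 2 * (m + 1) := by ring
      rw [this, pow_mul]
      simp
    rw [this, one_mul, ih]
    · rw [if_neg (lt_irrefl m), if_neg (by omega)]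
    · intro i h1 h2 j hj
      by_cases hjb : j < m
      · rw [if_pos hjb]
        exact h i h1 (by omega) j (by omega)
      · rw [if_neg hjb, h i h1 (by omega) (j + 1) (by omega), if_neg (by omega), if_neg (by omega)]

theorem Dt_two (m j : ℕ) : ∀ (F : ℕ → ℕ → R)
    (_ : ∀ i, 2 ≤ i → i < m + 2 → ∀ l < m + 2 + j, F i l = if l = i - 2 then 1 else 0)
    (_ : ∀ i, m + 2 ≤ i → i < m + 2 + j → ∀ l < m + 2 + j, F i l = if l = i - 1 then 1 else 0),
    Dt (m + 2 + j) F = (-1) ^ j * (F 0 m * F 1 (m + 1 + j) - F 0 (m + 1 + j) * F 1 m) := by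
  induction j with
  | zero =>
    intro F h _
    rw [add_zero, add_zero, Dt_two_base m F h]
    simp
  | succ j ih =>
    intro F h h'
    rw [← add_assoc, Dt_unit_row (m + 2 + j) (m + 1 + j) F (by omega) (fun l hl => by
      rw [h' (m + 2 + j) (by omega) (by omega) l (by omega)]
      have : m + 2 + j - 1 = m + 1 + j := by omega
      rw [this])]
    have : ((-1 : R)) ^ (m + 2 + j + (m + 1 + j)) = -1 := by
      have : m + 2 + j + (m + 1 + j) = 2 * (m + 1 + j) + 1 := by ring
      rw [this, pow_succ, pow_mul]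
      simp
    rw [this, ih]
    · rw [if_pos (by omega), if_neg (lt_irrefl _), pow_succ]
      have : m + 1 + (j + 1) = m + 1 + j + 1 := by ring
      rw [this]
      ring
    · intro i h1 h2 l hl
      by_cases hjb : l < m + 1 + j
      · rw [if_pos hjb]
        exact h i h1 h2 l (by omega)
      · rw [if_neg hjb, h i h1 h2 (l + 1) (by omega), if_neg (by omega), if_neg (by omega)]
    · intro i h1 h2 l hl
      by_cases hjb : l < m + 1 + j
      · rw [if_pos hjb]
        exact h' i h1 (by omega) l (by omega)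
      · rw [if_neg hjb, h' i h1 (by omega) (l + 1) (by omega), if_neg (by omega), if_neg (by omega)]

section conv

variable (e : ℤ → R) (h : ℕ → R)

/-- Convolution sums. -/
noncomputable def RR (p : ℤ) (l : ℕ) : R :=
  ∑ j ∈ Finset.range (l + 1), e (p + j) * ((-1) ^ (l - j) * h (l - j))

/-- The relations between the two families. -/
structure EH : Prop where
  e_zero : e 0 = 1
  e_neg : ∀ n : ℕ, e (-(n + 1 : ℕ)) = 0
  h_zero : h 0 = 1
  h_succ : ∀ n, h (n + 1) = ∑ l ∈ Finset.range (n + 1), (-1) ^ l * e ((l + 1 : ℕ)) * h (n - l)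

variable {e h}

theorem RR_step (p : ℤ) (l : ℕ) :
    RR e h (p - 1) (l + 1) = e (p - 1) * ((-1) ^ (l + 1) * h (l + 1)) + RR e h p l := by
  unfold RR
  rw [Finset.sum_range_succ' _ (l + 1), add_comm]
  congr 1
  · simp
  · apply Finset.sum_congr rfl
    intro j _
    have e1 : p - 1 + ((j + 1 : ℕ) : ℤ) = p + j := by push_cast; ring
    have e2 : l + 1 - (j + 1) = l - j := by omega
    rw [e1, e2]

theorem RR_zero (H : EH e h) (l : ℕ) : RR e h 0 l = if l = 0 then 1 else 0 := by
  rcases l with _ | l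
  · unfold RR
    simp [H.e_zero, H.h_zero]
  · rw [if_neg (by omega)]
    unfold RR
    rw [Finset.sum_range_succ' _ (l + 1)]
    simp only [zero_add, Nat.cast_zero, Nat.sub_zero]
    rw [H.e_zero, one_mul, H.h_succ l]
    rw [Finset.mul_sum, ← Finset.sum_add_distrib]
    apply Finset.sum_eq_zero
    intro j hj
    rw [Finset.mem_range] at hj
    have e2 : l + 1 - (j + 1) = l - j := by omega
    have e3 : (-1 : R) ^ (l + 1) * (-1) ^ j = - (-1) ^ (l - j) := by
      have : l + 1 = (l - j) + j + 1 := by omega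
      rw [this, pow_succ, pow_add, mul_assoc, mul_assoc]
      have : (-1 : R) ^ j * (-1 * (-1) ^ j) = -1 := by
        have h1 : (-1 : R) ^ j * (-1) ^ j = 1 := by rw [← mul_pow]; simp
        calc (-1 : R) ^ j * (-1 * (-1) ^ j) = - ((-1 : R) ^ j * (-1) ^ j) := by ring
          _ = -1 := by rw [h1]
      rw [this]
      ring
    rw [e2]
    calc e ((j + 1 : ℕ)) * ((-1) ^ (l - j) * h (l - j)) +
          (-1) ^ (l + 1) * ((-1) ^ j * e ((j + 1 : ℕ)) * h (l - j))
        = e ((j + 1 : ℕ)) * h (l - j) * ((-1) ^ (l - j) + ((-1) ^ (l + 1) * (-1) ^ j)) := by ring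
      _ = 0 := by rw [e3]; ring

theorem RR_neg (H : EH e h) (i : ℕ) : ∀ l : ℕ, RR e h (-(i : ℤ)) l = if l = i then 1 else 0 := by
  induction i with
  | zero =>
    intro l
    simpa using RR_zero H l
  | succ i ih =>
    intro l
    rcases l with _ | l
    · unfold RR
      rw [if_neg (by omega)]
      simp only [zero_add, Finset.range_one, Finset.sum_singleton, Nat.cast_zero, add_zero]
      rw [H.e_neg, zero_mul]
    · have e1 : (-((i + 1 : ℕ) : ℤ)) = (-(i : ℤ)) - 1 := by push_cast; ring
      rw [e1, RR_step, ih l, ← e1, H.e_neg, zero_mul, zero_add]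
      by_cases hl : l = i
      · rw [if_pos hl, if_pos (by omega)]
      · rw [if_neg hl, if_neg (by omega)]

theorem RR_one (H : EH e h) (l : ℕ) : RR e h 1 l = (-1) ^ l * h (l + 1) := by
  have h1 := RR_step (e := e) (h := h) 1 l
  rw [sub_self, RR_zero H, if_neg (by omega), H.e_zero, one_mul] at h1
  have : RR e h 1 l = -((-1) ^ (l + 1) * h (l + 1)) := by
    rw [eq_neg_iff_add_eq_zero, h1]
    ring
  rw [this, pow_succ]
  ring

theorem RR_two (H : EH e h) (l : ℕ) :
    RR e h 2 l = (-1) ^ l * (h 1 * h (l + 1) - h (l + 2)) := by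
  have h1 := RR_step (e := e) (h := h) 2 l
  have e1 : (2 : ℤ) - 1 = 1 := by norm_num
  have e2 : h 1 = e 1 := by
    have := H.h_succ 0
    simpa [H.h_zero] using this
  rw [e1, RR_one H, ← e2] at h1
  have : RR e h 2 l = (-1) ^ (l + 1) * h (l + 1 + 1) - h 1 * ((-1) ^ (l + 1) * h (l + 1)) := by
    rw [h1]
    ring
  rw [this, pow_succ]
  ring

/-- The determinant defining Schur polynomials. -/
noncomputable def schurDet (e : ℤ → R) (k : ℕ) (σ : ℕ → ℕ) : R :=
  (Matrix.of fun i j : Fin k => e ((σ i : ℤ) - i + j)).det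

theorem schurDet_eq (H : EH e h) (k : ℕ) (σ : ℕ → ℕ) :
    schurDet e k σ = Dt k (fun i l => RR e h ((σ i : ℤ) - i) l) := by
  let T : Matrix (Fin k) (Fin k) R :=
    Matrix.of fun j l => if j ≤ l then (-1) ^ ((l : ℕ) - j) * h ((l : ℕ) - j) else 0
  have hT : T.det = 1 := by
    rw [Matrix.det_of_isUpperTriangular]
    · apply Finset.prod_eq_one
      intro i _
      simp [T, H.h_zero]
    · intro i j hij
      have hij' : j < i := hij
      simp only [T, Matrix.of_apply]
      rw [if_neg (not_le.mpr hij')]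
  unfold schurDet Dt
  rw [← mul_one (Matrix.det _), ← hT, ← Matrix.det_mul]
  congr 1
  ext i l
  rw [Matrix.mul_apply]
  simp only [Matrix.of_apply, T, mul_ite, mul_zero]
  unfold RR
  rw [← Fin.sum_univ_eq_sum_range (fun j => e ((σ i : ℤ) - i + j) * ((-1) ^ ((l : ℕ) - j) * h ((l : ℕ) - j)))]
  rw [← Finset.sum_filter]
  have hl : (l : ℕ) + 1 ≤ k := l.2
  symm
  apply Finset.sum_bij (fun (a : Fin ((l : ℕ) + 1)) _ => Fin.castLE hl a)
  · intro a _
    simp only [Finset.mem_filter, Finset.mem_univ, true_and]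
    rw [Fin.le_def]
    simp
    omega
  · intro a _ b _ hab
    exact Fin.castLE_injective hl hab
  · intro b hb
    simp only [Finset.mem_filter, Finset.mem_univ, true_and] at hb
    refine ⟨⟨b, by have := Fin.le_def.mp hb; omega⟩, Finset.mem_univ _, ?_⟩
    ext
    simp
  · intro a _
    simp

theorem schurDet_hook (H : EH e h) (a b t : ℕ) (σ : ℕ → ℕ) (h0 : σ 0 = a)
    (h1 : ∀ i, 1 ≤ i → i ≤ b → σ i = 1) (h2 : ∀ i, b + 1 ≤ i → i < b + 1 + t → σ i = 0) :
    schurDet e (b + 1 + t) σ = (-1) ^ b * RR e h (a : ℤ) b := by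
  rw [schurDet_eq H, Dt_trail]
  · rw [Dt_hook]
    · rw [h0]
      simp
    · intro i hi1 hi2 j _
      rw [h1 i hi1 hi2]
      have : ((1 : ℕ) : ℤ) - (i : ℤ) = -((i - 1 : ℕ) : ℤ) := by omega
      rw [this, RR_neg H]
  · intro i hi1 hi2 j _
    rw [h2 i hi1 hi2]
    have : ((0 : ℕ) : ℤ) - (i : ℤ) = -(i : ℤ) := by simp
    rw [this, RR_neg H]

theorem schurDet_two (H : EH e h) (m j t : ℕ) (σ : ℕ → ℕ)
    (h0 : ∀ i, i < m → σ i = 2)
    (h1 : ∀ i, m ≤ i → i < m + j → σ i = 1) (h2 : ∀ i, m + j ≤ i → i < m + j + t → σ i = 0)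
    (hpos : 0 < m) :
    schurDet e (m + j + t) σ = h m * h (m + j) - h (m + j + 1) * h (m - 1) := by
  obtain ⟨m, rfl⟩ := Nat.exists_eq_succ_of_ne_zero hpos.ne'
  rcases m with _ | m
  · have e1 : Nat.succ 0 + j + t = j + 1 + t := by omega
    rw [e1, schurDet_hook H 2 j t σ (h0 0 (by omega)) (fun i hi1 hi2 => h1 i (by omega) (by omega))
      (fun i hi1 hi2 => h2 i (by omega) (by omega))]
    rw [Nat.cast_ofNat, RR_two H, ← mul_assoc, ← mul_pow]
    have e2 : Nat.succ 0 + j = j + 1 := by omega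
    rw [e2]
    simp [H.h_zero]
  · have e1 : m.succ.succ + j + t = (m + 2 + j) + t := by omega
    rw [e1, schurDet_eq H, Dt_trail]
    · rw [Dt_two]
      · rw [h0 0 (by omega), h0 1 (by omega)]
        simp only [Nat.cast_ofNat, Nat.cast_zero, Nat.cast_one, sub_zero]
        have e3 : (2 : ℤ) - 1 = 1 := by norm_num
        rw [e3, RR_two H, RR_two H, RR_one H, RR_one H]
        have e4 : (-1 : R) ^ j * ((-1) ^ m * (-1) ^ (m + 1 + j)) = -1 := by
          rw [← pow_add, ← pow_add]
          have : j + (m + (m + 1 + j)) = 2 * (j + m) + 1 := by ring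
          rw [this, pow_succ, pow_mul]
          simp
        have e5 : m.succ.succ + j = m + 1 + j + 1 := by omega
        have e6 : m.succ.succ - 1 = m + 1 := by omega
        rw [e5, e6]
        change _ = h (m + 2) * h (m + 1 + j + 1) - h (m + 1 + j + 1 + 1) * h (m + 1)
        have e7 : m + 1 + j + 2 = m + 1 + j + 1 + 1 := rfl
        rw [e7]
        calc _ = ((-1 : R) ^ j * ((-1) ^ m * (-1) ^ (m + 1 + j))) *
              ((h 1 * h (m + 1) - h (m + 2)) * h (m + 1 + j + 1) -
              (h 1 * h (m + 1 + j + 1) - h (m + 1 + j + 1 + 1)) * h (m + 1)) := by ring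
          _ = _ := by rw [e4]; ring
      · intro i hi1 hi2 l _
        rw [h0 i (by omega)]
        have : ((2 : ℕ) : ℤ) - (i : ℤ) = -((i - 2 : ℕ) : ℤ) := by omega
        rw [this, RR_neg H]
      · intro i hi1 hi2 l _
        rw [h1 i (by omega) (by omega)]
        have : ((1 : ℕ) : ℤ) - (i : ℤ) = -((i - 1 : ℕ) : ℤ) := by omega
        rw [this, RR_neg H]
    · intro i hi1 hi2 j _
      rw [h2 i (by omega) (by omega)]
      have : ((0 : ℕ) : ℤ) - (i : ℤ) = -(i : ℤ) := by simp
      rw [this, RR_neg H]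

theorem schurDet_ones (H : EH e h) (j : ℕ) (σ : ℕ → ℕ) (h1 : ∀ i, i < j → σ i = 1) :
    schurDet e j σ = h j := by
  rcases j with _ | j
  · unfold schurDet
    simp [H.h_zero]
  · have := schurDet_hook H 1 j 0 σ (h1 0 (by omega)) (fun i _ hi2 => h1 i (by omega))
      (fun i hi1 hi2 => by omega)
    rw [add_zero] at this
    rw [this, Nat.cast_one, RR_one H, ← mul_assoc, ← mul_pow]
    simp

end conv

end Pool.Agent.MP2e24f1
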