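import Pool.Agent.Lib.MP_2e24f1_ag.Tele

/-! The quaternionic averaging formula for powers of a `2 × 2` determinant, and the formula for
the Schur determinants with parts at most two. -/

namespace Pool.Agent.MP2e24f1

open Matrix

section quat

variable {R : Type*} [CommRing R]

/-- Variable. -/
noncomputable def U0 (R : Type*) [CommRing R] : MvPolynomial (Fin 2 ⊕ Fin 2) R :=
  MvPolynomial.X (Sum.inl 0)
/-- Variable. -/
noncomputable def U1 (R : Type*) [CommRing R] : MvPolynomial (Fin 2 ⊕ Fin 2) R :=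
  MvPolynomial.X (Sum.inl 1)
/-- Variable. -/
noncomputable def V0 (R : Type*) [CommRing R] : MvPolynomial (Fin 2 ⊕ Fin 2) R :=
  MvPolynomial.X (Sum.inr 0)
/-- Variable. -/
noncomputable def V1 (R : Type*) [CommRing R] : MvPolynomial (Fin 2 ⊕ Fin 2) R :=
  MvPolynomial.X (Sum.inr 1)

/-- The sesquilinear expression with explicit vectors. -/
noncomputable def sesq (z : Matrix (Fin 2) (Fin 2) R)
    (a0 a1 b0 b1 : MvPolynomial (Fin 2 ⊕ Fin 2) R) : MvPolynomial (Fin 2 ⊕ Fin 2) R :=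
  MvPolynomial.C (z 0 0) * (a0 * b0) + MvPolynomial.C (z 0 1) * (a0 * b1)
    + MvPolynomial.C (z 1 0) * (a1 * b0) + MvPolynomial.C (z 1 1) * (a1 * b1)

/-- `u ↦ ū z u`. -/
noncomputable def W00 (z : Matrix (Fin 2) (Fin 2) R) := sesq z (V0 R) (V1 R) (U0 R) (U1 R)
/-- Mixed. -/
noncomputable def W01 (z : Matrix (Fin 2) (Fin 2) R) := sesq z (V0 R) (V1 R) (-V1 R) (V0 R)
/-- Mixed. -/
noncomputable def W10 (z : Matrix (Fin 2) (Fin 2) R) := sesq z (-U1 R) (U0 R) (U0 R) (U1 R)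
/-- The form at `J u`. -/
noncomputable def W11 (z : Matrix (Fin 2) (Fin 2) R) := sesq z (-U1 R) (U0 R) (-V1 R) (V0 R)

/-- The quaternionic derivation. -/
noncomputable def dJ (R : Type*) [CommRing R] :
    Derivation R (MvPolynomial (Fin 2 ⊕ Fin 2) R) (MvPolynomial (Fin 2 ⊕ Fin 2) R) :=
  U1 R • MvPolynomial.pderiv (Sum.inr 0) - U0 R • MvPolynomial.pderiv (Sum.inr 1)

theorem dJ_apply (p : MvPolynomial (Fin 2 ⊕ Fin 2) R) :
    dJ R p = U1 R * MvPolynomial.pderiv (Sum.inr 0) p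
      - U0 R * MvPolynomial.pderiv (Sum.inr 1) p := by
  unfold dJ
  simp only [Derivation.sub_apply, Derivation.smul_apply, smul_eq_mul]

theorem gL_dJ (p : MvPolynomial (Fin 2 ⊕ Fin 2) R) : gL (Fin 2) R (dJ R p) = 0 := by
  rw [dJ_apply, map_sub]
  unfold U1 U0
  rw [gL_inl_mul, gL_inl_mul, pderiv_comm', sub_self]

theorem dJ_U0 : dJ R (U0 R) = 0 := by
  rw [dJ_apply]
  unfold U0
  rw [MvPolynomial.pderiv_X_of_ne (by simp), MvPolynomial.pderiv_X_of_ne (by simp)]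
  ring

theorem dJ_U1 : dJ R (U1 R) = 0 := by
  rw [dJ_apply]
  unfold U1
  rw [MvPolynomial.pderiv_X_of_ne (by simp), MvPolynomial.pderiv_X_of_ne (by simp)]
  ring

theorem dJ_V0 : dJ R (V0 R) = U1 R := by
  rw [dJ_apply]
  unfold V0
  rw [MvPolynomial.pderiv_X_self, MvPolynomial.pderiv_X_of_ne (by simp)]
  ring

theorem dJ_V1 : dJ R (V1 R) = -U0 R := by
  rw [dJ_apply]
  unfold V1
  rw [MvPolynomial.pderiv_X_self, MvPolynomial.pderiv_X_of_ne (by simp)]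
  ring

theorem dJ_sesq (z : Matrix (Fin 2) (Fin 2) R) (a0 a1 b0 b1 : MvPolynomial (Fin 2 ⊕ Fin 2) R) :
    dJ R (sesq z a0 a1 b0 b1) = sesq z (dJ R a0) (dJ R a1) b0 b1
      + sesq z a0 a1 (dJ R b0) (dJ R b1) := by
  unfold sesq
  simp only [map_add, ← MvPolynomial.smul_eq_C_mul, Derivation.map_smul, Derivation.leibniz,
    smul_eq_mul, smul_add]
  simp only [mul_comm (dJ R _)]
  abel_nf

theorem sesq_neg_left (z : Matrix (Fin 2) (Fin 2) R)
    (a0 a1 b0 b1 : MvPolynomial (Fin 2 ⊕ Fin 2) R) :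
    sesq z (-a0) (-a1) b0 b1 = - sesq z a0 a1 b0 b1 := by
  unfold sesq
  ring

theorem sesq_zero_left (z : Matrix (Fin 2) (Fin 2) R)
    (b0 b1 : MvPolynomial (Fin 2 ⊕ Fin 2) R) : sesq z 0 0 b0 b1 = 0 := by
  unfold sesq
  ring

theorem sesq_zero_right (z : Matrix (Fin 2) (Fin 2) R)
    (a0 a1 : MvPolynomial (Fin 2 ⊕ Fin 2) R) : sesq z a0 a1 0 0 = 0 := by
  unfold sesq
  ring

theorem W_det (z : Matrix (Fin 2) (Fin 2) R) :
    W00 z * W11 z - W01 z * W10 z = MvPolynomial.C z.det * (quad (1 : Matrix (Fin 2) (Fin 2) R)) ^ 2 := by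
  have h : quad (1 : Matrix (Fin 2) (Fin 2) R) = V0 R * U0 R + V1 R * U1 R := by
    unfold quad V0 V1 U0 U1
    simp [Fin.sum_univ_two, Matrix.one_apply]
  rw [h, Matrix.det_fin_two]
  unfold W00 W01 W10 W11 sesq
  simp only [map_sub, map_mul]
  ring

theorem gL_one_pow (n : ℕ) :
    gL (Fin 2) R (quad (1 : Matrix (Fin 2) (Fin 2) R) ^ n) = ((n + 1).factorial : R) := by
  induction n with
  | zero =>
    rw [pow_zero]
    have : (1 : MvPolynomial (Fin 2 ⊕ Fin 2) R) = MvPolynomial.C 1 := by simp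
    rw [this, gL_C]
    simp
  | succ n ih =>
    rw [pow_succ', gL_quad_one_mul_pow, ih, Fintype.card_fin, Nat.factorial_succ (n + 1)]
    push_cast
    ring

theorem quat_tele (z : Matrix (Fin 2) (Fin 2) R) (m : ℕ) :
    ((m : R) + 1) * gL (Fin 2) R (W00 z ^ m * W11 z ^ m)
      - (m : R) * gL (Fin 2) R (W00 z ^ (m + 1) * W11 z ^ (m - 1))
      = ((2 * m + 1).factorial : R) * z.det ^ m := by
  have h := telescoping (gL (Fin 2) R).toAddMonoidHom ((dJ R).restrictScalars ℤ)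
    (fun x => gL_dJ x) (W00 z) (W01 z) (W10 z) (W11 z) (W00 z * W11 z - W01 z * W10 z) rfl
    (by
      change dJ R (sesq _ _ _ _ _) = - sesq _ _ _ _ _
      rw [dJ_sesq, dJ_U0, dJ_U1, dJ_V0, dJ_V1, sesq_zero_right, ← sesq_neg_left]
      simp)
    (by
      change dJ R (sesq _ _ _ _ _) = sesq _ _ _ _ _ - sesq _ _ _ _ _
      rw [dJ_sesq, map_neg, dJ_V0, dJ_V1, neg_neg]
      have : sesq z (U1 R) (-U0 R) (-V1 R) (V0 R) = - sesq z (-U1 R) (U0 R) (-V1 R) (V0 R) := by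
        rw [← sesq_neg_left]
        simp
      rw [this]
      ring)
    (by
      change dJ R (sesq _ _ _ _ _) = 0
      rw [dJ_sesq, map_neg, dJ_U0, dJ_U1, neg_zero, sesq_zero_left, sesq_zero_right, add_zero])
    (by
      change dJ R (sesq _ _ _ _ _) = sesq _ _ _ _ _
      rw [dJ_sesq, map_neg, map_neg, dJ_U0, dJ_U1, dJ_V0, dJ_V1, neg_zero, sesq_zero_left, neg_neg,
        zero_add]) 0 m 0
  simp only [LinearMap.toAddMonoidHom_coe, add_zero, pow_zero, mul_one, one_mul, Nat.cast_zero,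
    zero_add] at h
  rw [h, W_det, mul_pow, ← map_pow, gL_C_mul, ← pow_mul, gL_one_pow]
  ring

end quat

section fact

variable {ι : Type*} [Fintype ι] [DecidableEq ι] {R : Type*} [CommRing R]

theorem gw_sum (α β : (ι ⊕ ι) →₀ ℕ) :
    gw (α.mapDomain (Sum.map Sum.inl Sum.inl) + β.mapDomain (Sum.map Sum.inr Sum.inr) :
      ((ι ⊕ ι) ⊕ (ι ⊕ ι)) →₀ ℕ) = gw α * gw β := by
  have i1 : Function.Injective (Sum.map (Sum.inl : ι → ι ⊕ ι) (Sum.inl : ι → ι ⊕ ι)) :=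
    Sum.inl_injective.sumMap Sum.inl_injective
  have i2 : Function.Injective (Sum.map (Sum.inr : ι → ι ⊕ ι) (Sum.inr : ι → ι ⊕ ι)) :=
    Sum.inr_injective.sumMap Sum.inr_injective
  have a1 : ∀ i : ι, (α.mapDomain (Sum.map Sum.inl Sum.inl) : ((ι ⊕ ι) ⊕ (ι ⊕ ι)) →₀ ℕ)
      (Sum.inl (Sum.inl i)) = α (Sum.inl i) := fun i => Finsupp.mapDomain_apply i1 α (Sum.inl i)
  have a2 : ∀ i : ι, (α.mapDomain (Sum.map Sum.inl Sum.inl) : ((ι ⊕ ι) ⊕ (ι ⊕ ι)) →₀ ℕ)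
      (Sum.inr (Sum.inl i)) = α (Sum.inr i) := fun i => Finsupp.mapDomain_apply i1 α (Sum.inr i)
  have a3 : ∀ i : ι, (β.mapDomain (Sum.map Sum.inr Sum.inr) : ((ι ⊕ ι) ⊕ (ι ⊕ ι)) →₀ ℕ)
      (Sum.inl (Sum.inr i)) = β (Sum.inl i) := fun i => Finsupp.mapDomain_apply i2 β (Sum.inl i)
  have a4 : ∀ i : ι, (β.mapDomain (Sum.map Sum.inr Sum.inr) : ((ι ⊕ ι) ⊕ (ι ⊕ ι)) →₀ ℕ)
      (Sum.inr (Sum.inr i)) = β (Sum.inr i) := fun i => Finsupp.mapDomain_apply i2 β (Sum.inr i)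
  have b1 : ∀ i : ι, (α.mapDomain (Sum.map Sum.inl Sum.inl) : ((ι ⊕ ι) ⊕ (ι ⊕ ι)) →₀ ℕ)
      (Sum.inl (Sum.inr i)) = 0 := fun i => Finsupp.mapDomain_of_notMem_range _ _ (by simp)
  have b2 : ∀ i : ι, (α.mapDomain (Sum.map Sum.inl Sum.inl) : ((ι ⊕ ι) ⊕ (ι ⊕ ι)) →₀ ℕ)
      (Sum.inr (Sum.inr i)) = 0 := fun i => Finsupp.mapDomain_of_notMem_range _ _ (by simp)
  have b3 : ∀ i : ι, (β.mapDomain (Sum.map Sum.inr Sum.inr) : ((ι ⊕ ι) ⊕ (ι ⊕ ι)) →₀ ℕ)
      (Sum.inl (Sum.inl i)) = 0 := fun i => Finsupp.mapDomain_of_notMem_range _ _ (by simp)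
  have b4 : ∀ i : ι, (β.mapDomain (Sum.map Sum.inr Sum.inr) : ((ι ⊕ ι) ⊕ (ι ⊕ ι)) →₀ ℕ)
      (Sum.inr (Sum.inl i)) = 0 := fun i => Finsupp.mapDomain_of_notMem_range _ _ (by simp)
  unfold gw
  rw [Fintype.prod_sum_type]
  simp only [Finsupp.add_apply, a1, a2, a3, a4, b1, b2, b3, b4, add_zero, zero_add]

theorem gL_factor (f g : MvPolynomial (ι ⊕ ι) R) :
    gL (ι ⊕ ι) R (MvPolynomial.rename (Sum.map Sum.inl Sum.inl) f *
      MvPolynomial.rename (Sum.map Sum.inr Sum.inr) g) = gL ι R f * gL ι R g := by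
  induction f using MvPolynomial.induction_on' with
  | monomial α c =>
    induction g using MvPolynomial.induction_on' with
    | monomial β d =>
      rw [MvPolynomial.rename_monomial, MvPolynomial.rename_monomial, MvPolynomial.monomial_mul,
        gL_monomial, gL_monomial, gL_monomial, gw_sum]
      push_cast
      ring
    | add p q hp hq =>
      rw [map_add, mul_add, map_add, hp, hq, map_add, mul_add]
  | add p q hp hq =>
    rw [map_add, add_mul, map_add, hp, hq, map_add, add_mul]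

theorem Q00_eq (Y : Matrix ι ι R) :
    Q00 Y = MvPolynomial.rename (Sum.map Sum.inl Sum.inl) (quad Y) := by
  unfold Q00 quad
  rw [Fintype.sum_sum_type]
  simp only [Fintype.sum_sum_type, Matrix.fromBlocks_apply₁₁, Matrix.fromBlocks_apply₁₂,
    Matrix.fromBlocks_apply₂₁, Matrix.fromBlocks_apply₂₂, Matrix.zero_apply, map_zero, zero_mul,
    Finset.sum_const_zero, add_zero, mul_zero, map_sum, map_mul, MvPolynomial.rename_X,
    MvPolynomial.rename_C, Sum.map_inl, Sum.map_inr]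

theorem Q11_eq (Y : Matrix ι ι R) :
    Q11 Y = MvPolynomial.rename (Sum.map Sum.inr Sum.inr) (quad Y) := by
  unfold Q11 quad
  rw [Fintype.sum_sum_type]
  simp only [Fintype.sum_sum_type, Matrix.fromBlocks_apply₁₁, Matrix.fromBlocks_apply₁₂,
    Matrix.fromBlocks_apply₂₁, Matrix.fromBlocks_apply₂₂, Matrix.zero_apply, map_zero, zero_mul,
    Finset.sum_const_zero, zero_add, mul_zero, map_sum, map_mul, MvPolynomial.rename_X,
    MvPolynomial.rename_C, Sum.map_inl, Sum.map_inr]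

theorem gL_Q_pow (Y : Matrix ι ι R) (a b : ℕ) :
    gL (ι ⊕ ι) R (Q00 Y ^ a * Q11 Y ^ b) = gL ι R (quad Y ^ a) * gL ι R (quad Y ^ b) := by
  rw [Q00_eq, Q11_eq, ← map_pow, ← map_pow, gL_factor]

variable [Algebra ℂ R]

theorem gL_quad_pow_eq (Y : Matrix ι ι R) (n : ℕ) :
    gL ι R (quad Y ^ n) = (n.factorial : R) * hh Y n := by
  unfold hh
  rw [mul_smul_comm, ← nsmul_eq_mul, ← Nat.cast_smul_eq_nsmul ℂ, smul_smul,
    inv_mul_cancel₀ (by exact_mod_cast n.factorial_ne_zero), one_smul]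

theorem two_formula (Y : Matrix ι ι R) (m j : ℕ) (hm : 0 < m) :
    ((m + j + 1).factorial * m.factorial : R) * (hh Y m * hh Y (m + j) - hh Y (m + j + 1) * hh Y (m - 1))
      = ((j : R) + 1) * gL (ι ⊕ ι) R (Q00 Y ^ j * (Q00 Y * Q11 Y - Q01 Y * Q10 Y) ^ m) := by
  rw [← two_tele, gL_Q_pow, gL_Q_pow, gL_quad_pow_eq, gL_quad_pow_eq, gL_quad_pow_eq,
    gL_quad_pow_eq]
  obtain ⟨m, rfl⟩ := Nat.exists_eq_succ_of_ne_zero hm.ne'
  have e1 : m.succ - 1 = m := rfl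
  rw [e1, Nat.factorial_succ (m.succ + j), Nat.factorial_succ m]
  push_cast
  ring

end fact

end Pool.Agent.MP2e24f1
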