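import Pool.Agent.Lib.MP_2e24f1_ag.Reduce
import Pool.Agent.Lib.MP_2e24f1_ag.Tele2

/-! Positivity of `3 × 3` determinants. -/

namespace Pool.Agent.MP2e24f1

open Matrix
open scoped ComplexOrder

section sym

variable {ι : Type*} [Fintype ι] [DecidableEq ι] {R : Type*} [CommRing R]

theorem ee_card (Y : Matrix ι ι R) : ee Y (Fintype.card ι) = Y.det := by
  unfold ee opx
  have h := Polynomial.coeff_det_X_add_C_card Y (1 : Matrix ι ι R)
  rw [← h]
  congr 2
  rw [add_comm]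
  congr 1
  ext a b : 1
  by_cases hab : a = b
  · subst hab; simp
  · simp [hab]

theorem ee_one (Y : Matrix ι ι R) : ee Y 1 = Y.trace := by
  have h := trace_mul_cc Y 0
  rw [cc_zero, Matrix.mul_one] at h
  rw [h]
  simp

variable [Algebra ℂ R]

theorem ee_three (Y : Matrix ι ι R) :
    ee Y 3 = hh Y 3 - 2 * (ee Y 1 * hh Y 2) + ee Y 1 ^ 3 := by
  have h1 := hh_succ Y 0
  have h2 := hh_succ Y 1
  have h3 := hh_succ Y 2
  simp only [Finset.sum_range_succ, Finset.sum_range_zero] at h1 h2 h3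
  norm_num at h1 h2 h3
  rw [hh_zero, mul_one] at h1
  rw [h1, hh_zero] at h2 h3
  have e2 : ee Y 2 = ee Y 1 * ee Y 1 - hh Y 2 := by rw [h2]; ring
  rw [h3, e2]
  ring

end sym

theorem schur_ineq (a b c : ℝ) (ha : 0 ≤ a) (hb : 0 ≤ b) (hc : 0 ≤ c) :
    0 ≤ (a + b + c) ^ 3 - 4 * (a + b + c) * (a * b + b * c + c * a) + 10 * (a * b * c) := by
  have key : ∀ x y z : ℝ, 0 ≤ z → z ≤ y → y ≤ x →
      0 ≤ x * (x - y) * (x - z) + y * (y - x) * (y - z) + z * (z - x) * (z - y) := by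
    intro x y z hz hzy hyx
    have h1 : 0 ≤ (x - y) * (x * (x - z) - y * (y - z)) := by
      apply mul_nonneg (by linarith)
      nlinarith
    have h2 : 0 ≤ z * ((x - z) * (y - z)) :=
      mul_nonneg hz (mul_nonneg (by linarith) (by linarith))
    nlinarith
  have habc : 0 ≤ a * b * c := mul_nonneg (mul_nonneg ha hb) hc
  have hs : 0 ≤ a * (a - b) * (a - c) + b * (b - a) * (b - c) + c * (c - a) * (c - b) := by
    rcases le_total a b with h1 | h1 <;> rcases le_total b c with h2 | h2 <;>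
      rcases le_total a c with h3 | h3
    · have := key c b a ha h1 h2; nlinarith
    · have := key c b a ha h1 h2; nlinarith
    · have := key b c a ha h3 h2; nlinarith
    · have := key b a c hc h3 h1; nlinarith
    · have := key c a b hb h1 h3; nlinarith
    · have := key a c b hb h2 h3; nlinarith
    · have := key a b c hc h2 h1; nlinarith
    · have := key a b c hc h2 h1; nlinarith
  nlinarith

theorem coeff_three (a b c : ℂ) :
    ((Polynomial.X * Polynomial.C (1 : ℂ) + Polynomial.C a) *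
      (Polynomial.X * Polynomial.C (1 : ℂ) + Polynomial.C b) *
      (Polynomial.X * Polynomial.C (1 : ℂ) + Polynomial.C c)).coeff 1 = a * b + b * c + c * a := by
  have h : (Polynomial.X * Polynomial.C (1 : ℂ) + Polynomial.C a) *
      (Polynomial.X * Polynomial.C (1 : ℂ) + Polynomial.C b) *
      (Polynomial.X * Polynomial.C (1 : ℂ) + Polynomial.C c) =
      Polynomial.C (a * b * c) + Polynomial.C (a * b + b * c + c * a) * Polynomial.X +
      Polynomial.C (a + b + c) * Polynomial.X ^ 2 + Polynomial.X ^ 3 := by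
    simp only [map_add, map_mul, map_one]
    ring
  rw [h]
  simp only [Polynomial.coeff_add, Polynomial.coeff_C_mul, Polynomial.coeff_X_pow,
    Polynomial.coeff_C, Polynomial.coeff_X]
  norm_num

theorem main3_pointwise {A : Matrix (Fin 3) (Fin 3) ℂ} (hA : A.PosSemidef) (s : ℝ)
    (htr : A.trace = (s : ℂ)) :
    0 ≤ (s : ℂ) ^ 3 * topCoeff 3 (lin 1 ^ 3) - 12 * ((s : ℂ) * topCoeff 3 (lin 1 ^ 1 * lin A ^ 2))
      + 10 * topCoeff 3 (lin A ^ 3) := by
  obtain ⟨U, d, hd, hU1, hU2, hAU⟩ := psd_spectral A hA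
  have hUdet : U.det ≠ 0 := by
    intro h0
    have := congrArg Matrix.det hU1
    rw [Matrix.det_mul, h0, mul_zero, Matrix.det_one] at this
    exact zero_ne_one this
  have hdA : Uᴴ * A * U = Matrix.diagonal (fun i => (d i : ℂ)) := by
    rw [hAU, ← Matrix.mul_assoc, ← Matrix.mul_assoc, hU1, Matrix.one_mul, Matrix.mul_assoc,
      hU1, Matrix.mul_one]
  have hsum : d 0 + d 1 + d 2 = s := by
    have h1 : (Uᴴ * A * U).trace = A.trace := by
      rw [Matrix.trace_mul_comm, ← Matrix.mul_assoc, hU2, Matrix.one_mul]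
    rw [hdA, htr, Matrix.trace_diagonal, Fin.sum_univ_three] at h1
    exact_mod_cast h1
  have hG : ((s : ℂ) ^ 3 • (lin (1 : Matrix (Fin 3) (Fin 3) ℂ) ^ 3) -
      (12 * (s : ℂ)) • (lin 1 ^ 1 * lin A ^ 2) + (10 : ℂ) • lin A ^ 3).IsHomogeneous 3 := by
    have h1 := (lin_homogeneous (1 : Matrix (Fin 3) (Fin 3) ℂ)).pow 3
    have h2 := ((lin_homogeneous (1 : Matrix (Fin 3) (Fin 3) ℂ)).pow 1).mul
      ((lin_homogeneous A).pow 2)
    have h3 := (lin_homogeneous A).pow 3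
    simp only [MvPolynomial.smul_eq_C_mul]
    have h4 := (MvPolynomial.isHomogeneous_C (Fin 3 × Fin 3) ((s : ℂ) ^ 3)).mul h1
    have h5 := (MvPolynomial.isHomogeneous_C (Fin 3 × Fin 3) (12 * (s : ℂ))).mul h2
    have h6 := (MvPolynomial.isHomogeneous_C (Fin 3 × Fin 3) (10 : ℂ)).mul h3
    exact (h4.sub h5).add h6
  have hexpr : (s : ℂ) ^ 3 * topCoeff 3 (lin 1 ^ 3) -
      12 * ((s : ℂ) * topCoeff 3 (lin 1 ^ 1 * lin A ^ 2)) + 10 * topCoeff 3 (lin A ^ 3) =
      topCoeff 3 ((s : ℂ) ^ 3 • (lin (1 : Matrix (Fin 3) (Fin 3) ℂ) ^ 3) -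
      (12 * (s : ℂ)) • (lin 1 ^ 1 * lin A ^ 2) + (10 : ℂ) • lin A ^ 3) := by
    rw [map_add, map_sub, map_smul, map_smul, map_smul, smul_eq_mul, smul_eq_mul, smul_eq_mul]
    ring
  rw [hexpr]
  apply topCoeff_nonneg_of_sub hG hUdet
  rw [map_add, map_sub, map_smul, map_smul, map_smul, map_mul, map_pow, map_pow, map_pow, map_pow,
    sub_lin, sub_lin, star_conj, star_conj, hdA, Matrix.mul_one, hU1, map_add, map_sub, map_smul,
    map_smul, map_smul, topCoeff_mixed _ _ 1 2 (by norm_num), topCoeff_lin_pow, topCoeff_lin_pow,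
    Matrix.det_one, Matrix.det_diagonal]
  have h1 : pencil (1 : Matrix (Fin 3) (Fin 3) ℂ) (Matrix.diagonal (fun i => (d i : ℂ))) =
      ∏ i, (Polynomial.X * Polynomial.C (1 : ℂ) + Polynomial.C ((d i : ℝ) : ℂ)) := by
    rw [← Matrix.diagonal_one, pencil_diagonal]
  rw [h1, Fin.prod_univ_three, Fin.prod_univ_three, coeff_three]
  have h2 := schur_ineq (d 0) (d 1) (d 2) (hd 0) (hd 1) (hd 2)
  have h3 : (s : ℂ) ^ 3 • (((3 : ℕ).factorial : ℂ) * 1) -
      (12 * (s : ℂ)) • ((((1 : ℕ).factorial : ℂ) * ((2 : ℕ).factorial : ℂ)) *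
        (((d 0 : ℝ) : ℂ) * ((d 1 : ℝ) : ℂ) + ((d 1 : ℝ) : ℂ) * ((d 2 : ℝ) : ℂ) +
          ((d 2 : ℝ) : ℂ) * ((d 0 : ℝ) : ℂ))) +
      (10 : ℂ) • (((3 : ℕ).factorial : ℂ) * (((d 0 : ℝ) : ℂ) * ((d 1 : ℝ) : ℂ) * ((d 2 : ℝ) : ℂ))) =
      ((6 * ((d 0 + d 1 + d 2) ^ 3 - 4 * (d 0 + d 1 + d 2) * (d 0 * d 1 + d 1 * d 2 + d 2 * d 0)
        + 10 * (d 0 * d 1 * d 2)) : ℝ) : ℂ) := by
    rw [← hsum]
    have f1 : ((1 : ℕ).factorial : ℂ) = 1 := by norm_num
    have f2 : ((2 : ℕ).factorial : ℂ) = 2 := by norm_num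
    have f3 : ((3 : ℕ).factorial : ℂ) = 6 := by norm_num [Nat.factorial]
    rw [f1, f2, f3]
    simp only [smul_eq_mul]
    push_cast
    ring
  rw [h3]
  have h4 : 0 ≤ (6 * ((d 0 + d 1 + d 2) ^ 3 - 4 * (d 0 + d 1 + d 2) *
      (d 0 * d 1 + d 1 * d 2 + d 2 * d 0) + 10 * (d 0 * d 1 * d 2)) : ℝ) := by
    apply mul_nonneg (by norm_num) h2
  exact_mod_cast h4

theorem evu_quad {ι : Type*} [Fintype ι] [DecidableEq ι] {k : ℕ}
    (K : ι → ι → Matrix (Fin k) (Fin k) ℂ) (u : ι → ℂ) :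
    evu (PolyForms k) u (quad (sysLin K)) = lin (frm K u) := by
  unfold quad frm sysLin
  simp only [map_sum, map_mul, evu_inl, evu_inr, evu_C, Matrix.of_apply, lin_sum, lin_smul,
    MvPolynomial.smul_eq_C_mul, MvPolynomial.algebraMap_eq, Finset.mul_sum]
  apply Finset.sum_congr rfl
  intro a _
  apply Finset.sum_congr rfl
  intro b _
  ring

theorem evu_quad_one {ι : Type*} [Fintype ι] [DecidableEq ι] {k : ℕ} (u : ι → ℂ) :
    evu (PolyForms k) u (quad 1) = MvPolynomial.C (((∑ a, Complex.normSq (u a) : ℝ)) : ℂ) := by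
  unfold quad
  rw [map_sum, Complex.ofReal_sum, map_sum]
  apply Finset.sum_congr rfl
  intro a _
  rw [map_mul, map_sum, Finset.sum_eq_single a]
  · rw [Matrix.one_apply_eq, map_one, one_mul, evu_inl, evu_inr, ← Complex.mul_conj, map_mul,
      mul_comm]
    rfl
  · intro b _ hb
    rw [Matrix.one_apply_ne hb.symm, map_zero, zero_mul, map_zero]
  · simp

theorem trace_frm_of {ι : Type*} [Fintype ι] [DecidableEq ι] {k : ℕ}
    (K : ι → ι → Matrix (Fin k) (Fin k) ℂ) (u : ι → ℂ)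
    (htr : ∀ a b, (K a b).trace = if a = b then 1 else 0) :
    (frm K u).trace = ((∑ a, Complex.normSq (u a) : ℝ) : ℂ) := by
  unfold frm
  rw [Matrix.trace_sum, Complex.ofReal_sum]
  apply Finset.sum_congr rfl
  intro a _
  rw [Matrix.trace_sum, Finset.sum_eq_single a]
  · rw [Matrix.trace_smul, htr, if_pos rfl, smul_eq_mul, mul_one, ← Complex.mul_conj, mul_comm]
    rfl
  · intro b _ hb
    rw [Matrix.trace_smul, htr, if_neg hb.symm, smul_zero]
  · simp

theorem main3_normal {K : Fin 3 → Fin 3 → Matrix (Fin 3) (Fin 3) ℂ} (hK : Normal K) :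
    0 ≤ topCoeff 3 ((sysLin K).det) := by
  let Z := sysLin K
  have hZ : Z = sysLin K := rfl
  let F : MvPolynomial (Fin 3 ⊕ Fin 3) (PolyForms 3) :=
    MvPolynomial.C (lin 1 ^ 3) * quad 1 ^ 3
      - MvPolynomial.C (12 * lin 1) * (quad 1 * quad Z ^ 2)
      + MvPolynomial.C 10 * quad Z ^ 3
  have hone : ee Z 1 = lin 1 := by
    rw [ee_one, ← hK.unit, lin_sum]
    rfl
  have hdet : ee Z 3 = Z.det := by
    have := ee_card Z
    rwa [Fintype.card_fin] at this
  have hq1 : gL (Fin 3) (PolyForms 3) (quad 1 ^ 3) = 60 := by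
    have h0 : gL (Fin 3) (PolyForms 3) (quad 1) = 3 := by
      rw [gL_quad, Matrix.trace_one, Fintype.card_fin]
      norm_num
    have h1 := gL_quad_one_mul_pow (1 : Matrix (Fin 3) (Fin 3) (PolyForms 3)) 1
    have h2 := gL_quad_one_mul_pow (1 : Matrix (Fin 3) (Fin 3) (PolyForms 3)) 2
    rw [← pow_succ', Fintype.card_fin] at h1 h2
    rw [pow_one, h0] at h1
    have e2 : (1 : ℕ) + 1 = 2 := rfl
    have e3 : (2 : ℕ) + 1 = 3 := rfl
    rw [e2] at h1
    rw [e3, h1] at h2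
    rw [h2]
    norm_num
  have hq2 : gL (Fin 3) (PolyForms 3) (quad 1 * quad Z ^ 2) =
      5 * gL (Fin 3) (PolyForms 3) (quad Z ^ 2) := by
    rw [gL_quad_one_mul_pow, Fintype.card_fin]
    norm_num
  have hF : gL (Fin 3) (PolyForms 3) F = 60 * Z.det := by
    simp only [F]
    rw [map_add, map_sub, gL_C_mul, gL_C_mul, gL_C_mul, hq1, hq2, ← hdet, ee_three, hone]
    have h2 : gL (Fin 3) (PolyForms 3) (quad Z ^ 2) = 2 * hh Z 2 := by
      rw [gL_quad_pow_eq]
      norm_num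
    have h3 : gL (Fin 3) (PolyForms 3) (quad Z ^ 3) = 6 * hh Z 3 := by
      rw [gL_quad_pow_eq]
      norm_num [Nat.factorial]
    rw [h2, h3]
    ring
  have htr : ∀ a b, (K a b).trace = if a = b then 1 else 0 := by
    intro a b
    have h := hK.tr a b
    rw [Fintype.card_fin] at h
    split_ifs at h ⊢ with hab
    · have h3 : ((3 : ℕ) : ℂ) ≠ 0 := by norm_num
      exact mul_left_cancel₀ h3 (by rw [h, mul_one])
    · exact (mul_eq_zero.mp h).resolve_left (by norm_num)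
  have h4 := gL_nonneg (topCoeff 3) F (fun u => by
    have h5 := main3_pointwise (hK.pos u) (∑ a, Complex.normSq (u a)) (trace_frm_of K u htr)
    have h6 : topCoeff 3 (evu (PolyForms 3) u F) =
        ((∑ a, Complex.normSq (u a) : ℝ) : ℂ) ^ 3 * topCoeff 3 (lin 1 ^ 3) -
        12 * (((∑ a, Complex.normSq (u a) : ℝ) : ℂ) * topCoeff 3 (lin 1 ^ 1 * lin (frm K u) ^ 2))
        + 10 * topCoeff 3 (lin (frm K u) ^ 3) := by
      have eZ : evu (PolyForms 3) u (quad Z) = lin (frm K u) := evu_quad K u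
      simp only [F]
      simp only [map_add, map_sub, map_mul (evu (PolyForms 3) u), map_pow (evu (PolyForms 3) u),
        eZ, evu_quad_one, evu_C]
      generalize ((∑ a, Complex.normSq (u a) : ℝ) : ℂ) = s
      have e1 : (lin (1 : Matrix (Fin 3) (Fin 3) ℂ)) ^ 3 * (MvPolynomial.C s) ^ 3 =
          (s ^ 3) • (lin (1 : Matrix (Fin 3) (Fin 3) ℂ)) ^ 3 := by
        rw [MvPolynomial.smul_eq_C_mul, map_pow, mul_comm]
      have e2 : 12 * lin (1 : Matrix (Fin 3) (Fin 3) ℂ) *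
          ((MvPolynomial.C s) * lin (frm K u) ^ 2) =
          (12 * s) • (lin (1 : Matrix (Fin 3) (Fin 3) ℂ) ^ 1 * lin (frm K u) ^ 2) := by
        rw [MvPolynomial.smul_eq_C_mul, map_mul]
        have : (MvPolynomial.C (12 : ℂ) : PolyForms 3) = 12 := by
          exact map_ofNat MvPolynomial.C 12
        rw [this]
        ring
      have e3 : 10 * lin (frm K u) ^ 3 = (10 : ℂ) • lin (frm K u) ^ 3 := by
        rw [MvPolynomial.smul_eq_C_mul]
        congr 1
      rw [e1, e2, e3, map_smul, map_smul, map_smul, smul_eq_mul, smul_eq_mul, smul_eq_mul]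
      ring
    rw [h6]
    exact h5)
  rw [hF] at h4
  have h7 : (60 : PolyForms 3) * Z.det = (60 : ℕ) • Z.det := by
    rw [nsmul_eq_mul]
    norm_num
  rw [h7, map_nsmul, nsmul_eq_mul] at h4
  apply nonneg_of_mul_pos _ h4
  norm_num

theorem main3 (k : ℕ) (hk : k = Fintype.card (Fin 3) * 1)
    (K : Fin 3 → Fin 3 → Matrix (Fin k) (Fin k) ℂ) (hK : GPos K) :
    0 ≤ topCoeff k ((sysLin K).det ^ 1) := by
  have hk' : k = 3 := by rwa [Fintype.card_fin] at hk
  subst hk'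
  apply gpos_of_normal 1 hk (fun K hK => ?_) hK
  rw [pow_one]
  exact main3_normal hK

end Pool.Agent.MP2e24f1
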