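import Pool.Agent.Lib.MP_2e24f1_ag.Main2
import Pool.Agent.Lib.MP_2e24f1_ag.Main3
import Pool.Agent.Lib.MP_2e24f1_ag.Det

/-! Positivity of the Schur determinants of a positive system. -/

namespace Pool.Agent.MP2e24f1

open Matrix
open scoped ComplexOrder

/-- Elementary symmetric functions indexed by the integers. -/
noncomputable def eZ {ι R : Type*} [Fintype ι] [DecidableEq ι] [CommRing R] (Y : Matrix ι ι R)
    (n : ℤ) : R := if 0 ≤ n then ee Y n.toNat else 0

theorem eh_eZ {ι R : Type*} [Fintype ι] [DecidableEq ι] [CommRing R] [Algebra ℂ R]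
    (Y : Matrix ι ι R) : EH (eZ Y) (hh Y) where
  e_zero := by
    unfold eZ
    rw [if_pos le_rfl]
    exact ee_zero Y
  e_neg := by
    intro n
    unfold eZ
    rw [if_neg]
    omega
  h_zero := hh_zero Y
  h_succ := by
    intro n
    rw [hh_succ]
    apply Finset.sum_congr rfl
    intro l _
    congr 2

theorem schurDet_hook_of {R : Type*} [CommRing R] {e : ℤ → R} {h : ℕ → R} (H : EH e h)
    (k a b t : ℕ) (hk : k = b + 1 + t) (σ : ℕ → ℕ) (h0 : σ 0 = a)
    (h1 : ∀ i, 1 ≤ i → i ≤ b → σ i = 1) (h2 : ∀ i, b + 1 ≤ i → i < k → σ i = 0) :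
    schurDet e k σ = (-1) ^ b * RR e h (a : ℤ) b := by
  subst hk
  exact schurDet_hook H a b t σ h0 h1 h2

theorem schurDet_two_of {R : Type*} [CommRing R] {e : ℤ → R} {h : ℕ → R} (H : EH e h)
    (k m j t : ℕ) (hk : k = m + j + t) (σ : ℕ → ℕ)
    (h0 : ∀ i, i < m → σ i = 2)
    (h1 : ∀ i, m ≤ i → i < m + j → σ i = 1) (h2 : ∀ i, m + j ≤ i → i < k → σ i = 0)
    (hpos : 0 < m) :
    schurDet e k σ = h m * h (m + j) - h (m + j + 1) * h (m - 1) := by
  subst hk
  exact schurDet_two H m j t σ h0 h1 h2 hpos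

section gram

variable {ι γ κ : Type*} [Fintype ι] [Fintype γ]

/-- Gram system of a family of vectors. -/
noncomputable def gram (K : ι → ι → Matrix κ κ ℂ) (w : γ → ι → ℂ) :
    γ → γ → Matrix κ κ ℂ := fun a b => ∑ c, ∑ d, (star (w a c) * w b d) • K c d

theorem frm_gram (K : ι → ι → Matrix κ κ ℂ) (w : γ → ι → ℂ) (v : γ → ℂ) :
    frm (gram K w) v = frm K (fun c => ∑ a, v a * w a c) := by
  unfold frm gram
  simp only [Finset.smul_sum, smul_smul]
  calc ∑ a, ∑ b, ∑ c, ∑ d, (star (v a) * v b * (star (w a c) * w b d)) • K c d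
      = ∑ a, ∑ c, ∑ b, ∑ d, (star (v a) * v b * (star (w a c) * w b d)) • K c d := by
        apply Finset.sum_congr rfl
        intro a _
        rw [Finset.sum_comm]
    _ = ∑ c, ∑ a, ∑ b, ∑ d, (star (v a) * v b * (star (w a c) * w b d)) • K c d := by
        rw [Finset.sum_comm]
    _ = ∑ c, ∑ a, ∑ d, ∑ b, (star (v a) * v b * (star (w a c) * w b d)) • K c d := by
        apply Finset.sum_congr rfl
        intro c _
        apply Finset.sum_congr rfl
        intro a _
        rw [Finset.sum_comm]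
    _ = ∑ c, ∑ d, ∑ a, ∑ b, (star (v a) * v b * (star (w a c) * w b d)) • K c d := by
        apply Finset.sum_congr rfl
        intro c _
        rw [Finset.sum_comm]
    _ = _ := by
        apply Finset.sum_congr rfl
        intro c _
        apply Finset.sum_congr rfl
        intro d _
        rw [star_sum, Finset.sum_mul]
        simp only [Finset.mul_sum, Finset.sum_smul]
        apply Finset.sum_congr rfl
        intro a _
        apply Finset.sum_congr rfl
        intro b _
        congr 1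
        rw [star_mul']
        ring

theorem GPos.gram [Fintype κ] {K : ι → ι → Matrix κ κ ℂ} (hK : GPos K) (w : γ → ι → ℂ) :
    GPos (gram K w) := by
  intro v
  rw [frm_gram]
  exact hK _

end gram

section alg

variable {ι : Type*} [Fintype ι] [DecidableEq ι] {k : ℕ}

omit [DecidableEq ι] in
theorem sysLin_gram {γ : Type*} (K : ι → ι → Matrix (Fin k) (Fin k) ℂ) (w : γ → ι → ℂ)
    (a b : γ) :
    sysLin (gram K w) a b = ∑ c, ∑ d, MvPolynomial.C (star (w a c)) *
      (sysLin K c d * MvPolynomial.C (w b d)) := by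
  unfold sysLin gram
  simp only [Matrix.of_apply, lin_sum, lin_smul]
  apply Finset.sum_congr rfl
  intro c _
  apply Finset.sum_congr rfl
  intro d _
  rw [MvPolynomial.smul_eq_C_mul, map_mul]
  ring

theorem evu_quad' (u : ι → ℂ) (M : Matrix ι ι (PolyForms k)) :
    evu (PolyForms k) u (quad M) = ∑ c, ∑ d, MvPolynomial.C (star (u c)) *
      (M c d * MvPolynomial.C (u d)) := by
  unfold quad
  simp only [map_sum, map_mul, evu_inl, evu_inr, evu_C, MvPolynomial.algebraMap_eq,
    Finset.mul_sum]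

theorem two_ee_two (Y : Matrix ι ι (PolyForms k)) :
    2 * ee Y 2 = ee Y 1 * ee Y 1 - (Y * Y).trace := by
  have h := trace_mul_cc Y 1
  have h1 : cc Y 1 = ee Y 1 • (1 : Matrix ι ι (PolyForms k)) - Y := by
    rw [cc_succ Y 0, cc_zero, Matrix.mul_one]
  rw [h1, Matrix.mul_sub, Matrix.trace_sub, Matrix.mul_smul, Matrix.mul_one, Matrix.trace_smul,
    smul_eq_mul, ← ee_one] at h
  rw [h]
  norm_num

theorem mul_cc_two (Y : Matrix ι ι (PolyForms k)) :
    Y * cc Y 2 = ee Y 2 • Y - ee Y 1 • (Y * Y) + Y * Y * Y := by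
  rw [cc_succ Y 1, cc_succ Y 0, cc_zero, Matrix.mul_one]
  simp only [Matrix.mul_sub, Matrix.mul_smul, Matrix.mul_one, Matrix.mul_assoc]
  abel

theorem gram_sum (K : ι → ι → Matrix (Fin k) (Fin k) ℂ) (u : ι → ℂ) :
    2 * evu (PolyForms k) u (quad (sysLin K * cc (sysLin K) 2)) =
      ∑ s, ∑ t, (sysLin (gram K ![u, Pi.single s 1, Pi.single t 1])).det := by
  set Z := sysLin K with hZ
  let q : PolyForms k := ∑ c, ∑ d, MvPolynomial.C (star (u c)) * (Z c d * MvPolynomial.C (u d))
  let row : ι → PolyForms k := fun s => ∑ c, MvPolynomial.C (star (u c)) * Z c s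
  let col : ι → PolyForms k := fun s => ∑ d, Z s d * MvPolynomial.C (u d)
  have hdet : ∀ s t, (sysLin (gram K ![u, Pi.single s 1, Pi.single t 1])).det =
      q * (Z s s * Z t t - Z s t * Z t s) - row s * (col s * Z t t - Z s t * col t)
        + row t * (col s * Z t s - Z s s * col t) := by
    intro s t
    have single_sum : ∀ (f : ι → PolyForms k) (s : ι),
        ∑ c, MvPolynomial.C (star ((Pi.single s (1:ℂ) : ι → ℂ) c)) * f c = f s := by
      intro f s
      rw [Finset.sum_eq_single s]
      · simp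
      · intro c _ hc
        simp [hc]
      · simp
    have single_sum' : ∀ (f : ι → PolyForms k) (s : ι),
        ∑ d, f d * MvPolynomial.C ((Pi.single s (1:ℂ) : ι → ℂ) d) = f s := by
      intro f s
      rw [Finset.sum_eq_single s]
      · simp
      · intro c _ hc
        simp [hc]
      · simp
    have e00 : sysLin (gram K ![u, Pi.single s 1, Pi.single t 1]) 0 0 = q := by
      rw [sysLin_gram]; rfl
    have e01 : sysLin (gram K ![u, Pi.single s 1, Pi.single t 1]) 0 1 = row s := by
      rw [sysLin_gram]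
      simp only [Matrix.cons_val_zero, Matrix.cons_val_one, ← Finset.mul_sum, single_sum', row, hZ]
    have e02 : sysLin (gram K ![u, Pi.single s 1, Pi.single t 1]) 0 2 = row t := by
      rw [sysLin_gram]
      simp only [Matrix.cons_val_zero, Matrix.cons_val, ← Finset.mul_sum, single_sum', row, hZ]
    have e10 : sysLin (gram K ![u, Pi.single s 1, Pi.single t 1]) 1 0 = col s := by
      rw [sysLin_gram]
      simp only [Matrix.cons_val_zero, Matrix.cons_val_one, ← Finset.mul_sum, single_sum, col, hZ]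
    have e11 : sysLin (gram K ![u, Pi.single s 1, Pi.single t 1]) 1 1 = Z s s := by
      rw [sysLin_gram]
      simp only [Matrix.cons_val_one, Matrix.cons_val_zero, ← Finset.mul_sum, single_sum,
        single_sum', hZ]
    have e12 : sysLin (gram K ![u, Pi.single s 1, Pi.single t 1]) 1 2 = Z s t := by
      rw [sysLin_gram]
      simp only [Matrix.cons_val_one, Matrix.cons_val, ← Finset.mul_sum, single_sum, single_sum', hZ]
    have e20 : sysLin (gram K ![u, Pi.single s 1, Pi.single t 1]) 2 0 = col t := by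
      rw [sysLin_gram]
      simp only [Matrix.cons_val_zero, Matrix.cons_val, ← Finset.mul_sum, single_sum, col, hZ]
    have e21 : sysLin (gram K ![u, Pi.single s 1, Pi.single t 1]) 2 1 = Z t s := by
      rw [sysLin_gram]
      simp only [Matrix.cons_val_one, Matrix.cons_val, ← Finset.mul_sum, single_sum, single_sum', hZ]
    have e22 : sysLin (gram K ![u, Pi.single s 1, Pi.single t 1]) 2 2 = Z t t := by
      rw [sysLin_gram]
      simp only [Matrix.cons_val, ← Finset.mul_sum, single_sum, single_sum', hZ]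
    rw [Matrix.det_fin_three, e00, e01, e02, e10, e11, e12, e20, e21, e22]
    ring
  simp only [hdet]
  -- the three quadratic expressions
  have q1 : evu (PolyForms k) u (quad Z) = q := evu_quad' u Z
  have q2 : evu (PolyForms k) u (quad (Z * Z)) = ∑ s, row s * col s := by
    rw [evu_quad']
    simp only [Matrix.mul_apply, row, col, Finset.sum_mul, Finset.mul_sum]
    rw [Finset.sum_congr rfl (fun c _ => Finset.sum_comm)]
    rw [Finset.sum_comm]
    apply Finset.sum_congr rfl
    intro s _
    rw [Finset.sum_comm]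
    apply Finset.sum_congr rfl
    intro c _
    apply Finset.sum_congr rfl
    intro d _
    ring
  have q3 : evu (PolyForms k) u (quad (Z * Z * Z)) = ∑ s, ∑ t, row s * Z s t * col t := by
    have h1 : evu (PolyForms k) u (quad (Z * Z * Z)) =
        ∑ s, row s * ∑ t, Z s t * col t := by
      rw [evu_quad', Matrix.mul_assoc]
      have h2 : ∀ c d, MvPolynomial.C (star (u c)) * ((Z * (Z * Z)) c d * MvPolynomial.C (u d)) =
          ∑ s, MvPolynomial.C (star (u c)) * Z c s * ((Z * Z) s d * MvPolynomial.C (u d)) := by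
        intro c d
        rw [Matrix.mul_apply, Finset.sum_mul, Finset.mul_sum]
        apply Finset.sum_congr rfl
        intro s _
        ring
      simp only [h2]
      rw [Finset.sum_congr rfl (fun c _ => Finset.sum_comm)]
      rw [Finset.sum_comm]
      apply Finset.sum_congr rfl
      intro s _
      simp only [row]
      rw [Finset.sum_mul]
      apply Finset.sum_congr rfl
      intro c _
      rw [← Finset.mul_sum]
      congr 1
      simp only [col, Matrix.mul_apply, Finset.sum_mul, Finset.mul_sum]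
      rw [Finset.sum_comm]
      apply Finset.sum_congr rfl
      intro t _
      apply Finset.sum_congr rfl
      intro d _
      ring
    rw [h1]
    apply Finset.sum_congr rfl
    intro s _
    rw [Finset.mul_sum]
    apply Finset.sum_congr rfl
    intro t _
    ring
  have hL : 2 * evu (PolyForms k) u (quad (Z * cc Z 2)) =
      (ee Z 1 * ee Z 1 - (Z * Z).trace) * q - 2 * (ee Z 1 * ∑ s, row s * col s)
        + 2 * ∑ s, ∑ t, row s * Z s t * col t := by
    rw [mul_cc_two, quad_add, quad_sub, quad_smul, quad_smul, map_add, map_sub, map_mul, map_mul,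
      evu_C, evu_C, q1, q2, q3, ← two_ee_two]
    ring
  rw [hL, ee_one]
  have t1 : Z.trace = ∑ s, Z s s := rfl
  have t2 : (Z * Z).trace = ∑ s, ∑ t, Z s t * Z t s := by
    unfold Matrix.trace
    apply Finset.sum_congr rfl
    intro s _
    rw [Matrix.diag_apply, Matrix.mul_apply]
  have s1 : ∑ s, ∑ t, (q * (Z s s * Z t t - Z s t * Z t s) - row s * (col s * Z t t - Z s t * col t)
        + row t * (col s * Z t s - Z s s * col t)) =
      q * (∑ s, ∑ t, Z s s * Z t t) - q * (∑ s, ∑ t, Z s t * Z t s)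
        - (∑ s, ∑ t, row s * col s * Z t t) + (∑ s, ∑ t, row s * Z s t * col t)
        + (∑ s, ∑ t, row t * Z t s * col s) - (∑ s, ∑ t, row t * col t * Z s s) := by
    simp only [Finset.mul_sum, ← Finset.sum_sub_distrib, ← Finset.sum_add_distrib]
    apply Finset.sum_congr rfl
    intro s _
    apply Finset.sum_congr rfl
    intro t _
    ring
  have s2 : ∑ s, ∑ t, row t * Z t s * col s = ∑ s, ∑ t, row s * Z s t * col t := by
    rw [Finset.sum_comm]
  have s3 : ∑ s, ∑ t, row t * col t * Z s s = ∑ s, ∑ t, row s * col s * Z t t := by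
    rw [Finset.sum_comm]
  have s4 : ∑ s, ∑ t, row s * col s * Z t t = (∑ s, row s * col s) * Z.trace := by
    rw [t1, Finset.sum_mul_sum]
  have s5 : ∑ s, ∑ t, Z s s * Z t t = Z.trace * Z.trace := by
    rw [t1, Finset.sum_mul_sum]
  rw [s1, s2, s3, s4, s5, t2]
  ring


theorem topCoeff_natCast_mul (n : ℕ) (x : PolyForms k) :
    topCoeff k ((n : PolyForms k) * x) = (n : ℂ) * topCoeff k x := by
  rw [← nsmul_eq_mul, map_nsmul, nsmul_eq_mul]

theorem nonneg_of_natCast_mul {n : ℕ} (hn : 0 < n) {x : PolyForms k}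
    (h : 0 ≤ topCoeff k ((n : PolyForms k) * x)) : 0 ≤ topCoeff k x := by
  rw [topCoeff_natCast_mul] at h
  apply nonneg_of_mul_pos _ h
  exact_mod_cast hn

/-- Hooks with arm three. -/
theorem hook_nonneg {K : ι → ι → Matrix (Fin k) (Fin k) ℂ} (hK : GPos K) (b t : ℕ)
    (hk : k = 3 + b) (ht : k = b + 1 + t) (σ : ℕ → ℕ) (h0 : σ 0 = 3)
    (h1 : ∀ i, 1 ≤ i → i ≤ b → σ i = 1) (h2 : ∀ i, b + 1 ≤ i → i < k → σ i = 0) :
    0 ≤ topCoeff k (schurDet (eZ (sysLin K)) k σ) := by
  set Z := sysLin K with hZ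
  have hS : schurDet (eZ Z) k σ = (-1) ^ b * RR (eZ Z) (hh Z) 3 b := by
    have := schurDet_hook_of (eh_eZ Z) k 3 b t ht σ h0 h1 h2
    rw [this]
    norm_num
  have hR : (-1) ^ b * RR (eZ Z) (hh Z) 3 b =
      ∑ l ∈ Finset.range (b + 1), (-1) ^ l * ee Z (2 + 1 + l) * hh Z (b - l) := by
    unfold RR
    rw [Finset.mul_sum]
    apply Finset.sum_congr rfl
    intro l hl
    rw [Finset.mem_range] at hl
    have e1 : eZ Z (3 + (l : ℤ)) = ee Z (2 + 1 + l) := by
      unfold eZ
      rw [if_pos (by omega)]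
      congr 1
    rw [e1]
    have e2 : (-1 : PolyForms k) ^ b * (-1) ^ (b - l) = (-1) ^ l := by
      have e3 : (-1 : PolyForms k) ^ b = (-1) ^ (b - l) * (-1) ^ l := by
        rw [← pow_add]
        congr 1
        omega
      have e4 : (-1 : PolyForms k) ^ (b - l) * (-1) ^ (b - l) = 1 := by
        rw [← mul_pow]
        simp
      rw [e3]
      calc (-1 : PolyForms k) ^ (b - l) * (-1) ^ l * (-1) ^ (b - l)
          = ((-1 : PolyForms k) ^ (b - l) * (-1) ^ (b - l)) * (-1) ^ l := by ring
        _ = _ := by rw [e4, one_mul]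
    calc (-1) ^ b * (ee Z (2 + 1 + l) * ((-1) ^ (b - l) * hh Z (b - l)))
        = ((-1 : PolyForms k) ^ b * (-1) ^ (b - l)) * ee Z (2 + 1 + l) * hh Z (b - l) := by ring
      _ = _ := by rw [e2]
  have hW := ww_mul_cc Z b 2
  rw [← hR, ← hS] at hW
  have hW2 : ((b.factorial * (b + 3) : ℕ) : PolyForms k) * schurDet (eZ Z) k σ =
      gL ι (PolyForms k) (quad (Z * cc Z 2) * quad Z ^ b) := by
    have h3 : (b.factorial : PolyForms k) * ww Z (Z * cc Z 2) b =
        gL ι (PolyForms k) (quad (Z * cc Z 2) * quad Z ^ b) := by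
      unfold ww
      rw [mul_smul_comm, ← nsmul_eq_mul, ← Nat.cast_smul_eq_nsmul ℂ, smul_smul,
        inv_mul_cancel₀ (by exact_mod_cast b.factorial_ne_zero), one_smul]
    rw [← h3, hW]
    push_cast
    ring
  apply nonneg_of_natCast_mul (n := b.factorial * (b + 3))
    (Nat.mul_pos (Nat.factorial_pos b) (by omega))
  rw [hW2]
  apply gL_nonneg
  intro u
  apply nonneg_of_natCast_mul (n := 2) (by norm_num)
  have h4 := gram_sum K u
  have h6 : ((2 : ℕ) : PolyForms k) * evu (PolyForms k) u (quad (Z * cc Z 2) * quad Z ^ b) =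
      (∑ s, ∑ t, (sysLin (gram K ![u, Pi.single s 1, Pi.single t 1])).det) * lin (frm K u) ^ b := by
    rw [← h4, map_mul (evu (PolyForms k) u), map_pow (evu (PolyForms k) u), evu_quad, ← mul_assoc,
      Nat.cast_ofNat]
  rw [h6, Finset.sum_mul, map_sum]
  apply Finset.sum_nonneg
  intro s _
  rw [Finset.sum_mul, map_sum]
  apply Finset.sum_nonneg
  intro t' _
  have h5 := peel (ι := Fin 3) 1 (fun k' hk' K' hK' => main3 k' hk' K' hK') b k
    (by rw [Fintype.card_fin]; omega) (frm K u)
    (gram K ![u, Pi.single s 1, Pi.single t' 1]) (hK u) (hK.gram _)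
  rw [pow_one, mul_comm] at h5
  exact h5

/-- Partitions with parts at most two. -/
theorem two_nonneg {K : ι → ι → Matrix (Fin k) (Fin k) ℂ} (hK : GPos K) (m j t : ℕ) (hm : 0 < m)
    (hk : k = 2 * m + j) (ht : k = m + j + t) (σ : ℕ → ℕ) (h0 : ∀ i, i < m → σ i = 2)
    (h1 : ∀ i, m ≤ i → i < m + j → σ i = 1) (h2 : ∀ i, m + j ≤ i → i < k → σ i = 0) :
    0 ≤ topCoeff k (schurDet (eZ (sysLin K)) k σ) := by
  set Z := sysLin K with hZ
  have hS : schurDet (eZ Z) k σ = hh Z m * hh Z (m + j) - hh Z (m + j + 1) * hh Z (m - 1) := by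
    exact schurDet_two_of (eh_eZ Z) k m j t ht σ h0 h1 h2 hm
  have hF := two_formula Z m j hm
  rw [← hS] at hF
  apply nonneg_of_natCast_mul (n := (m + j + 1).factorial * m.factorial)
    (Nat.mul_pos (Nat.factorial_pos _) (Nat.factorial_pos _))
  push_cast
  rw [hF]
  have e1 : ((j : PolyForms k) + 1) = ((j + 1 : ℕ) : PolyForms k) := by push_cast; ring
  rw [e1, topCoeff_natCast_mul]
  apply mul_nonneg
  · exact_mod_cast Nat.zero_le _
  apply gL_nonneg
  intro w
  let g : Fin 2 → Fin 2 → Matrix (Fin k) (Fin k) ℂ :=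
    gram K ![fun i => w (Sum.inl i), fun i => w (Sum.inr i)]
  have e00 : evu (PolyForms k) w (Q00 Z) = sysLin g 0 0 := by
    simp only [g]
    rw [sysLin_gram]
    unfold Q00
    rw [evu_quad']
    simp only [Fintype.sum_sum_type, Matrix.fromBlocks_apply₁₁, Matrix.fromBlocks_apply₁₂,
      Matrix.fromBlocks_apply₂₁, Matrix.fromBlocks_apply₂₂, Matrix.zero_apply, zero_mul, mul_zero,
      Finset.sum_const_zero, add_zero, Matrix.cons_val_zero, hZ]
  have e01 : evu (PolyForms k) w (Q01 Z) = sysLin g 0 1 := by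
    simp only [g]
    rw [sysLin_gram]
    unfold Q01
    rw [evu_quad']
    simp only [Fintype.sum_sum_type, Matrix.fromBlocks_apply₁₁, Matrix.fromBlocks_apply₁₂,
      Matrix.fromBlocks_apply₂₁, Matrix.fromBlocks_apply₂₂, Matrix.zero_apply, zero_mul, mul_zero,
      Finset.sum_const_zero, add_zero, zero_add, Matrix.cons_val_zero, Matrix.cons_val_one, hZ]
  have e10 : evu (PolyForms k) w (Q10 Z) = sysLin g 1 0 := by
    simp only [g]
    rw [sysLin_gram]
    unfold Q10
    rw [evu_quad']
    simp only [Fintype.sum_sum_type, Matrix.fromBlocks_apply₁₁, Matrix.fromBlocks_apply₁₂,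
      Matrix.fromBlocks_apply₂₁, Matrix.fromBlocks_apply₂₂, Matrix.zero_apply, zero_mul, mul_zero,
      Finset.sum_const_zero, add_zero, zero_add, Matrix.cons_val_zero, Matrix.cons_val_one, hZ]
  have e11 : evu (PolyForms k) w (Q11 Z) = sysLin g 1 1 := by
    simp only [g]
    rw [sysLin_gram]
    unfold Q11
    rw [evu_quad']
    simp only [Fintype.sum_sum_type, Matrix.fromBlocks_apply₁₁, Matrix.fromBlocks_apply₁₂,
      Matrix.fromBlocks_apply₂₁, Matrix.fromBlocks_apply₂₂, Matrix.zero_apply, zero_mul, mul_zero,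
      Finset.sum_const_zero, zero_add, Matrix.cons_val_one, Matrix.cons_val_zero, hZ]
  have hlin : sysLin g 0 0 = lin (g 0 0) := rfl
  have hg00 : (g 0 0).PosSemidef := by
    have h3 := (hK.gram ![fun i => w (Sum.inl i), fun i => w (Sum.inr i)]) ![1, 0]
    have h4 : frm (gram K ![fun i => w (Sum.inl i), fun i => w (Sum.inr i)]) ![1, 0] = g 0 0 := by
      unfold frm
      simp [g]
    rwa [h4] at h3
  have h5 := peel (ι := Fin 2) m (fun k' hk' K' hK' => main2 m k' hk' K' hK') j k
    (by rw [Fintype.card_fin]; omega) (g 0 0) g hg00 (hK.gram _)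
  have h6 : evu (PolyForms k) w (Q00 Z ^ j * (Q00 Z * Q11 Z - Q01 Z * Q10 Z) ^ m) =
      lin (g 0 0) ^ j * (sysLin g).det ^ m := by
    rw [map_mul (evu (PolyForms k) w), map_pow (evu (PolyForms k) w),
      map_pow (evu (PolyForms k) w), map_sub (evu (PolyForms k) w),
      map_mul (evu (PolyForms k) w), map_mul (evu (PolyForms k) w), e00, e01, e10, e11,
      ← Matrix.det_fin_two, hlin]
  rw [h6]
  exact h5

/-- Partitions with all parts equal to one. -/
theorem ones_nonneg {K : ι → ι → Matrix (Fin k) (Fin k) ℂ} (hK : GPos K)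
    (σ : ℕ → ℕ) (h0 : ∀ i, i < k → σ i = 1) :
    0 ≤ topCoeff k (schurDet (eZ (sysLin K)) k σ) := by
  rw [schurDet_ones (eh_eZ (sysLin K)) k σ h0]
  apply nonneg_of_natCast_mul (n := k.factorial) (Nat.factorial_pos k)
  rw [← gL_quad_pow_eq]
  apply gL_nonneg
  intro u
  rw [map_pow, evu_quad, topCoeff_lin_pow]
  apply mul_nonneg
  · exact_mod_cast Nat.zero_le _
  · exact (hK u).det_nonneg

end alg

end Pool.Agent.MP2e24f1
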