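import Mathlib

/-!
Definitions for the pointwise positivity of Schur forms (problem MP_2e24f1_ag).

Everything is local, as the question is: `X` is an open set `U` of `ℂ^d`, and `(E, h)` is given in a
holomorphic frame `e_1, …, e_r` over `U` by the matrix `h_ab = ⟨e_a, e_b⟩`. Complex valued
differential forms at a point are the elements of the complex exterior algebra on
`dz_1, …, dz_d, dz̄_1, …, dz̄_d`.
-/

namespace Pool.Agent.MP2e24f1

open Matrix
open scoped ComplexOrder ContDiff

/-- Complex valued one-forms at a point of `ℂ^d`: the coordinate `Sum.inl j` is the coefficient of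
`dz_j`, and the coordinate `Sum.inr j` is the coefficient of `dz̄_j`. -/
def OneForms (d : ℕ) : Type := Fin d ⊕ Fin d → ℂ

/-- Pointwise addition. -/
noncomputable instance instAddCommGroupOneForms (d : ℕ) : AddCommGroup (OneForms d) :=
  inferInstanceAs (AddCommGroup (Fin d ⊕ Fin d → ℂ))

/-- Pointwise scalar multiplication. -/
noncomputable instance instModuleOneForms (d : ℕ) : Module ℂ (OneForms d) :=
  inferInstanceAs (Module ℂ (Fin d ⊕ Fin d → ℂ))

/-- Complex valued forms at a point of `ℂ^d`: the exterior algebra over `ℂ` of the space of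
one-forms. -/
def Forms (d : ℕ) : Type := ExteriorAlgebra ℂ (OneForms d)

/-- The ring structure of the exterior algebra. -/
noncomputable instance instRingForms (d : ℕ) : Ring (Forms d) :=
  inferInstanceAs (Ring (ExteriorAlgebra ℂ (OneForms d)))

/-- The algebra structure of the exterior algebra. -/
noncomputable instance instAlgebraForms (d : ℕ) : Algebra ℂ (Forms d) :=
  inferInstanceAs (Algebra ℂ (ExteriorAlgebra ℂ (OneForms d)))

/-- The inclusion of one-forms into forms. -/
noncomputable def incl (d : ℕ) : OneForms d →ₗ[ℂ] Forms d := ExteriorAlgebra.ι ℂ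

theorem incl_swap {d : ℕ} (u v : OneForms d) : incl d u * incl d v = -(incl d v * incl d u) :=
  eq_neg_of_add_eq_zero_left (ExteriorAlgebra.ι_add_mul_swap u v)

/-- The one-form `dz_j`. -/
noncomputable def dzOne {d : ℕ} (j : Fin d) : OneForms d :=
  fun i => if i = Sum.inl j then 1 else 0

/-- The one-form `dz̄_j`. -/
noncomputable def dzbarOne {d : ℕ} (j : Fin d) : OneForms d :=
  fun i => if i = Sum.inr j then 1 else 0

/-- Products of two one-forms commute with everything. -/
theorem mul_mem_center {d : ℕ} (x y : OneForms d) :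
    incl d x * incl d y ∈ Subalgebra.center ℂ (Forms d) := by
  rw [Subalgebra.mem_center_iff]
  intro b
  have key : ∀ b : ExteriorAlgebra ℂ (OneForms d),
      (show Forms d from b) * (incl d x * incl d y) =
        (incl d x * incl d y) * (show Forms d from b) := by
    intro b
    induction b using ExteriorAlgebra.induction with
    | algebraMap r => exact Algebra.commutes (A := Forms d) r _
    | ι v =>
      change incl d v * (incl d x * incl d y) = incl d x * incl d y * incl d v
      rw [← mul_assoc, incl_swap v x, neg_mul, mul_assoc, incl_swap v y, mul_neg, neg_neg,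
        mul_assoc]
    | mul a b ha hb =>
      change (show Forms d from a) * (show Forms d from b) * (incl d x * incl d y) =
        incl d x * incl d y * ((show Forms d from a) * (show Forms d from b))
      rw [mul_assoc, hb, ← mul_assoc, ha, mul_assoc]
    | add a b ha hb =>
      change ((show Forms d from a) + (show Forms d from b)) * (incl d x * incl d y) =
        incl d x * incl d y * ((show Forms d from a) + (show Forms d from b))
      rw [add_mul, ha, hb, mul_add]
  exact key b

/-- The commutative ring of the central elements of the exterior algebra; it contains the forms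
`dz_j ∧ dz̄_k` and hence everything of bidegree `(m, m)` that is built from them. -/
def CForms (d : ℕ) : Type := Subalgebra.center ℂ (Forms d)

/-- The ring structure of the centre. -/
noncomputable instance instCommRingCForms (d : ℕ) : CommRing (CForms d) :=
  inferInstanceAs (CommRing (Subalgebra.center ℂ (Forms d)))

/-- The algebra structure of the centre. -/
noncomputable instance instAlgebraCForms (d : ℕ) : Algebra ℂ (CForms d) :=
  inferInstanceAs (Algebra ℂ (Subalgebra.center ℂ (Forms d)))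

/-- The inclusion of the centre into the ring of all forms. -/
noncomputable def toForms (d : ℕ) : CForms d →ₐ[ℂ] Forms d := (Subalgebra.center ℂ (Forms d)).val

/-- The `(1,1)`-form `dz_j ∧ dz̄_k`. -/
noncomputable def dzdz {d : ℕ} (j k : Fin d) : CForms d :=
  (⟨incl d (dzOne j) * incl d (dzbarOne k), mul_mem_center _ _⟩ : Subalgebra.center ℂ (Forms d))

/-- The matrix of `(1,1)`-forms `Θ_ab = ∑_{j,k} Θ_{jk,ab} dz_j ∧ dz̄_k`. -/
noncomputable def curvatureForm {d r : ℕ} (Θ : Fin d → Fin d → Matrix (Fin r) (Fin r) ℂ) :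
    Matrix (Fin r) (Fin r) (CForms d) :=
  fun a b => ∑ j, ∑ k, Θ j k a b • dzdz j k

/-- The coefficient of `t^m` in `det (Id + t Y)`. -/
noncomputable def detCoeff {R : Type*} [CommRing R] {r : ℕ} (Y : Matrix (Fin r) (Fin r) R)
    (m : ℕ) : R :=
  ((1 : Matrix (Fin r) (Fin r) (Polynomial R)) +
    (Polynomial.X : Polynomial R) • Y.map Polynomial.C).det.coeff m

/-- The Chern form `c_m`: the coefficient of `t^m` in `det (Id + t (i/2π) Θ)`, that is, the part of
degree `2m` of `det (Id + (i/2π) Θ)`. -/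
noncomputable def chernForm {d r : ℕ} (Θ : Fin d → Fin d → Matrix (Fin r) (Fin r) ℂ) (m : ℕ) :
    CForms d :=
  detCoeff ((Complex.I / (2 * (Real.pi : ℂ))) • curvatureForm Θ) m

/-- `c_m` for every integer `m`, with the convention `c_m = 0` for `m ∉ [0, r]`. -/
noncomputable def chernInt {d r : ℕ} (Θ : Fin d → Fin d → Matrix (Fin r) (Fin r) ℂ) (m : ℤ) :
    CForms d := if 0 ≤ m ∧ m ≤ r then chernForm Θ m.toNat else 0

/-- The set `Λ(k, r)` of the sequences `r ≥ σ_1 ≥ … ≥ σ_k ≥ 0` with sum `k` (indexed from `0`). -/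
def Lam (k r : ℕ) : Set (Fin k → ℕ) := {σ | (∀ i, σ i ≤ r) ∧ Antitone σ ∧ ∑ i, σ i = k}

/-- The determinant `det (c_{σ_i - i + j})`. -/
noncomputable def sdet {R : Type*} [CommRing R] (c : ℤ → R) {k : ℕ} (σ : Fin k → ℕ) : R :=
  (Matrix.of fun i j : Fin k => c ((σ i : ℤ) - (i : ℤ) + (j : ℤ))).det

/-- The Schur form `S_σ(c_1, …, c_r) = det (c_{σ_i - i + j})`. -/
noncomputable def schurForm {d r k : ℕ} (Θ : Fin d → Fin d → Matrix (Fin r) (Fin r) ℂ)
    (σ : Fin k → ℕ) : Forms d := toForms d (sdet (chernInt Θ) σ)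

/-- Values of the pull-back of a one-form by the linear map `ℂ^k → ℂ^d` with matrix `L`:
`dz_j ↦ ∑_p L_jp dw_p` and `dz̄_j ↦ ∑_p conj(L_jp) dw̄_p`. -/
noncomputable def pullFun {d k : ℕ} (L : Matrix (Fin d) (Fin k) ℂ) (ξ : OneForms d) : OneForms k :=
  Sum.elim (fun p => ∑ j, ξ (Sum.inl j) * L j p) (fun p => ∑ j, ξ (Sum.inr j) * star (L j p))

theorem pullFun_add {d k : ℕ} (L : Matrix (Fin d) (Fin k) ℂ) (ξ η : OneForms d) :
    pullFun L (ξ + η) = pullFun L ξ + pullFun L η := by
  funext x
  rcases x with p | p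
  · change ∑ j, (ξ (Sum.inl j) + η (Sum.inl j)) * L j p =
      ∑ j, ξ (Sum.inl j) * L j p + ∑ j, η (Sum.inl j) * L j p
    simp [add_mul, Finset.sum_add_distrib]
  · change ∑ j, (ξ (Sum.inr j) + η (Sum.inr j)) * star (L j p) =
      ∑ j, ξ (Sum.inr j) * star (L j p) + ∑ j, η (Sum.inr j) * star (L j p)
    simp [add_mul, Finset.sum_add_distrib]

theorem pullFun_smul {d k : ℕ} (L : Matrix (Fin d) (Fin k) ℂ) (c : ℂ) (ξ : OneForms d) :
    pullFun L (c • ξ) = c • pullFun L ξ := by
  funext x
  rcases x with p | p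
  · change ∑ j, (c * ξ (Sum.inl j)) * L j p = c * ∑ j, ξ (Sum.inl j) * L j p
    simp [mul_assoc, Finset.mul_sum]
  · change ∑ j, (c * ξ (Sum.inr j)) * star (L j p) = c * ∑ j, ξ (Sum.inr j) * star (L j p)
    simp [mul_assoc, Finset.mul_sum]

/-- The pull-back of one-forms by the linear map `ℂ^k → ℂ^d` with matrix `L`. -/
noncomputable def pullOne {d k : ℕ} (L : Matrix (Fin d) (Fin k) ℂ) :
    OneForms d →ₗ[ℂ] OneForms k where
  toFun := pullFun L
  map_add' := pullFun_add L
  map_smul' := pullFun_smul L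

/-- The pull-back of forms by the linear map `ℂ^k → ℂ^d` with matrix `L`. -/
noncomputable def pullback {d k : ℕ} (L : Matrix (Fin d) (Fin k) ℂ) : Forms d →ₐ[ℂ] Forms k :=
  ExteriorAlgebra.map (pullOne L)

/-- The standard volume form `∏_p (i/2) dw_p ∧ dw̄_p` of `ℂ^k`. -/
noncomputable def vol (k : ℕ) : Forms k :=
  toForms k (∏ p : Fin k, (Complex.I / 2) • dzdz p p)

/-- Positivity of a `(k,k)`-form at a point of `ℂ^d`: its restriction to every `k`-dimensional
complex subspace, parametrised by an injective linear map, is a nonnegative volume form. -/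
def IsPositiveForm {d : ℕ} (k : ℕ) (u : Forms d) : Prop :=
  ∀ L : Matrix (Fin d) (Fin k) ℂ, Function.Injective L.mulVec →
    ∃ c : ℝ, 0 ≤ c ∧ pullback L u = (c : ℂ) • vol k

/-- Directional derivative of a complex valued function on `ℂ^d` in the real direction `w`. -/
noncomputable def dirDeriv {d : ℕ} (w : Fin d → ℂ) (f : (Fin d → ℂ) → ℂ) (x : Fin d → ℂ) : ℂ :=
  fderiv ℝ f x w

/-- Entrywise `∂/∂z_j` of a matrix valued function on `ℂ^d`. -/
noncomputable def dWirt {d r : ℕ} (j : Fin d) (f : (Fin d → ℂ) → Matrix (Fin r) (Fin r) ℂ)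
    (x : Fin d → ℂ) : Matrix (Fin r) (Fin r) ℂ :=
  fun a b => (dirDeriv (Pi.single j 1) (fun y => f y a b) x
    - Complex.I * dirDeriv (Pi.single j Complex.I) (fun y => f y a b) x) / 2

/-- Entrywise `∂/∂z̄_j` of a matrix valued function on `ℂ^d`. -/
noncomputable def dWirtBar {d r : ℕ} (j : Fin d) (f : (Fin d → ℂ) → Matrix (Fin r) (Fin r) ℂ)
    (x : Fin d → ℂ) : Matrix (Fin r) (Fin r) ℂ :=
  fun a b => (dirDeriv (Pi.single j 1) (fun y => f y a b) x
    + Complex.I * dirDeriv (Pi.single j Complex.I) (fun y => f y a b) x) / 2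

/-- Components of the Chern connection in the frame: `D e_a = ∑_b (∑_j A_{j,ab} dz_j) ⊗ e_b` with
`A_j = (∂h/∂z_j) h⁻¹`. -/
noncomputable def connection {d r : ℕ} (h : (Fin d → ℂ) → Matrix (Fin r) (Fin r) ℂ) (j : Fin d)
    (x : Fin d → ℂ) : Matrix (Fin r) (Fin r) ℂ := dWirt j h x * (h x)⁻¹

/-- Components of the Chern curvature: `Θ e_a = ∑_b (∑_{j,k} Θ_{jk,ab} dz_j ∧ dz̄_k) ⊗ e_b` with
`Θ_{jk} = - ∂/∂z̄_k ((∂h/∂z_j) h⁻¹)`, since `Θ = ∂̄ A`. -/
noncomputable def curvature {d r : ℕ} (h : (Fin d → ℂ) → Matrix (Fin r) (Fin r) ℂ)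
    (x : Fin d → ℂ) (j k : Fin d) : Matrix (Fin r) (Fin r) ℂ :=
  - dWirtBar k (connection h j) x

/-- `h` is a smooth hermitian metric on the trivial bundle of rank `r` over `U`. -/
structure IsHermitianMetric {d r : ℕ} (U : Set (Fin d → ℂ))
    (h : (Fin d → ℂ) → Matrix (Fin r) (Fin r) ℂ) : Prop where
  smooth : ∀ a b, ContDiffOn ℝ ∞ (fun x => h x a b) U
  pos : ∀ x ∈ U, (h x).PosDef

/-- Griffiths semipositivity at `x`: for `τ = ∑ τ_j ∂/∂z_j` and `v = ∑ v_a e_a`,
`⟨Θ v, v⟩_h (τ, τ̄) = ∑_{j,k} τ_j τ̄_k ∑_{a,b,c} v_a Θ_{jk,ab} h_bc v̄_c ≥ 0`. -/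
def GriffithsSemipositiveAt {d r : ℕ} (h : (Fin d → ℂ) → Matrix (Fin r) (Fin r) ℂ)
    (x : Fin d → ℂ) : Prop :=
  ∀ (τ : Fin d → ℂ) (v : Fin r → ℂ),
    0 ≤ ∑ j, ∑ k, τ j * star (τ k) *
      (∑ a, ∑ b, ∑ c, v a * curvature h x j k a b * h x b c * star (v c))

end Pool.Agent.MP2e24f1
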