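import Pool.Agent.Lib.MP_2e24f1_ag.Alg
import Pool.Agent.Lib.MP_2e24f1_ag.Defs

/-! Naturality and homogeneity of the Schur determinants, and the positivity theorems stated for
sequences indexed by `Fin k`. -/

namespace Pool.Agent.MP2e24f1

open Matrix
open scoped ComplexOrder

section natural

variable {ι R S : Type*} [Fintype ι] [DecidableEq ι] [CommRing R] [CommRing S]

theorem map_ee (f : R →+* S) (Y : Matrix ι ι R) (i : ℕ) : f (ee Y i) = ee (Y.map f) i := by
  unfold ee
  have h1 : (opx (Y.map f)).det = (opx Y).det.map f := by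
    have h2 := (Polynomial.mapRingHom f).map_det (opx Y)
    rw [Polynomial.coe_mapRingHom] at h2
    rw [h2]
    congr 1
    ext a b : 1
    unfold opx
    by_cases hab : a = b
    · subst hab
      simp
    · simp [hab]
  rw [h1, Polynomial.coeff_map]

theorem map_eZ (f : R →+* S) (Y : Matrix ι ι R) (n : ℤ) : f (eZ Y n) = eZ (Y.map f) n := by
  unfold eZ
  split_ifs
  · exact map_ee f Y _
  · exact map_zero f

theorem ee_eq_zero (Y : Matrix ι ι R) (i : ℕ) (hi : Fintype.card ι < i) : ee Y i = 0 := by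
  unfold ee opx
  apply Polynomial.coeff_eq_zero_of_natDegree_lt
  have h := Polynomial.natDegree_det_X_add_C_le Y (1 : Matrix ι ι R)
  have h2 : (Polynomial.X : Polynomial R) • Y.map Polynomial.C +
      (1 : Matrix ι ι R).map Polynomial.C = 1 + (Polynomial.X : Polynomial R) • Y.map Polynomial.C := by
    rw [add_comm]
    congr 1
    ext a b : 1
    by_cases hab : a = b
    · subst hab; simp
    · simp [hab]
  rw [h2] at h
  omega

theorem map_sdet (f : R →+* S) (e : ℤ → R) {k : ℕ} (σ : Fin k → ℕ) :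
    f (sdet e σ) = sdet (fun n => f (e n)) σ := by
  unfold sdet
  rw [f.map_det]
  rfl

/-- Extension of a sequence by zero. -/
def ext0 {k : ℕ} (σ : Fin k → ℕ) (i : ℕ) : ℕ := if h : i < k then σ ⟨i, h⟩ else 0

theorem ext0_lt {k : ℕ} (σ : Fin k → ℕ) (i : ℕ) (h : i < k) : ext0 σ i = σ ⟨i, h⟩ := by
  unfold ext0
  rw [dif_pos h]

theorem sdet_eq_schurDet (e : ℤ → R) {k : ℕ} (σ : Fin k → ℕ) :
    sdet e σ = schurDet e k (ext0 σ) := by
  unfold sdet schurDet
  congr 1
  ext i j
  simp only [Matrix.of_apply]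
  rw [ext0_lt σ i i.2]

end natural

section homog

/-- Graded polynomials. -/
def Gr {τ : Type*} (p : Polynomial (MvPolynomial τ ℂ)) : Prop :=
  ∀ n, (p.coeff n).IsHomogeneous n

theorem Gr.one {τ : Type*} : Gr (1 : Polynomial (MvPolynomial τ ℂ)) := by
  intro n
  rw [Polynomial.coeff_one]
  split_ifs with h
  · subst h
    exact MvPolynomial.isHomogeneous_one _ _
  · exact MvPolynomial.isHomogeneous_zero _ _ _

theorem Gr.zero {τ : Type*} : Gr (0 : Polynomial (MvPolynomial τ ℂ)) := by
  intro n
  rw [Polynomial.coeff_zero]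
  exact MvPolynomial.isHomogeneous_zero _ _ _

theorem Gr.add {τ : Type*} {p q : Polynomial (MvPolynomial τ ℂ)} (hp : Gr p) (hq : Gr q) :
    Gr (p + q) := by
  intro n
  rw [Polynomial.coeff_add]
  exact (hp n).add (hq n)

theorem Gr.neg {τ : Type*} {p : Polynomial (MvPolynomial τ ℂ)} (hp : Gr p) : Gr (-p) := by
  intro n
  rw [Polynomial.coeff_neg]
  exact (hp n).neg

theorem Gr.mul {τ : Type*} {p q : Polynomial (MvPolynomial τ ℂ)} (hp : Gr p) (hq : Gr q) :
    Gr (p * q) := by
  intro n
  rw [Polynomial.coeff_mul]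
  apply MvPolynomial.IsHomogeneous.sum
  intro x hx
  rw [Finset.HasAntidiagonal.mem_antidiagonal] at hx
  rw [← hx]
  exact (hp x.1).mul (hq x.2)

theorem Gr.prod {τ α : Type*} (s : Finset α) (f : α → Polynomial (MvPolynomial τ ℂ))
    (hf : ∀ i, Gr (f i)) : Gr (∏ i ∈ s, f i) := by
  classical
  induction s using Finset.induction_on with
  | empty => rw [Finset.prod_empty]; exact Gr.one
  | insert a s ha ih => rw [Finset.prod_insert ha]; exact (hf a).mul ih

theorem Gr.sum {τ α : Type*} (s : Finset α) (f : α → Polynomial (MvPolynomial τ ℂ))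
    (hf : ∀ i, Gr (f i)) : Gr (∑ i ∈ s, f i) := by
  classical
  induction s using Finset.induction_on with
  | empty => rw [Finset.sum_empty]; exact Gr.zero
  | insert a s ha ih => rw [Finset.sum_insert ha]; exact (hf a).add ih

theorem ee_homogeneous {ι : Type*} [Fintype ι] [DecidableEq ι] {k : ℕ}
    (K : ι → ι → Matrix (Fin k) (Fin k) ℂ) (n : ℕ) : (ee (sysLin K) n).IsHomogeneous n := by
  have h : Gr (opx (sysLin K)).det := by
    rw [Matrix.det_apply]
    apply Gr.sum
    intro σ
    have h1 : Gr (∏ i, opx (sysLin K) (σ i) i) := by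
      apply Gr.prod
      intro i
      have h2 : opx (sysLin K) (σ i) i = (if σ i = i then 1 else 0) +
          Polynomial.X * Polynomial.C (sysLin K (σ i) i) := by
        unfold opx
        simp [Matrix.one_apply]
      rw [h2]
      apply Gr.add
      · split_ifs
        · exact Gr.one
        · exact Gr.zero
      · intro n
        rcases n with _ | _ | n
        · simp only [Polynomial.mul_coeff_zero, Polynomial.coeff_X_zero, zero_mul]
          exact MvPolynomial.isHomogeneous_zero _ _ _
        · rw [Polynomial.coeff_X_mul, Polynomial.coeff_C_zero]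
          exact lin_homogeneous _
        · rw [Polynomial.coeff_X_mul, Polynomial.coeff_C_succ]
          exact MvPolynomial.isHomogeneous_zero _ _ _
    rcases Int.units_eq_one_or (Equiv.Perm.sign σ) with h3 | h3
    · rw [h3, one_smul]
      exact h1
    · rw [h3]
      have : (-1 : ℤˣ) • ∏ i, opx (sysLin K) (σ i) i = - ∏ i, opx (sysLin K) (σ i) i := by
        simp
      rw [this]
      exact h1.neg
  exact h n

theorem sdet_homogeneous {ι : Type*} [Fintype ι] [DecidableEq ι] {k l : ℕ}
    (K : ι → ι → Matrix (Fin k) (Fin k) ℂ) (σ : Fin l → ℕ) (hσ : ∑ i, σ i = l) :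
    (sdet (eZ (sysLin K)) σ).IsHomogeneous l := by
  unfold sdet
  rw [Matrix.det_apply]
  apply MvPolynomial.IsHomogeneous.sum
  intro π _
  have h1 : (∏ i, (Matrix.of fun i j : Fin l =>
      eZ (sysLin K) ((σ i : ℤ) - (i : ℤ) + (j : ℤ))) (π i) i).IsHomogeneous l := by
    by_cases hneg : ∀ i : Fin l, 0 ≤ (σ (π i) : ℤ) - ((π i : Fin l) : ℤ) + (i : ℤ)
    · have h2 := MvPolynomial.IsHomogeneous.prod Finset.univ
        (fun i => (Matrix.of fun i j : Fin l =>
          eZ (sysLin K) ((σ i : ℤ) - (i : ℤ) + (j : ℤ))) (π i) i)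
        (fun i => ((σ (π i) : ℤ) - ((π i : Fin l) : ℤ) + (i : ℤ)).toNat) (by
          intro i _
          rw [Matrix.of_apply]
          unfold eZ
          rw [if_pos (hneg i)]
          exact ee_homogeneous K _)
      have h3 : ∑ i : Fin l, ((σ (π i) : ℤ) - ((π i : Fin l) : ℤ) + (i : ℤ)).toNat = l := by
        have h4 : ((∑ i : Fin l, ((σ (π i) : ℤ) - ((π i : Fin l) : ℤ) + (i : ℤ)).toNat : ℕ) : ℤ)
            = (l : ℤ) := by
          rw [Nat.cast_sum]
          have h5 : ∀ i : Fin l,
              ((((σ (π i) : ℤ) - ((π i : Fin l) : ℤ) + (i : ℤ)).toNat : ℕ) : ℤ) =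
              (σ (π i) : ℤ) - ((π i : Fin l) : ℤ) + (i : ℤ) := fun i => Int.toNat_of_nonneg (hneg i)
          simp only [h5]
          rw [Finset.sum_add_distrib, Finset.sum_sub_distrib]
          rw [Equiv.sum_comp π (fun i => (σ i : ℤ)), Equiv.sum_comp π (fun i => ((i : Fin l) : ℤ))]
          rw [sub_add_cancel, ← Nat.cast_sum, hσ]
        exact_mod_cast h4
      rw [h3] at h2
      exact h2
    · have hneg' : ∃ i : Fin l, ¬ 0 ≤ (σ (π i) : ℤ) - ((π i : Fin l) : ℤ) + (i : ℤ) := by
        by_contra hcon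
        apply hneg
        intro i
        by_contra hi
        exact hcon ⟨i, hi⟩
      obtain ⟨i, hi⟩ := hneg'
      rw [Finset.prod_eq_zero (Finset.mem_univ i)]
      · exact MvPolynomial.isHomogeneous_zero _ _ _
      · rw [Matrix.of_apply]
        unfold eZ
        rw [if_neg hi]
  rcases Int.units_eq_one_or (Equiv.Perm.sign π) with h | h
  · rw [h, one_smul]
    exact h1
  · rw [h]
    have : ∀ x : PolyForms k, (-1 : ℤˣ) • x = -x := by
      intro x
      simp
    rw [this]
    exact h1.neg

end homog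

section cover

variable {ι : Type*} [Fintype ι] [DecidableEq ι] {k : ℕ}

theorem threshold (σ : Fin k → ℕ) (hσ : Antitone σ) (t : ℕ) (i : Fin k) :
    t ≤ σ i ↔ (i : ℕ) < (Finset.univ.filter (fun j => t ≤ σ j)).card := by
  constructor
  · intro h
    have h1 : Finset.Iic i ⊆ Finset.univ.filter (fun j => t ≤ σ j) := by
      intro j hj
      rw [Finset.mem_Iic] at hj
      rw [Finset.mem_filter]
      exact ⟨Finset.mem_univ j, h.trans (hσ hj)⟩
    have h2 := Finset.card_le_card h1
    rw [Fin.card_Iic] at h2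
    omega
  · intro h
    by_contra hcon
    have h1 : Finset.univ.filter (fun j => t ≤ σ j) ⊆ Finset.Iio i := by
      intro j hj
      rw [Finset.mem_filter] at hj
      rw [Finset.mem_Iio]
      by_contra hji
      apply hcon
      exact hj.2.trans (hσ (not_lt.mp hji))
    have h2 := Finset.card_le_card h1
    rw [Fin.card_Iio] at h2
    omega

theorem cover_two {K : ι → ι → Matrix (Fin k) (Fin k) ℂ} (hK : GPos K) (σ : Fin k → ℕ)
    (hσ : Antitone σ) (hsum : ∑ i, σ i = k) (h2 : ∀ i, σ i ≤ 2) :
    0 ≤ topCoeff k (sdet (eZ (sysLin K)) σ) := by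
  rw [sdet_eq_schurDet]
  set c1 := (Finset.univ.filter (fun j => 1 ≤ σ j)).card with hc1
  set c2 := (Finset.univ.filter (fun j => 2 ≤ σ j)).card with hc2
  have hc21 : c2 ≤ c1 := by
    apply Finset.card_le_card
    intro j hj
    rw [Finset.mem_filter] at hj ⊢
    exact ⟨hj.1, by omega⟩
  have hc1k : c1 ≤ k := by
    have := Finset.card_le_univ (Finset.univ.filter (fun j => 1 ≤ σ j))
    rwa [Fintype.card_fin] at this
  have hs : c1 + c2 = k := by
    rw [← hsum, hc1, hc2, Finset.card_filter, Finset.card_filter, ← Finset.sum_add_distrib]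
    apply Finset.sum_congr rfl
    intro i _
    have := h2 i
    split_ifs <;> omega
  have t1 := threshold σ hσ 1
  have t2 := threshold σ hσ 2
  rw [← hc1] at t1
  rw [← hc2] at t2
  have g2 : ∀ i, i < c2 → ext0 σ i = 2 := by
    intro i hi
    rw [ext0_lt σ i (by omega)]
    have h3 := (t2 ⟨i, by omega⟩).mpr hi
    have h4 := h2 ⟨i, by omega⟩
    omega
  have g1 : ∀ i, c2 ≤ i → i < c2 + (c1 - c2) → ext0 σ i = 1 := by
    intro i hi1 hi2
    rw [ext0_lt σ i (by omega)]
    have h3 := (t1 ⟨i, by omega⟩).mpr (by change i < c1; omega)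
    have h4 : ¬ (2 ≤ σ ⟨i, by omega⟩) := by
      intro h5
      have h6 := (t2 ⟨i, by omega⟩).mp h5
      change i < c2 at h6
      omega
    omega
  have g0 : ∀ i, c2 + (c1 - c2) ≤ i → i < k → ext0 σ i = 0 := by
    intro i hi1 hi2
    rw [ext0_lt σ i hi2]
    by_contra h5
    have h6 := (t1 ⟨i, hi2⟩).mp (by omega)
    change i < c1 at h6
    omega
  rcases Nat.eq_zero_or_pos c2 with h0 | hpos
  · apply ones_nonneg hK
    intro i hi
    exact g1 i (by omega) (by omega)
  · exact two_nonneg hK c2 (c1 - c2) (k - c1) hpos (by omega) (by omega) _ g2 g1 g0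

theorem cover_hook {K : ι → ι → Matrix (Fin k) (Fin k) ℂ} (hK : GPos K) (σ : Fin k → ℕ)
    (hσ : Antitone σ) (hsum : ∑ i, σ i = k) (h3 : ∀ i, σ i ≤ 3)
    (h1 : ∀ i : Fin k, (i : ℕ) ≠ 0 → σ i ≤ 1) :
    0 ≤ topCoeff k (sdet (eZ (sysLin K)) σ) := by
  by_cases hcase : ∀ i, σ i ≤ 2
  · exact cover_two hK σ hσ hsum hcase
  · have : ∃ i, 3 ≤ σ i := by
      by_contra hcon
      apply hcase
      intro i
      by_contra hi
      exact hcon ⟨i, by omega⟩
    obtain ⟨i0, hi0⟩ := this
    have hi00 : (i0 : ℕ) = 0 := by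
      by_contra hne
      have := h1 i0 hne
      omega
    have hk : 0 < k := by
      have := i0.2
      omega
    have hs0 : σ ⟨0, hk⟩ = 3 := by
      have e : i0 = ⟨0, hk⟩ := Fin.ext hi00
      rw [← e]
      have := h3 i0
      omega
    rw [sdet_eq_schurDet]
    set c1 := (Finset.univ.filter (fun j => 1 ≤ σ j)).card with hc1
    have t1 := threshold σ hσ 1
    rw [← hc1] at t1
    have hc1pos : 0 < c1 := by
      have := (t1 ⟨0, hk⟩).mp (by omega)
      exact this
    have hc1k : c1 ≤ k := by
      have := Finset.card_le_univ (Finset.univ.filter (fun j => 1 ≤ σ j))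
      rwa [Fintype.card_fin] at this
    have hs : c1 + 2 = k := by
      have h4 : ∑ i : Fin k, (if (i : ℕ) = 0 then 2 else 0) = 2 := by
        rw [Finset.sum_eq_single (⟨0, hk⟩ : Fin k)]
        · simp
        · intro b _ hb
          rw [if_neg]
          intro h5
          exact hb (Fin.ext h5)
        · simp
      rw [← hsum, hc1, Finset.card_filter, ← h4, ← Finset.sum_add_distrib]
      apply Finset.sum_congr rfl
      intro i _
      by_cases hi : (i : ℕ) = 0
      · have e : i = ⟨0, hk⟩ := Fin.ext hi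
        rw [e, hs0]
        simp
      · have := h1 i hi
        rw [if_neg hi]
        split_ifs <;> omega
    apply hook_nonneg hK (c1 - 1) (k - c1) (by omega) (by omega) (ext0 σ)
    · rw [ext0_lt σ 0 hk]
      exact hs0
    · intro i hi1 hi2
      rw [ext0_lt σ i (by omega)]
      have h5 := (t1 ⟨i, by omega⟩).mpr (by change i < c1; omega)
      have h6 := h1 ⟨i, by omega⟩ (by change i ≠ 0; omega)
      omega
    · intro i hi1 hi2
      rw [ext0_lt σ i hi2]
      by_contra h5
      have h6 := (t1 ⟨i, hi2⟩).mp (by omega)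
      change i < c1 at h6
      omega

end cover

end Pool.Agent.MP2e24f1
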