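import Pool.Agent.Lib.MP_2e24f1_ag.Defs
import Pool.Agent.Lib.MP_2e24f1_ag.Alg

/-! Evaluation of polynomials in `dz_j ∧ dz̄_k` and pull-backs. -/

namespace Pool.Agent.MP2e24f1

open Matrix MvPolynomial

theorem dzdz_rel {d : ℕ} (p q p' q' : Fin d) :
    dzdz p q * dzdz p' q' = -(dzdz p q' * dzdz p' q) := by
  have hval : Function.Injective (toForms d) := Subtype.val_injective
  apply hval
  rw [map_neg, map_mul, map_mul]
  change (incl d (dzOne p) * incl d (dzbarOne q)) * (incl d (dzOne p') * incl d (dzbarOne q')) =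
    -((incl d (dzOne p) * incl d (dzbarOne q')) * (incl d (dzOne p') * incl d (dzbarOne q)))
  generalize dzOne p = a
  generalize dzbarOne q = b
  generalize dzOne p' = c
  generalize dzbarOne q' = e
  have h : incl d b * incl d c * incl d e = -(incl d e * incl d c * incl d b) := by
    rw [incl_swap b c, neg_mul, mul_assoc, incl_swap b e, mul_neg, neg_neg, ← mul_assoc,
      incl_swap c e, neg_mul]
  rw [mul_assoc, ← mul_assoc (incl d b), h, mul_neg, mul_assoc, mul_assoc]

section abstract_rel

variable {A : Type*} [CommRing A] [Algebra ℂ A] {k : ℕ} (x : Fin k → Fin k → A)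

/-- The linear map `w ↦ ∑_l w_l x_{j l}`. -/
noncomputable def rowMap (j : Fin k) : (Fin k → ℂ) →ₗ[ℂ] A where
  toFun w := ∑ l, w l • x j l
  map_add' v w := by simp [add_smul, Finset.sum_add_distrib]
  map_smul' c w := by simp [mul_smul, Finset.smul_sum]

/-- The alternating map `w ↦ ∏_j (∑_l w_{j l} x_{j l})`. -/
noncomputable def altMap (hx : ∀ p q p' q', x p q * x p' q' = -(x p q' * x p' q)) :
    (Fin k → ℂ) [⋀^Fin k]→ₗ[ℂ] A :=
  { (MultilinearMap.mkPiAlgebra ℂ (Fin k) A).compLinearMap (rowMap x) with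
    map_eq_zero_of_eq' := by
      intro v i j hij hne
      simp only [MultilinearMap.toFun_eq_coe, MultilinearMap.compLinearMap_apply,
        MultilinearMap.mkPiAlgebra_apply]
      have h1 : rowMap x i (v i) * rowMap x j (v j) = 0 := by
        rw [← hij]
        have h2 : rowMap x i (v i) * rowMap x j (v i) =
            -(rowMap x i (v i) * rowMap x j (v i)) := by
          change (∑ l, v i l • x i l) * (∑ l, v i l • x j l) =
            -((∑ l, v i l • x i l) * (∑ l, v i l • x j l))
          rw [Finset.sum_mul_sum, ← Finset.sum_neg_distrib]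
          conv_lhs => rw [Finset.sum_comm]
          apply Finset.sum_congr rfl
          intro a _
          rw [← Finset.sum_neg_distrib]
          apply Finset.sum_congr rfl
          intro b _
          rw [smul_mul_smul_comm, smul_mul_smul_comm, hx i b j a, smul_neg, mul_comm (v i b)]
        have h3 : (2 : ℂ) • (rowMap x i (v i) * rowMap x j (v i)) = 0 := by
          rw [two_smul]
          nth_rewrite 2 [h2]
          exact add_neg_cancel _
        have h4 := congrArg (fun y => (2 : ℂ)⁻¹ • y) h3
        simpa using h4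
      rw [← Finset.mul_prod_erase Finset.univ _ (Finset.mem_univ i)]
      have hj : j ∈ Finset.univ.erase i := Finset.mem_erase.mpr ⟨hne.symm, Finset.mem_univ j⟩
      rw [← Finset.mul_prod_erase _ _ hj, ← mul_assoc, h1, zero_mul] }

theorem altMap_single (hx : ∀ p q p' q', x p q * x p' q' = -(x p q' * x p' q))
    (b : Fin k → Fin k) :
    altMap x hx (fun j => Pi.single (b j) 1) = ∏ j, x j (b j) := by
  change (MultilinearMap.mkPiAlgebra ℂ (Fin k) A).compLinearMap (rowMap x) _ = _
  rw [MultilinearMap.compLinearMap_apply, MultilinearMap.mkPiAlgebra_apply]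
  apply Finset.prod_congr rfl
  intro j _
  change ∑ l, (Pi.single (b j) (1:ℂ) : Fin k → ℂ) l • x j l = _
  rw [Finset.sum_eq_single (b j)]
  · simp
  · intro l _ hl
    simp [hl]
  · simp

theorem prod_rel_right (hx : ∀ p q p' q', x p q * x p' q' = -(x p q' * x p' q))
    (b : Fin k → Fin k) : ∏ j, x j (b j) = eps b • ∏ j, x j j := by
  by_cases hb : Function.Injective b
  · let β : Equiv.Perm (Fin k) := Equiv.ofBijective b (Finite.injective_iff_bijective.mp hb)
    have e : b = β := rfl
    rw [e, eps_perm, ← altMap_single x hx, ← altMap_single x hx (fun j => j)]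
    have h := (altMap x hx).map_perm (fun j => (Pi.single j (1:ℂ) : Fin k → ℂ)) β
    have h2 : ((fun j => (Pi.single j (1:ℂ) : Fin k → ℂ)) ∘ β) =
      fun j => (Pi.single (β j) (1:ℂ) : Fin k → ℂ) := rfl
    rw [h2] at h
    rw [h]
    rcases Int.units_eq_one_or (Equiv.Perm.sign β) with h3 | h3 <;> rw [h3] <;> simp
  · rw [eps_not_inj hb, zero_smul]
    simp only [Function.Injective, not_forall] at hb
    obtain ⟨i, j, hij, hne⟩ := hb
    rw [← altMap_single x hx]
    exact (altMap x hx).map_eq_zero_of_eq _ (by rw [hij]) hne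

theorem eps_comp_perm (b : Fin k → Fin k) (α : Equiv.Perm (Fin k)) :
    eps (b ∘ α) = ((Equiv.Perm.sign α : ℤ) : ℂ) * eps b := by
  by_cases hb : Function.Injective b
  · let β : Equiv.Perm (Fin k) := Equiv.ofBijective b (Finite.injective_iff_bijective.mp hb)
    have e : b = β := rfl
    have e2 : (β : Fin k → Fin k) ∘ α = (α.trans β : Equiv.Perm (Fin k)) := rfl
    rw [e, e2, eps_perm, eps_perm, Equiv.Perm.sign_trans]
    push_cast
    ring
  · have hb2 : ¬ Function.Injective (b ∘ α) := by
      intro h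
      apply hb
      have : b = (b ∘ α) ∘ α.symm := by
        funext i
        simp
      rw [this]
      exact h.comp α.symm.injective
    rw [eps_not_inj hb, eps_not_inj hb2, mul_zero]

theorem prod_rel (hx : ∀ p q p' q', x p q * x p' q' = -(x p q' * x p' q))
    (a b : Fin k → Fin k) : ∏ i, x (a i) (b i) = (eps a * eps b) • ∏ j, x j j := by
  by_cases ha : Function.Injective a
  · let α : Equiv.Perm (Fin k) := Equiv.ofBijective a (Finite.injective_iff_bijective.mp ha)
    have e : a = α := rfl
    have h1 : ∏ i, x (a i) (b i) = ∏ j, x j ((b ∘ α.symm) j) := by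
      rw [← Equiv.prod_comp α (fun j => x j ((b ∘ α.symm) j))]
      apply Finset.prod_congr rfl
      intro i _
      simp [e]
    rw [h1, prod_rel_right x hx, eps_comp_perm, e, eps_perm, Equiv.Perm.sign_symm]
  · rw [eps_not_inj ha, zero_mul, zero_smul]
    simp only [Function.Injective, not_forall] at ha
    obtain ⟨i, j, hij, hne⟩ := ha
    rw [← Finset.mul_prod_erase Finset.univ _ (Finset.mem_univ i)]
    have hj : j ∈ Finset.univ.erase i := Finset.mem_erase.mpr ⟨fun h => hne h.symm, Finset.mem_univ j⟩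
    rw [← Finset.mul_prod_erase _ _ hj, ← mul_assoc]
    have h2 : x (a i) (b i) * x (a j) (b j) = 0 := by
      rw [← hij]
      have h3 := hx (a i) (b i) (a i) (b j)
      rw [mul_comm (x (a i) (b j))] at h3
      have h4 : (2 : ℂ) • (x (a i) (b i) * x (a i) (b j)) = 0 := by
        rw [two_smul]
        nth_rewrite 2 [h3]
        exact add_neg_cancel _
      have h5 := congrArg (fun y => (2 : ℂ)⁻¹ • y) h4
      simpa using h5
    rw [h2, zero_mul]

end abstract_rel

/-- Evaluation of a polynomial at the forms `s dz_j ∧ dz̄_k`. -/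
noncomputable def evf {d : ℕ} (s : ℂ) : PolyForms d →ₐ[ℂ] CForms d :=
  aeval (fun x : Fin d × Fin d => s • dzdz x.1 x.2)

theorem evf_X {d : ℕ} (s : ℂ) (x : Fin d × Fin d) : evf s (X x) = s • dzdz x.1 x.2 := by
  simp [evf]

theorem evf_lin {d : ℕ} (s : ℂ) (M : Matrix (Fin d) (Fin d) ℂ) :
    evf s (lin M) = s • ∑ j, ∑ k, M j k • dzdz j k := by
  unfold lin
  simp only [map_sum, map_smul, evf_X, Finset.smul_sum]
  apply Finset.sum_congr rfl
  intro j _
  apply Finset.sum_congr rfl
  intro k _
  rw [smul_comm]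

theorem evf_top {k : ℕ} (s : ℂ) {F : PolyForms k} (hF : F.IsHomogeneous k) :
    evf s F = topCoeff k F • (s ^ k • ∏ i, dzdz i i) := by
  apply homogeneous_induction hF
    (P := fun F => evf s F = topCoeff k F • (s ^ k • ∏ i, dzdz i i))
  · simp
  · intro a b ha hb
    rw [map_add, ha, hb, map_add, add_smul]
  · intro c f
    rw [map_smul, map_smul, map_prod]
    simp only [evf_X]
    rw [Finset.prod_smul, Finset.prod_const, Finset.card_univ, Fintype.card_fin,
      prod_rel (fun p q => (dzdz p q : CForms k)) dzdz_rel (fun i => (f i).1) (fun i => (f i).2)]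
    have h := topCoeff_prod_X (fun i => (f i).1) (fun i => (f i).2)
    simp only [Prod.mk.eta] at h
    rw [h, smul_eq_mul]
    simp only [smul_smul]
    congr 1
    ring

/-- Substitution on polynomials induced by a linear map `ℂ^k → ℂ^d`. -/
noncomputable def subL {d k : ℕ} (L : Matrix (Fin d) (Fin k) ℂ) : PolyForms d →ₐ[ℂ] PolyForms k :=
  aeval (fun x : Fin d × Fin d => lin (Matrix.vecMulVec (L x.1) (fun j => star (L x.2 j))))

theorem subL_X {d k : ℕ} (L : Matrix (Fin d) (Fin k) ℂ) (x : Fin d × Fin d) :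
    subL L (X x) = lin (Matrix.vecMulVec (L x.1) (fun j => star (L x.2 j))) := by
  simp [subL]

theorem subL_lin {d k : ℕ} (L : Matrix (Fin d) (Fin k) ℂ) (H : Matrix (Fin d) (Fin d) ℂ) :
    subL L (lin H) = lin (Lᵀ * H * L.map star) := by
  have h0 : lin H = ∑ p, ∑ q, H p q • X (p, q) := rfl
  rw [h0]
  simp only [map_sum, map_smul, subL_X]
  have h : ∀ p q : Fin d, H p q • lin (Matrix.vecMulVec (L p) (fun j => star (L q j)))
      = lin (H p q • Matrix.vecMulVec (L p) (fun j => star (L q j))) := by
    intro p q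
    rw [lin_smul]
  simp only [h]
  simp only [← lin_sum]
  congr 1
  ext a b
  simp only [Matrix.sum_apply, Matrix.smul_apply, Matrix.vecMulVec_apply, Matrix.mul_apply,
    Matrix.transpose_apply, Matrix.map_apply, smul_eq_mul]
  rw [Finset.sum_comm]
  apply Finset.sum_congr rfl
  intro q _
  rw [Finset.sum_mul]
  apply Finset.sum_congr rfl
  intro p _
  ring

theorem pullback_incl {d k : ℕ} (L : Matrix (Fin d) (Fin k) ℂ) (v : OneForms d) :
    pullback L (incl d v) = incl k (pullOne L v) :=
  ExteriorAlgebra.map_apply_ι (pullOne L) v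

theorem pullOne_dz {d k : ℕ} (L : Matrix (Fin d) (Fin k) ℂ) (j : Fin d) :
    pullOne L (dzOne j) = ∑ p, L j p • dzOne p := by
  have h : ∀ (f : Fin k → OneForms k) (x : Fin k ⊕ Fin k), (∑ p, f p) x = ∑ p, f p x := by
    intro f x
    exact Finset.sum_apply x Finset.univ (fun p => (f p : Fin k ⊕ Fin k → ℂ))
  funext x
  rw [h]
  rcases x with q | q
  · change ∑ i, (if (Sum.inl i : Fin d ⊕ Fin d) = Sum.inl j then (1:ℂ) else 0) * L i q =
      ∑ p, L j p * (if (Sum.inl q : Fin k ⊕ Fin k) = Sum.inl p then (1:ℂ) else 0)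
    simp
  · change ∑ i, (if (Sum.inr i : Fin d ⊕ Fin d) = Sum.inl j then (1:ℂ) else 0) * star (L i q) =
      ∑ p, L j p * (if (Sum.inr q : Fin k ⊕ Fin k) = Sum.inl p then (1:ℂ) else 0)
    simp

theorem pullOne_dzbar {d k : ℕ} (L : Matrix (Fin d) (Fin k) ℂ) (j : Fin d) :
    pullOne L (dzbarOne j) = ∑ p, star (L j p) • dzbarOne p := by
  have h : ∀ (f : Fin k → OneForms k) (x : Fin k ⊕ Fin k), (∑ p, f p) x = ∑ p, f p x := by
    intro f x
    exact Finset.sum_apply x Finset.univ (fun p => (f p : Fin k ⊕ Fin k → ℂ))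
  funext x
  rw [h]
  rcases x with q | q
  · change ∑ i, (if (Sum.inl i : Fin d ⊕ Fin d) = Sum.inr j then (1:ℂ) else 0) * L i q =
      ∑ p, star (L j p) * (if (Sum.inl q : Fin k ⊕ Fin k) = Sum.inr p then (1:ℂ) else 0)
    simp
  · change ∑ i, (if (Sum.inr i : Fin d ⊕ Fin d) = Sum.inr j then (1:ℂ) else 0) * star (L i q) =
      ∑ p, star (L j p) * (if (Sum.inr q : Fin k ⊕ Fin k) = Sum.inr p then (1:ℂ) else 0)
    simp

theorem toForms_dzdz {d : ℕ} (p q : Fin d) :
    toForms d (dzdz p q) = incl d (dzOne p) * incl d (dzbarOne q) := rfl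

theorem pullback_evf {d k : ℕ} (L : Matrix (Fin d) (Fin k) ℂ) (s : ℂ) (P : PolyForms d) :
    pullback L (toForms d (evf s P)) = toForms k (evf s (subL L P)) := by
  induction P using MvPolynomial.induction_on with
  | C c =>
    have h1 : (C c : PolyForms d) = algebraMap ℂ _ c := rfl
    rw [h1, AlgHom.commutes, AlgHom.commutes, AlgHom.commutes, AlgHom.commutes, AlgHom.commutes,
      AlgHom.commutes]
  | add p q hp hq =>
    rw [map_add, map_add, map_add, map_add, map_add, map_add, hp, hq]
  | mul_X p x hp =>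
    rw [map_mul, map_mul, map_mul, map_mul, map_mul, map_mul, hp]
    congr 1
    rw [evf_X, subL_X, evf_lin, map_smul, map_smul, map_smul]
    congr 1
    rw [toForms_dzdz, map_mul, pullback_incl, pullback_incl, pullOne_dz, pullOne_dzbar, map_sum,
      map_sum, Finset.sum_mul_sum, map_sum]
    apply Finset.sum_congr rfl
    intro p _
    rw [map_sum]
    apply Finset.sum_congr rfl
    intro q _
    rw [Matrix.vecMulVec_apply, map_smul, map_smul, map_smul, smul_mul_smul_comm, toForms_dzdz]

end Pool.Agent.MP2e24f1
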