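import Pool.Agent.Lib.MP_2e24f1_ag.Ext
import Pool.Agent.Lib.MP_2e24f1_ag.Cover

/-! From the curvature to positive systems of matrices. -/

namespace Pool.Agent.MP2e24f1

open Matrix
open scoped ComplexOrder

theorem polar {κ V : Type*} [Fintype κ] [DecidableEq κ] [AddCommGroup V] [Module ℂ V]
    (E : κ → κ → V) (hD : ∀ v : κ → ℂ, ∑ c, ∑ d, (star (v c) * v d) • E c d = 0) (a b : κ) :
    E a b = 0 := by
  have hdiag : ∀ c, E c c = 0 := by
    intro c
    have h1 := hD (Pi.single c 1)
    rw [Finset.sum_eq_single c] at h1
    · rw [Finset.sum_eq_single c] at h1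
      · simpa using h1
      · intro d _ hd
        simp [hd]
      · simp
    · intro d _ hd
      apply Finset.sum_eq_zero
      intro e _
      simp [hd]
    · simp
  by_cases hab : a = b
  · subst hab
    exact hdiag a
  · have hpair : ∀ x : ℂ, (star x) • E a b + x • E b a = 0 := by
      intro x
      have h1 := hD (fun c => if c = a then x else if c = b then 1 else 0)
      have h2 : ∀ c d, (star (if c = a then x else if c = b then (1:ℂ) else 0) *
          (if d = a then x else if d = b then 1 else 0)) • E c d =
          (if c = a then (if d = b then (star x) • E a b else 0) else 0) +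
          (if c = b then (if d = a then x • E b a else 0) else 0) := by
        intro c d
        by_cases hca : c = a
        · subst hca
          by_cases hda : d = c
          · subst hda
            simp [hdiag, hab]
          · by_cases hdb : d = b
            · subst hdb
              simp [hda, Ne.symm hda]
            · simp [hda, hdb]
        · by_cases hcb : c = b
          · subst hcb
            by_cases hda : d = a
            · subst hda
              simp [hca]
            · by_cases hdb : d = c
              · subst hdb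
                simp [hca, hdiag]
              · simp [hca, hda, hdb]
          · simp [hca, hcb]
      simp only [h2] at h1
      simpa [Finset.sum_add_distrib] using h1
    have h1 := hpair 1
    have h2 := hpair Complex.I
    have h3 : star Complex.I = -Complex.I := Complex.conj_I
    rw [h3] at h2
    rw [star_one, one_smul, one_smul] at h1
    have h4 : E b a = -E a b := by
      rw [add_comm] at h1
      exact eq_neg_of_add_eq_zero_left h1
    rw [h4, smul_neg, neg_smul, ← neg_add, neg_eq_zero, ← two_smul ℂ, smul_smul, smul_eq_zero] at h2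
    rcases h2 with h2 | h2
    · exfalso
      have : (2 : ℂ) * Complex.I ≠ 0 := mul_ne_zero two_ne_zero Complex.I_ne_zero
      exact this h2
    · exact h2

theorem psd_of_nonneg {κ : Type*} [Fintype κ] [DecidableEq κ] (M : Matrix κ κ ℂ)
    (h : ∀ x : κ → ℂ, 0 ≤ ∑ p, ∑ q, star (x p) * x q * M p q) : M.PosSemidef := by
  have hD : ∀ x : κ → ℂ, ∑ p, ∑ q, (star (x p) * x q) • (star (M q p) - M p q) = 0 := by
    intro x
    have h1 := h x
    have h2 : star (∑ p, ∑ q, star (x p) * x q * M p q) = ∑ p, ∑ q, star (x p) * x q * M p q := by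
      have h3 := (Complex.nonneg_iff.mp h1).2
      exact Complex.conj_eq_iff_im.mpr h3.symm
    simp only [smul_eq_mul, mul_sub, Finset.sum_sub_distrib]
    rw [sub_eq_zero, ← h2, star_sum]
    rw [Finset.sum_comm]
    apply Finset.sum_congr rfl
    intro p _
    rw [star_sum]
    apply Finset.sum_congr rfl
    intro q _
    rw [star_mul', star_mul', star_star]
    ring
  have hherm : M.IsHermitian := by
    ext p q
    have := polar (fun p q => star (M q p) - M p q) hD p q
    rw [Matrix.conjTranspose_apply]
    exact sub_eq_zero.mp this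
  apply Matrix.PosSemidef.of_dotProduct_mulVec_nonneg hherm
  intro x
  have h1 := h x
  have h2 : star x ⬝ᵥ M *ᵥ x = ∑ p, ∑ q, star (x p) * x q * M p q := by
    unfold dotProduct Matrix.mulVec dotProduct
    apply Finset.sum_congr rfl
    intro p _
    rw [Finset.mul_sum]
    apply Finset.sum_congr rfl
    intro q _
    rw [Pi.star_apply]
    ring
  rw [h2]
  exact h1

section gauge

variable {ι : Type*} [Fintype ι] [DecidableEq ι] {k : ℕ}

/-- Gauge transformation of a system. -/
noncomputable def gauge (K : ι → ι → Matrix (Fin k) (Fin k) ℂ) (A B : Matrix ι ι ℂ) :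
    ι → ι → Matrix (Fin k) (Fin k) ℂ := fun a b => ∑ c, ∑ d, (A a c * B d b) • K c d

theorem sysLin_gauge (K : ι → ι → Matrix (Fin k) (Fin k) ℂ) (A B : Matrix ι ι ℂ) :
    sysLin (gauge K A B) = A.map (MvPolynomial.C) * sysLin K * B.map (MvPolynomial.C) := by
  ext a b : 1
  unfold sysLin gauge
  rw [Matrix.of_apply, Matrix.mul_apply]
  simp only [lin_sum, lin_smul, Matrix.mul_apply, Matrix.map_apply, Matrix.of_apply,
    Finset.sum_mul]
  rw [Finset.sum_comm]
  apply Finset.sum_congr rfl
  intro d _
  apply Finset.sum_congr rfl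
  intro c _
  rw [MvPolynomial.smul_eq_C_mul, map_mul]
  ring

theorem ee_conj {R : Type*} [CommRing R] (Y A B : Matrix ι ι R) (hAB : A * B = 1) (i : ℕ) :
    ee (A * Y * B) i = ee Y i := by
  have hBA : B * A = 1 := mul_eq_one_comm.mp hAB
  unfold ee
  have h1 : opx (A * Y * B) = A.map Polynomial.C * opx Y * B.map Polynomial.C := by
    unfold opx
    rw [Matrix.mul_add, Matrix.mul_one, Matrix.add_mul, Matrix.mul_smul, Matrix.smul_mul,
      ← Matrix.map_mul, ← Matrix.map_mul, ← Matrix.map_mul, hAB]
    congr 1
    ext a b : 1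
    by_cases h : a = b
    · subst h; simp
    · simp [h]
  rw [h1, Matrix.det_mul, Matrix.det_mul]
  have h2 : (A.map Polynomial.C).det * (B.map Polynomial.C).det = 1 := by
    rw [← Matrix.det_mul, ← Matrix.map_mul, hAB]
    have : (1 : Matrix ι ι R).map Polynomial.C = 1 := by
      ext a b : 1
      by_cases h : a = b
      · subst h; simp
      · simp [h]
    rw [this, Matrix.det_one]
  have h3 : (A.map Polynomial.C).det * (opx Y).det * (B.map Polynomial.C).det = (opx Y).det := by
    calc _ = ((A.map Polynomial.C).det * (B.map Polynomial.C).det) * (opx Y).det := by ring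
      _ = _ := by rw [h2, one_mul]
  rw [h3]

theorem eZ_gauge (K : ι → ι → Matrix (Fin k) (Fin k) ℂ) (A B : Matrix ι ι ℂ) (hAB : A * B = 1)
    (n : ℤ) : eZ (sysLin (gauge K A B)) n = eZ (sysLin K) n := by
  unfold eZ
  split_ifs
  · rw [sysLin_gauge]
    apply ee_conj
    have : A.map MvPolynomial.C * B.map MvPolynomial.C =
        (A * B).map (MvPolynomial.C : ℂ →+* PolyForms k) := (Matrix.map_mul).symm
    rw [this, hAB]
    ext a b : 1
    by_cases h : a = b
    · subst h; simp
    · simp [h]
  · rfl

theorem frm_gauge (K : ι → ι → Matrix (Fin k) (Fin k) ℂ) (Q H : Matrix ι ι ℂ) (v : ι → ℂ) :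
    frm (gauge K Qᴴ (H * Q)) v =
      ∑ c, ∑ d, (star ((Q *ᵥ v) c) * (H *ᵥ (Q *ᵥ v)) d) • K c d := by
  unfold frm gauge
  simp only [Finset.smul_sum, smul_smul]
  calc ∑ a, ∑ b, ∑ c, ∑ d, (star (v a) * v b * (Qᴴ a c * (H * Q) d b)) • K c d
      = ∑ a, ∑ c, ∑ b, ∑ d, (star (v a) * v b * (Qᴴ a c * (H * Q) d b)) • K c d := by
        apply Finset.sum_congr rfl
        intro a _
        rw [Finset.sum_comm]
    _ = ∑ c, ∑ a, ∑ b, ∑ d, (star (v a) * v b * (Qᴴ a c * (H * Q) d b)) • K c d := by
        rw [Finset.sum_comm]
    _ = ∑ c, ∑ a, ∑ d, ∑ b, (star (v a) * v b * (Qᴴ a c * (H * Q) d b)) • K c d := by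
        apply Finset.sum_congr rfl
        intro c _
        apply Finset.sum_congr rfl
        intro a _
        rw [Finset.sum_comm]
    _ = ∑ c, ∑ d, ∑ a, ∑ b, (star (v a) * v b * (Qᴴ a c * (H * Q) d b)) • K c d := by
        apply Finset.sum_congr rfl
        intro c _
        rw [Finset.sum_comm]
    _ = _ := by
        apply Finset.sum_congr rfl
        intro c _
        apply Finset.sum_congr rfl
        intro d _
        have e1 : (Q *ᵥ v) c = ∑ a, Q c a * v a := rfl
        have e2 : (H *ᵥ (Q *ᵥ v)) d = ∑ b, (H * Q) d b * v b := by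
          rw [Matrix.mulVec_mulVec]
          rfl
        rw [e1, e2, star_sum, Finset.sum_mul]
        simp only [Finset.mul_sum, Finset.sum_smul]
        apply Finset.sum_congr rfl
        intro a _
        apply Finset.sum_congr rfl
        intro b _
        congr 1
        rw [star_mul', Matrix.conjTranspose_apply]
        ring

end gauge

/-- Components of the curvature as a system of matrices in the base directions. -/
noncomputable def KTheta {d r : ℕ} (Θ : Fin d → Fin d → Matrix (Fin r) (Fin r) ℂ) :
    Fin r → Fin r → Matrix (Fin d) (Fin d) ℂ := fun a b => Matrix.of fun j l => Θ j l a b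

theorem curvatureForm_eq {d r : ℕ} (Θ : Fin d → Fin d → Matrix (Fin r) (Fin r) ℂ) (s : ℂ) :
    s • curvatureForm Θ = (sysLin (KTheta Θ)).map (evf s) := by
  ext a b : 1
  unfold sysLin KTheta
  simp only [Matrix.smul_apply, Matrix.of_apply, Matrix.map_apply, evf_lin]
  rfl

theorem chernInt_eq {d r : ℕ} (Θ : Fin d → Fin d → Matrix (Fin r) (Fin r) ℂ) (m : ℤ) :
    chernInt Θ m = evf (Complex.I / (2 * (Real.pi : ℂ))) (eZ (sysLin (KTheta Θ)) m) := by
  unfold chernInt eZ
  by_cases h0 : 0 ≤ m
  · by_cases hr : m ≤ r
    · rw [if_pos ⟨h0, hr⟩, if_pos h0]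
      have h1 := map_ee (evf (d := d) (Complex.I / (2 * (Real.pi : ℂ)))).toRingHom
        (sysLin (KTheta Θ)) m.toNat
      change evf _ _ = _ at h1
      rw [h1]
      have h2 := curvatureForm_eq Θ (Complex.I / (2 * (Real.pi : ℂ)))
      unfold chernForm
      rw [h2]
      rfl
    · rw [if_neg (fun h => hr h.2), if_pos h0, ee_eq_zero, map_zero]
      rw [Fintype.card_fin]
      omega
  · rw [if_neg (fun h => h0 h.1), if_neg h0, map_zero]

theorem schurForm_eq {d r k : ℕ} (Θ : Fin d → Fin d → Matrix (Fin r) (Fin r) ℂ)
    (σ : Fin k → ℕ) : schurForm Θ σ =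
      toForms d (evf (Complex.I / (2 * (Real.pi : ℂ))) (sdet (eZ (sysLin (KTheta Θ))) σ)) := by
  unfold schurForm
  have h := map_sdet (evf (d := d) (Complex.I / (2 * (Real.pi : ℂ)))).toRingHom
    (eZ (sysLin (KTheta Θ))) σ
  change evf _ _ = _ at h
  rw [h]
  congr 2
  funext n
  exact chernInt_eq Θ n

theorem subL_sysLin {ι : Type*} {d k : ℕ} (L : Matrix (Fin d) (Fin k) ℂ)
    (K : ι → ι → Matrix (Fin d) (Fin d) ℂ) :
    (sysLin K).map (subL L) = sysLin (fun a b => Lᵀ * K a b * L.map star) := by
  ext a b : 1
  simp only [sysLin, Matrix.map_apply, Matrix.of_apply, subL_lin]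

theorem pullback_schurForm {d r k : ℕ} (Θ : Fin d → Fin d → Matrix (Fin r) (Fin r) ℂ)
    (σ : Fin k → ℕ) (hσ : ∑ i, σ i = k) (L : Matrix (Fin d) (Fin k) ℂ) :
    pullback L (schurForm Θ σ) =
      ((((Real.pi : ℂ))⁻¹ ^ k) * topCoeff k
        (sdet (eZ (sysLin (fun a b => Lᵀ * KTheta Θ a b * L.map star))) σ)) • vol k := by
  rw [schurForm_eq, pullback_evf]
  have h := map_sdet (subL L).toRingHom (eZ (sysLin (KTheta Θ))) σ
  change subL L _ = _ at h
  rw [h]
  have h2 : (fun n => (subL L).toRingHom (eZ (sysLin (KTheta Θ)) n)) =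
      eZ (sysLin (fun a b => Lᵀ * KTheta Θ a b * L.map star)) := by
    funext n
    rw [map_eZ, ← subL_sysLin]
    rfl
  rw [h2, evf_top _ (sdet_homogeneous _ σ hσ), map_smul]
  have h3 : (Complex.I / (2 * (Real.pi : ℂ))) ^ k • ∏ i : Fin k, (dzdz i i : CForms k) =
      ((Real.pi : ℂ)⁻¹ ^ k) • ∏ p : Fin k, (Complex.I / 2) • (dzdz p p : CForms k) := by
    rw [Finset.prod_smul, Finset.prod_const, Finset.card_univ, Fintype.card_fin, smul_smul,
      ← mul_pow]
    congr 2
    field_simp
  rw [h3, map_smul, smul_smul, mul_comm]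
  rfl

theorem schur_positive {d r k : ℕ} (Θ : Fin d → Fin d → Matrix (Fin r) (Fin r) ℂ)
    (H : Matrix (Fin r) (Fin r) ℂ) (hH : H.PosDef)
    (hG : ∀ (τ : Fin d → ℂ) (v : Fin r → ℂ),
      0 ≤ ∑ j, ∑ k, τ j * star (τ k) * (∑ a, ∑ b, ∑ c, v a * Θ j k a b * H b c * star (v c)))
    (σ : Fin k → ℕ) (hσ : ∑ i, σ i = k)
    (hcov : ∀ K : Fin r → Fin r → Matrix (Fin k) (Fin k) ℂ, GPos K →
      0 ≤ topCoeff k (sdet (eZ (sysLin K)) σ)) (L : Matrix (Fin d) (Fin k) ℂ) :
    ∃ c : ℝ, 0 ≤ c ∧ pullback L (schurForm Θ σ) = (c : ℂ) • vol k := by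
  obtain ⟨Q, hQ, hQH⟩ := exists_whiten hH
  let K : Fin r → Fin r → Matrix (Fin k) (Fin k) ℂ := fun a b => Lᵀ * KTheta Θ a b * L.map star
  have hK : GPos (gauge K Qᴴ (H * Q)) := by
    intro v
    rw [frm_gauge]
    apply psd_of_nonneg
    intro x
    set q := Q *ᵥ v with hq
    have h1 := hG (fun j => ∑ p, L j p * star (x p)) (fun c => star (q c))
    have h2 : ∑ p, ∑ p', star (x p) * x p' *
        (∑ c, ∑ d, (star (q c) * (H *ᵥ q) d) • K c d) p p' =
        ∑ j, ∑ l, (∑ p, L j p * star (x p)) * star (∑ p, L l p * star (x p)) *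
        (∑ a, ∑ b, ∑ c, star (q a) * Θ j l a b * H b c * star (star (q c))) := by
      have e1 : ∀ j l, (∑ a, ∑ b, ∑ c, star (q a) * Θ j l a b * H b c * star (star (q c))) =
          ∑ a, ∑ b, star (q a) * (H *ᵥ q) b * Θ j l a b := by
        intro j l
        apply Finset.sum_congr rfl
        intro a _
        apply Finset.sum_congr rfl
        intro b _
        have : (H *ᵥ q) b = ∑ c, H b c * q c := rfl
        rw [this, Finset.mul_sum, Finset.sum_mul]
        apply Finset.sum_congr rfl
        intro c _
        rw [star_star]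
        ring
      have e2 : ∀ p p', (∑ c, ∑ d, (star (q c) * (H *ᵥ q) d) • K c d) p p' =
          ∑ j, ∑ l, L j p * star (L l p') * (∑ a, ∑ b, star (q a) * (H *ᵥ q) b * Θ j l a b) := by
        intro p p'
        have e3 : ∀ c d, (K c d) p p' = ∑ j, ∑ l, L j p * star (L l p') * Θ j l c d := by
          intro c d
          simp only [K, KTheta, Matrix.mul_apply, Matrix.transpose_apply, Matrix.of_apply,
            Matrix.map_apply, Finset.sum_mul]
          rw [Finset.sum_comm]
          apply Finset.sum_congr rfl
          intro j _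
          apply Finset.sum_congr rfl
          intro l _
          ring
        simp only [Matrix.sum_apply, Matrix.smul_apply, smul_eq_mul, e3, Finset.mul_sum]
        calc ∑ a, ∑ b, ∑ j, ∑ l, star (q a) * (H *ᵥ q) b * (L j p * star (L l p') * Θ j l a b)
            = ∑ a, ∑ j, ∑ b, ∑ l, star (q a) * (H *ᵥ q) b *
                (L j p * star (L l p') * Θ j l a b) := by
              apply Finset.sum_congr rfl
              intro a _
              rw [Finset.sum_comm]
          _ = ∑ j, ∑ a, ∑ b, ∑ l, star (q a) * (H *ᵥ q) b *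
                (L j p * star (L l p') * Θ j l a b) := by rw [Finset.sum_comm]
          _ = ∑ j, ∑ a, ∑ l, ∑ b, star (q a) * (H *ᵥ q) b *
                (L j p * star (L l p') * Θ j l a b) := by
              apply Finset.sum_congr rfl
              intro j _
              apply Finset.sum_congr rfl
              intro a _
              rw [Finset.sum_comm]
          _ = ∑ j, ∑ l, ∑ a, ∑ b, star (q a) * (H *ᵥ q) b *
                (L j p * star (L l p') * Θ j l a b) := by
              apply Finset.sum_congr rfl
              intro j _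
              rw [Finset.sum_comm]
          _ = _ := by
              apply Finset.sum_congr rfl
              intro j _
              apply Finset.sum_congr rfl
              intro l _
              apply Finset.sum_congr rfl
              intro a _
              apply Finset.sum_congr rfl
              intro b _
              ring
      simp only [e1, e2]
      generalize hT : (fun j l => ∑ a, ∑ b, star (q a) * (H *ᵥ q) b * Θ j l a b) = T
      have hT' : ∀ j l, ∑ a, ∑ b, star (q a) * (H *ᵥ q) b * Θ j l a b = T j l := by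
        intro j l
        rw [← hT]
      simp only [hT', Finset.mul_sum]
      calc ∑ p, ∑ p', ∑ j, ∑ l, star (x p) * x p' * (L j p * star (L l p') * T j l)
          = ∑ p, ∑ j, ∑ p', ∑ l, star (x p) * x p' * (L j p * star (L l p') * T j l) := by
            apply Finset.sum_congr rfl
            intro p _
            rw [Finset.sum_comm]
        _ = ∑ j, ∑ p, ∑ p', ∑ l, star (x p) * x p' * (L j p * star (L l p') * T j l) := by
            rw [Finset.sum_comm]
        _ = ∑ j, ∑ p, ∑ l, ∑ p', star (x p) * x p' * (L j p * star (L l p') * T j l) := by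
            apply Finset.sum_congr rfl
            intro j _
            apply Finset.sum_congr rfl
            intro p _
            rw [Finset.sum_comm]
        _ = ∑ j, ∑ l, ∑ p, ∑ p', star (x p) * x p' * (L j p * star (L l p') * T j l) := by
            apply Finset.sum_congr rfl
            intro j _
            rw [Finset.sum_comm]
        _ = _ := by
            apply Finset.sum_congr rfl
            intro j _
            apply Finset.sum_congr rfl
            intro l _
            rw [star_sum, Finset.sum_mul_sum, Finset.sum_mul]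
            apply Finset.sum_congr rfl
            intro p _
            rw [Finset.sum_mul]
            apply Finset.sum_congr rfl
            intro p' _
            rw [star_mul', star_star]
            ring
    rw [h2]
    exact h1
  have h3 := hcov _ hK
  have h4 : eZ (sysLin (gauge K Qᴴ (H * Q))) = eZ (sysLin K) := by
    funext n
    apply eZ_gauge
    rw [← Matrix.mul_assoc]
    exact hQH
  rw [h4] at h3
  have h5 := Complex.nonneg_iff.mp h3
  refine ⟨Real.pi⁻¹ ^ k * (topCoeff k (sdet (eZ (sysLin K)) σ)).re, ?_, ?_⟩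
  · apply mul_nonneg
    · have := Real.pi_pos
      positivity
    · exact h5.1
  · rw [pullback_schurForm Θ σ hσ L]
    congr 1
    have h6 : (((topCoeff k (sdet (eZ (sysLin K)) σ)).re : ℝ) : ℂ) =
        topCoeff k (sdet (eZ (sysLin K)) σ) := by
      apply Complex.ext
      · simp
      · simpa using h5.2
    push_cast
    rw [h6]

end Pool.Agent.MP2e24f1
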