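import Mathlib

/-! One-dimensional complex Gaussian moments and the Gaussian functional on polynomials. -/

namespace Pool.Agent.MP2e24f1

open MvPolynomial MeasureTheory Complex

/-- Integrand of the one-dimensional moments. -/
noncomputable def gint (a b : ℕ) (z : ℂ) : ℂ :=
  z ^ a * (star z) ^ b * (Real.pi⁻¹ * Real.exp (-‖z‖ ^ (2:ℝ)) : ℝ)

theorem integral_norm (n : ℕ) :
    ∫ z : ℂ, ‖z‖ ^ n * Real.exp (-‖z‖ ^ (2:ℝ)) = Real.pi * Real.Gamma (n / 2 + 1) := by
  have h := Complex.integral_rpow_mul_exp_neg_rpow (p := 2) (q := n) (by norm_num)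
    (by have : (0:ℝ) ≤ n := Nat.cast_nonneg n
        linarith)
  simp only [Real.rpow_natCast] at h
  rw [h]
  have : ((n : ℝ) + 2) / 2 = n / 2 + 1 := by ring
  rw [this]
  ring

theorem integrable_norm (n : ℕ) :
    Integrable (fun z : ℂ => ‖z‖ ^ n * Real.exp (-‖z‖ ^ (2:ℝ))) := by
  by_contra h
  have h1 := integral_undef h
  rw [integral_norm] at h1
  have h2 : 0 < Real.Gamma ((n:ℝ) / 2 + 1) := Real.Gamma_pos_of_pos (by positivity)
  have h3 := Real.pi_pos
  have : 0 < Real.pi * Real.Gamma ((n:ℝ) / 2 + 1) := mul_pos h3 h2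
  linarith

theorem continuous_gint (a b : ℕ) : Continuous (gint a b) := by
  unfold gint
  have h : Continuous fun z : ℂ => Real.exp (-‖z‖ ^ (2:ℝ)) := by
    apply Real.continuous_exp.comp
    apply Continuous.neg
    apply Continuous.rpow_const continuous_norm
    intro _
    right
    norm_num
  have h2 : Continuous fun z : ℂ => (Real.pi⁻¹ * Real.exp (-‖z‖ ^ (2:ℝ)) : ℝ) := by fun_prop
  fun_prop

theorem integrable_gint (a b : ℕ) : Integrable (gint a b) := by
  have h := (integrable_norm (a + b)).const_mul Real.pi⁻¹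
  refine h.mono' (continuous_gint a b).aestronglyMeasurable ?_
  refine Filter.Eventually.of_forall fun z => ?_
  unfold gint
  rw [norm_mul, norm_mul, norm_pow, norm_pow, norm_star, Complex.norm_real, Real.norm_eq_abs,
    abs_of_nonneg (by positivity)]
  apply le_of_eq
  rw [pow_add]
  ring

theorem integral_gint_self (a : ℕ) : ∫ z : ℂ, gint a a z = (a.factorial : ℂ) := by
  have h : ∀ z : ℂ, gint a a z =
      ((Real.pi⁻¹ * (‖z‖ ^ (2 * a) * Real.exp (-‖z‖ ^ (2:ℝ))) : ℝ) : ℂ) := by
    intro z
    unfold gint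
    rw [← mul_pow]
    have : z * star z = ((‖z‖ ^ 2 : ℝ) : ℂ) := by
      have := Complex.mul_conj z
      rw [Complex.normSq_eq_norm_sq] at this
      exact this
    rw [this]
    push_cast
    ring
  simp only [h]
  rw [integral_complex_ofReal, integral_const_mul, integral_norm]
  have h1 : (((2 * a : ℕ) : ℝ) / 2 + 1) = (a : ℝ) + 1 := by
    push_cast
    ring
  rw [h1, Real.Gamma_nat_eq_factorial, ← mul_assoc, inv_mul_cancel₀ Real.pi_ne_zero, one_mul]
  simp

theorem integral_gint_ne (a b : ℕ) (hab : a ≠ b) : ∫ z : ℂ, gint a b z = 0 := by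
  have hab' : ((a : ℝ) - b) ≠ 0 := by
    intro h
    apply hab
    have : (a : ℝ) = b := by linarith
    exact_mod_cast this
  let w : Circle := Circle.exp (Real.pi / ((a : ℝ) - b))
  have hmp : MeasurePreserving (rotation w) volume volume := (rotation w).measurePreserving
  have h1 := hmp.integral_comp (rotation w).toHomeomorph.measurableEmbedding (gint a b)
  have h2 : ∀ z : ℂ, gint a b (rotation w z) = - gint a b z := by
    intro z
    unfold gint
    rw [rotation_apply, norm_mul, Circle.norm_coe, one_mul, star_mul', mul_pow, mul_pow]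
    have h3 : ((w : ℂ)) ^ a * (star (w : ℂ)) ^ b = -1 := by
      have e1 : (w : ℂ) = Complex.exp ((Real.pi / ((a : ℝ) - b) : ℝ) * I) := Circle.coe_exp _
      have e2 : star (w : ℂ) = Complex.exp (-((Real.pi / ((a : ℝ) - b) : ℝ) * I)) := by
        rw [e1]
        change (starRingEnd ℂ) _ = _
        rw [← Complex.exp_conj]
        congr 1
        rw [map_mul, Complex.conj_ofReal, Complex.conj_I]
        ring
      rw [e2, e1, ← Complex.exp_nat_mul, ← Complex.exp_nat_mul, ← Complex.exp_add,
        ← Complex.exp_pi_mul_I]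
      congr 1
      have hne : ((a : ℂ) - b) ≠ 0 := by
        have : (((a : ℝ) - b : ℝ) : ℂ) ≠ 0 := by exact_mod_cast hab'
        simpa using this
      push_cast
      field_simp
      ring
    calc (w : ℂ) ^ a * z ^ a * (star (w : ℂ) ^ b * star z ^ b) *
          ((Real.pi⁻¹ * Real.exp (-‖z‖ ^ (2:ℝ)) : ℝ) : ℂ)
        = ((w : ℂ) ^ a * star (w : ℂ) ^ b) * (z ^ a * star z ^ b *
          ((Real.pi⁻¹ * Real.exp (-‖z‖ ^ (2:ℝ)) : ℝ) : ℂ)) := by ring
      _ = _ := by rw [h3]; ring
  simp only [h2] at h1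
  rw [integral_neg] at h1
  exact self_eq_neg.mp h1.symm

theorem integral_gint (a b : ℕ) : ∫ z : ℂ, gint a b z = if a = b then (a.factorial : ℂ) else 0 := by
  by_cases h : a = b
  · subst h
    rw [if_pos rfl, integral_gint_self]
  · rw [if_neg h, integral_gint_ne a b h]

end Pool.Agent.MP2e24f1
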