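import Pool.Agent.Lib.MP_2e24f1_ag.Gauss

/-! The Gaussian functional on polynomials in `u, ū`. -/

namespace Pool.Agent.MP2e24f1

open MvPolynomial MeasureTheory Complex

variable {ι : Type*} [Fintype ι] [DecidableEq ι] {R : Type*} [CommRing R]

/-- One-variable moment. -/
def gf (a b : ℕ) : ℕ := if a = b then a.factorial else 0

omit [Fintype ι] [DecidableEq ι] in
theorem gf_succ_right (a b : ℕ) : gf a (1 + b) = a * gf (a - 1) b := by
  unfold gf
  rcases a with _ | n
  · rw [if_neg (by omega)]
    simp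
  · simp only [Nat.add_sub_cancel]
    by_cases h2 : n = b
    · rw [if_pos (by omega), if_pos h2, Nat.factorial_succ]
    · rw [if_neg (by omega), if_neg h2]
      simp

omit [Fintype ι] [DecidableEq ι] in
theorem gf_succ_left (a b : ℕ) : gf (1 + a) b = b * gf a (b - 1) := by
  unfold gf
  rcases b with _ | n
  · rw [if_neg (by omega)]
    simp
  · simp only [Nat.add_sub_cancel]
    by_cases h2 : a = n
    · rw [if_pos (by omega), if_pos h2, h2, Nat.add_comm 1 n, Nat.factorial_succ]
    · rw [if_neg (by omega), if_neg h2]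
      simp

/-- Gaussian moment of a monomial. -/
def gw (α : (ι ⊕ ι) →₀ ℕ) : ℕ := ∏ i, gf (α (Sum.inl i)) (α (Sum.inr i))

/-- The Gaussian functional. -/
noncomputable def gL (ι : Type*) [Fintype ι] [DecidableEq ι] (R : Type*) [CommRing R] :
    MvPolynomial (ι ⊕ ι) R →ₗ[R] R :=
  (basisMonomials (ι ⊕ ι) R).constr R (fun α => ((gw α : ℕ) : R))

theorem gL_monomial (α : (ι ⊕ ι) →₀ ℕ) (c : R) :
    gL ι R (monomial α c) = c * ((gw α : ℕ) : R) := by
  have h : (monomial α c : MvPolynomial (ι ⊕ ι) R) = c • monomial α (1 : R) := by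
    rw [smul_monomial, smul_eq_mul, mul_one]
  rw [h, map_smul, smul_eq_mul]
  congr 1
  have := (basisMonomials (ι ⊕ ι) R).constr_basis R (fun α => ((gw α : ℕ) : R)) α
  rwa [coe_basisMonomials] at this

theorem gL_C (c : R) : gL ι R (C c) = c := by
  have : (C c : MvPolynomial (ι ⊕ ι) R) = monomial 0 c := rfl
  rw [this, gL_monomial]
  simp [gw, gf]

theorem gL_C_mul (c : R) (p : MvPolynomial (ι ⊕ ι) R) : gL ι R (C c * p) = c * gL ι R p := by
  rw [← smul_eq_C_mul, map_smul, smul_eq_mul]

theorem prod_step (g g' : ι → ℕ) (i : ι) (c : ℕ) (h1 : g i = c * g' i)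
    (h2 : ∀ j, j ≠ i → g j = g' j) : ∏ j, g j = c * ∏ j, g' j := by
  rw [← Finset.mul_prod_erase Finset.univ g (Finset.mem_univ i),
    ← Finset.mul_prod_erase Finset.univ g' (Finset.mem_univ i), ← mul_assoc, h1]
  congr 1
  apply Finset.prod_congr rfl
  intro j hj
  exact h2 j (Finset.ne_of_mem_erase hj)

theorem gw_add_inr (α : (ι ⊕ ι) →₀ ℕ) (i : ι) :
    gw (Finsupp.single (Sum.inr i) 1 + α) =
      α (Sum.inl i) * gw (α - Finsupp.single (Sum.inl i) 1) := by
  unfold gw
  apply prod_step _ _ i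
  · simp only [Finsupp.add_apply, Finsupp.tsub_apply]
    rw [Finsupp.single_eq_of_ne (by simp), Finsupp.single_eq_same, Finsupp.single_eq_same,
      Finsupp.single_eq_of_ne (by simp), zero_add, gf_succ_right]
    simp
  · intro j hji
    simp only [Finsupp.add_apply, Finsupp.tsub_apply]
    rw [Finsupp.single_eq_of_ne (by simp), Finsupp.single_eq_of_ne (by simp [hji]),
      Finsupp.single_eq_of_ne (by simp [hji]), Finsupp.single_eq_of_ne (by simp)]
    simp

theorem gw_add_inl (α : (ι ⊕ ι) →₀ ℕ) (i : ι) :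
    gw (Finsupp.single (Sum.inl i) 1 + α) =
      α (Sum.inr i) * gw (α - Finsupp.single (Sum.inr i) 1) := by
  unfold gw
  apply prod_step _ _ i
  · simp only [Finsupp.add_apply, Finsupp.tsub_apply]
    rw [Finsupp.single_eq_same, Finsupp.single_eq_of_ne (by simp), Finsupp.single_eq_of_ne (by simp),
      Finsupp.single_eq_same, zero_add, gf_succ_left]
    simp
  · intro j hji
    simp only [Finsupp.add_apply, Finsupp.tsub_apply]
    rw [Finsupp.single_eq_of_ne (by simp [hji]), Finsupp.single_eq_of_ne (by simp),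
      Finsupp.single_eq_of_ne (by simp), Finsupp.single_eq_of_ne (by simp [hji])]
    simp

/-- Integration by parts. -/
theorem gL_inr_mul (i : ι) (p : MvPolynomial (ι ⊕ ι) R) :
    gL ι R (X (Sum.inr i) * p) = gL ι R (pderiv (Sum.inl i) p) := by
  induction p using MvPolynomial.induction_on' with
  | monomial α c =>
    rw [pderiv_monomial, gL_monomial, X, monomial_mul, one_mul, gL_monomial, gw_add_inr]
    push_cast
    ring
  | add p q hp hq =>
    rw [mul_add, map_add, hp, hq, map_add, map_add]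

theorem gL_inl_mul (i : ι) (p : MvPolynomial (ι ⊕ ι) R) :
    gL ι R (X (Sum.inl i) * p) = gL ι R (pderiv (Sum.inr i) p) := by
  induction p using MvPolynomial.induction_on' with
  | monomial α c =>
    rw [pderiv_monomial, gL_monomial, X, monomial_mul, one_mul, gL_monomial, gw_add_inl]
    push_cast
    ring
  | add p q hp hq =>
    rw [mul_add, map_add, hp, hq, map_add, map_add]

section integral

variable [Algebra ℂ R]

/-- Evaluation at `(u, ū)`. -/
noncomputable def evu (R : Type*) [CommRing R] [Algebra ℂ R] (u : ι → ℂ) :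
    MvPolynomial (ι ⊕ ι) R →ₐ[R] R :=
  aeval (Sum.elim (fun i => algebraMap ℂ R (u i)) (fun i => algebraMap ℂ R (star (u i))))

theorem evu_inl (u : ι → ℂ) (i : ι) : evu R u (X (Sum.inl i)) = algebraMap ℂ R (u i) := by
  simp [evu]

theorem evu_inr (u : ι → ℂ) (i : ι) : evu R u (X (Sum.inr i)) = algebraMap ℂ R (star (u i)) := by
  simp [evu]

theorem evu_C (u : ι → ℂ) (c : R) : evu R u (C c) = c := by
  simp [evu]

/-- The Gaussian weight. -/
noncomputable def gweight (u : ι → ℂ) : ℝ := ∏ i, (Real.pi⁻¹ * Real.exp (-‖u i‖ ^ (2:ℝ)))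

theorem gweight_nonneg (u : ι → ℂ) : 0 ≤ gweight u := by
  unfold gweight
  have := Real.pi_pos
  positivity

theorem prod_sum_type_pow (f : ι ⊕ ι → ℂ) (α : (ι ⊕ ι) →₀ ℕ) :
    (α.prod fun j n => f j ^ n) =
      ∏ i, (f (Sum.inl i) ^ α (Sum.inl i) * f (Sum.inr i) ^ α (Sum.inr i)) := by
  rw [Finsupp.prod_fintype _ _ (by simp), Fintype.prod_sum_type, Finset.prod_mul_distrib]

theorem evu_monomial (u : ι → ℂ) (α : (ι ⊕ ι) →₀ ℕ) (c : R) :
    evu R u (monomial α c) =
      (∏ i, (u i ^ α (Sum.inl i) * star (u i) ^ α (Sum.inr i))) • c := by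
  unfold evu
  rw [aeval_monomial, Algebra.smul_def, mul_comm]
  congr 1
  have h := prod_sum_type_pow (Sum.elim (fun i => u i) (fun i => star (u i))) α
  simp only [Sum.elim_inl, Sum.elim_inr] at h
  rw [← h, map_finsuppProd]
  apply Finset.prod_congr rfl
  intro j _
  rcases j with j | j <;> simp

theorem gL_integral (φ : R →ₗ[ℂ] ℂ) (F : MvPolynomial (ι ⊕ ι) R) :
    Integrable (fun u : ι → ℂ => φ (evu R u F) * (gweight u : ℂ)) ∧
      ∫ u : ι → ℂ, φ (evu R u F) * (gweight u : ℂ) = φ (gL ι R F) := by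
  induction F using MvPolynomial.induction_on' with
  | monomial α c =>
    have h : ∀ u : ι → ℂ, φ (evu R u (monomial α c)) * (gweight u : ℂ) =
        φ c * ∏ i, gint (α (Sum.inl i)) (α (Sum.inr i)) (u i) := by
      intro u
      rw [evu_monomial, map_smul, smul_eq_mul]
      unfold gint gweight
      rw [Finset.prod_mul_distrib (g := fun i => ((Real.pi⁻¹ * Real.exp (-‖u i‖ ^ (2:ℝ)) : ℝ) : ℂ))]
      push_cast
      ring
    simp only [h]
    constructor
    · apply Integrable.const_mul
      exact Integrable.fintype_prod (f := fun i z => gint (α (Sum.inl i)) (α (Sum.inr i)) z)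
        (fun i => integrable_gint _ _)
    · rw [integral_const_mul, integral_fintype_prod_volume_eq_prod, gL_monomial]
      simp only [integral_gint]
      have : c * ((gw α : ℕ) : R) = ((gw α : ℕ) : ℂ) • c := by
        rw [Algebra.smul_def, mul_comm, map_natCast]
      rw [this, map_smul, smul_eq_mul, mul_comm]
      congr 1
      unfold gw gf
      push_cast
      rfl
  | add p q hp hq =>
    have h : ∀ u : ι → ℂ, φ (evu R u (p + q)) * (gweight u : ℂ) =
        φ (evu R u p) * (gweight u : ℂ) + φ (evu R u q) * (gweight u : ℂ) := by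
      intro u
      rw [map_add, map_add, add_mul]
    simp only [h]
    constructor
    · exact hp.1.add hq.1
    · rw [integral_add hp.1 hq.1, hp.2, hq.2, map_add, map_add]

open scoped ComplexOrder in
theorem gL_nonneg (φ : R →ₗ[ℂ] ℂ) (F : MvPolynomial (ι ⊕ ι) R)
    (h : ∀ u : ι → ℂ, 0 ≤ φ (evu R u F)) : 0 ≤ φ (gL ι R F) := by
  rw [← (gL_integral φ F).2]
  apply integral_nonneg
  intro u
  apply mul_nonneg (h u)
  exact_mod_cast gweight_nonneg u

end integral

end Pool.Agent.MP2e24f1
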