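import Mathlib

/-! A sum of independent Bernoulli variables with integer mean `m` takes the value `m` at least as
often as the value `m + 1`. -/

namespace Pool.Agent.MP2e24f1

open Polynomial

variable {ι : Type*} [Fintype ι] [DecidableEq ι]

/-- Factor of the generating polynomial. -/
noncomputable def bf (a : ℝ) : ℝ[X] := X * C a + C (1 - a)

/-- Generating polynomial of a sum of independent Bernoulli variables. -/
noncomputable def pb (p : ι → ℝ) : ℝ[X] := ∏ i, bf (p i)

theorem coeff_bf_mul_zero (a : ℝ) (Q : ℝ[X]) : (bf a * Q).coeff 0 = (1 - a) * Q.coeff 0 := by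
  unfold bf
  rw [add_mul, coeff_add, mul_assoc, coeff_X_mul_zero, zero_add, coeff_C_mul]

theorem coeff_bf_mul_succ (a : ℝ) (Q : ℝ[X]) (j : ℕ) :
    (bf a * Q).coeff (j + 1) = a * Q.coeff j + (1 - a) * Q.coeff (j + 1) := by
  unfold bf
  rw [add_mul, coeff_add, mul_assoc, coeff_X_mul, coeff_C_mul, coeff_C_mul]

theorem continuous_coeff_prod (s : Finset ι) :
    ∀ j : ℕ, Continuous (fun p : ι → ℝ => (∏ i ∈ s, bf (p i)).coeff j) := by
  induction s using Finset.induction_on with
  | empty =>
    intro j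
    simp only [Finset.prod_empty]
    exact continuous_const
  | insert i s hi ih =>
    intro j
    simp only [Finset.prod_insert hi]
    rcases j with _ | j
    · simp only [coeff_bf_mul_zero]
      have := ih 0
      fun_prop
    · simp only [coeff_bf_mul_succ]
      have h1 := ih j
      have h2 := ih (j + 1)
      fun_prop

/-- The functional to be minimised. -/
noncomputable def fm (m : ℕ) (p : ι → ℝ) : ℝ := (pb p).coeff m - (pb p).coeff (m + 1)

theorem continuous_fm (m : ℕ) : Continuous (fm (ι := ι) m) := by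
  unfold fm pb
  exact (continuous_coeff_prod Finset.univ m).sub (continuous_coeff_prod Finset.univ (m + 1))

/-- Replace two entries. -/
noncomputable def rep (p : ι → ℝ) (i j : ι) (a b : ℝ) : ι → ℝ :=
  fun l => if l = i then a else if l = j then b else p l

theorem coeff_two (Q : ℝ[X]) (k : ℕ) : ∃ A B E : ℝ, ∀ a b : ℝ,
    (bf a * (bf b * Q)).coeff k = A * (a + b) + B * (a * b) + E := by
  rcases k with _ | _ | k
  · refine ⟨-Q.coeff 0, Q.coeff 0, Q.coeff 0, ?_⟩
    intro a b
    rw [coeff_bf_mul_zero, coeff_bf_mul_zero]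
    ring
  · refine ⟨Q.coeff 0 - Q.coeff 1, Q.coeff 1 - 2 * Q.coeff 0, Q.coeff 1, ?_⟩
    intro a b
    rw [coeff_bf_mul_succ, coeff_bf_mul_zero, coeff_bf_mul_succ]
    ring
  · refine ⟨Q.coeff (k + 1) - Q.coeff (k + 2), Q.coeff k - 2 * Q.coeff (k + 1) + Q.coeff (k + 2),
      Q.coeff (k + 2), ?_⟩
    intro a b
    rw [coeff_bf_mul_succ, coeff_bf_mul_succ, coeff_bf_mul_succ]
    ring

theorem pb_rep (p : ι → ℝ) {i j : ι} (hij : i ≠ j) (a b : ℝ) :
    pb (rep p i j a b) = bf a * (bf b * ∏ l ∈ (Finset.univ.erase i).erase j, bf (p l)) := by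
  unfold pb
  rw [← Finset.mul_prod_erase Finset.univ _ (Finset.mem_univ i)]
  have hj : j ∈ Finset.univ.erase i := Finset.mem_erase.mpr ⟨hij.symm, Finset.mem_univ j⟩
  rw [← Finset.mul_prod_erase _ _ hj]
  congr 1
  · simp [rep]
  · congr 1
    · simp [rep, hij.symm]
    · apply Finset.prod_congr rfl
      intro l hl
      have h1 : l ≠ j := Finset.ne_of_mem_erase hl
      have h2 : l ≠ i := Finset.ne_of_mem_erase (Finset.mem_of_mem_erase hl)
      simp [rep, h1, h2]

theorem rep_self (p : ι → ℝ) (i j : ι) : rep p i j (p i) (p j) = p := by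
  funext l
  unfold rep
  split_ifs with h1 h2
  · rw [h1]
  · rw [h2]
  · rfl

theorem fm_rep (m : ℕ) (p : ι → ℝ) {i j : ι} (hij : i ≠ j) : ∃ A B E : ℝ, ∀ a b : ℝ,
    fm m (rep p i j a b) = A * (a + b) + B * (a * b) + E := by
  obtain ⟨A1, B1, E1, h1⟩ := coeff_two (∏ l ∈ (Finset.univ.erase i).erase j, bf (p l)) m
  obtain ⟨A2, B2, E2, h2⟩ := coeff_two (∏ l ∈ (Finset.univ.erase i).erase j, bf (p l)) (m + 1)
  refine ⟨A1 - A2, B1 - B2, E1 - E2, ?_⟩
  intro a b
  unfold fm
  rw [pb_rep p hij, h1, h2]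
  ring

theorem sum_rep (φ : ℝ → ℝ) (p : ι → ℝ) {i j : ι} (hij : i ≠ j) (a b : ℝ) :
    ∑ l, φ (rep p i j a b l) = φ a + (φ b + ∑ l ∈ (Finset.univ.erase i).erase j, φ (p l)) := by
  rw [← Finset.add_sum_erase Finset.univ _ (Finset.mem_univ i)]
  have hj : j ∈ Finset.univ.erase i := Finset.mem_erase.mpr ⟨hij.symm, Finset.mem_univ j⟩
  rw [← Finset.add_sum_erase _ _ hj]
  congr 1
  · simp [rep]
  · congr 1
    · simp [rep, hij.symm]
    · apply Finset.sum_congr rfl
      intro l hl
      have h1 : l ≠ j := Finset.ne_of_mem_erase hl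
      have h2 : l ≠ i := Finset.ne_of_mem_erase (Finset.mem_of_mem_erase hl)
      simp [rep, h1, h2]

/-- The domain. -/
def dom (ι : Type*) [Fintype ι] (m : ℕ) : Set (ι → ℝ) :=
  {p | (∀ i, 0 ≤ p i ∧ p i ≤ 1) ∧ ∑ i, p i = m}

omit [DecidableEq ι] in
theorem isCompact_dom (m : ℕ) : IsCompact (dom ι m) := by
  have h1 : IsCompact (Set.Icc (0 : ι → ℝ) 1) := isCompact_Icc
  apply h1.of_isClosed_subset
  · have : dom ι m = (⋂ i, {p : ι → ℝ | 0 ≤ p i ∧ p i ≤ 1}) ∩ {p : ι → ℝ | ∑ i, p i = m} := by
      ext p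
      simp [dom]
    rw [this]
    apply IsClosed.inter
    · apply isClosed_iInter
      intro i
      exact (isClosed_le continuous_const (continuous_apply i)).inter
        (isClosed_le (continuous_apply i) continuous_const)
    · apply isClosed_eq _ continuous_const
      fun_prop
  · intro p hp
    exact ⟨fun i => (hp.1 i).1, fun i => (hp.1 i).2⟩

theorem exists_good (m : ℕ) (p : ι → ℝ) (hp : p ∈ dom ι m) :
    ∃ q ∈ dom ι m, fm m q ≤ fm m p ∧
      ∀ i j, i ≠ j → 0 < q i → q i < 1 → 0 < q j → q j < 1 → q i = q j := by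
  obtain ⟨p0, hp0, hmin⟩ := (isCompact_dom (ι := ι) m).exists_isMinOn ⟨p, hp⟩
    (continuous_fm m).continuousOn
  have hK : IsCompact (dom ι m ∩ {q | fm m q = fm m p0}) :=
    (isCompact_dom m).inter_right (isClosed_eq (continuous_fm m) continuous_const)
  have hg : Continuous (fun q : ι → ℝ => ∑ i, (q i) ^ 2) := by fun_prop
  obtain ⟨q, hq, hqmin⟩ := hK.exists_isMinOn ⟨p0, hp0, rfl⟩ hg.continuousOn
  refine ⟨q, hq.1, ?_, ?_⟩
  · rw [hq.2]
    exact hmin hp
  · intro i j hij hi0 hi1 hj0 hj1
    by_contra hne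
    obtain ⟨A, B, E, hABE⟩ := fm_rep m q hij
    have hval : ∀ a b : ℝ, 0 ≤ a → a ≤ 1 → 0 ≤ b → b ≤ 1 → a + b = q i + q j →
        rep q i j a b ∈ dom ι m := by
      intro a b ha0 ha1 hb0 hb1 hab
      refine ⟨?_, ?_⟩
      · intro l
        unfold rep
        split_ifs
        · exact ⟨ha0, ha1⟩
        · exact ⟨hb0, hb1⟩
        · exact hq.1.1 l
      · have h1 := sum_rep (fun x => x) q hij a b
        have h2 := sum_rep (fun x => x) q hij (q i) (q j)
        rw [rep_self] at h2
        have h3 := hq.1.2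
        rw [h1]
        linarith
    have hfq : fm m q = A * (q i + q j) + B * (q i * q j) + E := by
      rw [← hABE, rep_self]
    have hge : ∀ a b : ℝ, 0 ≤ a → a ≤ 1 → 0 ≤ b → b ≤ 1 → a + b = q i + q j →
        0 ≤ B * (a * b - q i * q j) := by
      intro a b ha0 ha1 hb0 hb1 hab
      have h1 := hmin (hval a b ha0 ha1 hb0 hb1 hab)
      simp only [Set.mem_ofPred_eq] at h1
      rw [hABE, ← hq.2, hfq, hab] at h1
      linarith
    have hsq : 0 < (q i - q j) ^ 2 := by
      have : q i - q j ≠ 0 := sub_ne_zero.mpr hne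
      positivity
    have hB1 : 0 ≤ B := by
      have h1 := hge ((q i + q j) / 2) ((q i + q j) / 2) (by linarith) (by linarith) (by linarith)
        (by linarith) (by ring)
      have h2 : (q i + q j) / 2 * ((q i + q j) / 2) - q i * q j = (q i - q j) ^ 2 / 4 := by ring
      rw [h2] at h1
      by_contra hB
      have hB' : B < 0 := not_le.mp hB
      nlinarith
    have hB2 : B ≤ 0 := by
      rcases lt_or_gt_of_ne hne with hlt | hgt
      · let ε := min (q i) (1 - q j)
        have hε : 0 < ε := lt_min hi0 (by linarith)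
        have hε1 : ε ≤ q i := min_le_left _ _
        have hε2 : ε ≤ 1 - q j := min_le_right _ _
        have h1 := hge (q i - ε) (q j + ε) (by linarith) (by linarith) (by linarith)
          (by linarith) (by ring)
        have h2 : (q i - ε) * (q j + ε) - q i * q j = - (ε * (q j - q i) + ε * ε) := by ring
        rw [h2] at h1
        have h3 : 0 < ε * (q j - q i) + ε * ε := by
          have : 0 < q j - q i := by linarith
          positivity
        by_contra hB
        have hB' : 0 < B := not_le.mp hB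
        nlinarith
      · let ε := min (q j) (1 - q i)
        have hε : 0 < ε := lt_min hj0 (by linarith)
        have hε1 : ε ≤ q j := min_le_left _ _
        have hε2 : ε ≤ 1 - q i := min_le_right _ _
        have h1 := hge (q i + ε) (q j - ε) (by linarith) (by linarith) (by linarith)
          (by linarith) (by ring)
        have h2 : (q i + ε) * (q j - ε) - q i * q j = - (ε * (q i - q j) + ε * ε) := by ring
        rw [h2] at h1
        have h3 : 0 < ε * (q i - q j) + ε * ε := by
          have : 0 < q i - q j := by linarith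
          positivity
        by_contra hB
        have hB' : 0 < B := not_le.mp hB
        nlinarith
    have hB : B = 0 := le_antisymm hB2 hB1
    have hmem : rep q i j ((q i + q j) / 2) ((q i + q j) / 2) ∈
        dom ι m ∩ {q | fm m q = fm m p0} := by
      refine ⟨hval _ _ (by linarith) (by linarith) (by linarith) (by linarith) (by ring), ?_⟩
      simp only [Set.mem_ofPred_eq]
      rw [hABE, ← hq.2, hfq, hB]
      ring
    have h1 := hqmin hmem
    simp only [Set.mem_ofPred_eq] at h1
    have h2 := sum_rep (fun x => x ^ 2) q hij ((q i + q j) / 2) ((q i + q j) / 2)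
    have h3 := sum_rep (fun x => x ^ 2) q hij (q i) (q j)
    rw [rep_self] at h3
    rw [h2, h3] at h1
    nlinarith

theorem coeff_bf_pow (q : ℝ) (n l : ℕ) :
    (bf q ^ n).coeff l = if l ≤ n then q ^ l * (1 - q) ^ (n - l) * (n.choose l : ℝ) else 0 := by
  unfold bf
  rw [add_pow, finsetSum_coeff]
  have h : ∀ k, ((X * C q) ^ k * C (1 - q) ^ (n - k) * ((n.choose k : ℕ) : ℝ[X])).coeff l =
      if l = k then q ^ k * (1 - q) ^ (n - k) * (n.choose k : ℝ) else 0 := by
    intro k
    have : (X * C q) ^ k * C (1 - q) ^ (n - k) * ((n.choose k : ℕ) : ℝ[X]) =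
        C (q ^ k * (1 - q) ^ (n - k) * (n.choose k : ℝ)) * X ^ k := by
      simp only [map_mul, map_pow, map_natCast]
      ring
    rw [this, coeff_C_mul, coeff_X_pow]
    split_ifs <;> simp
  simp only [h]
  rw [Finset.sum_ite_eq]
  simp only [Finset.mem_range]
  by_cases hl : l ≤ n
  · rw [if_pos (by omega), if_pos hl]
  · rw [if_neg (by omega), if_neg hl]

theorem binomial_ineq (q : ℝ) (h0 : 0 ≤ q) (h1 : q ≤ 1) (n l : ℕ) (hl : (n : ℝ) * q = l) :
    (bf q ^ n).coeff (l + 1) ≤ (bf q ^ n).coeff l := by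
  rw [coeff_bf_pow, coeff_bf_pow]
  have hq1 : 0 ≤ 1 - q := by linarith
  by_cases h2 : l + 1 ≤ n
  · rw [if_pos h2, if_pos (by omega)]
    obtain ⟨t, rfl⟩ := Nat.exists_eq_add_of_le h2
    have e1 : l + 1 + t - (l + 1) = t := by omega
    have e2 : l + 1 + t - l = t + 1 := by omega
    rw [e1, e2]
    have hch : (((l + 1 + t).choose (l + 1) : ℕ) : ℝ) * ((l : ℝ) + 1) =
        (((l + 1 + t).choose l : ℕ) : ℝ) * ((t : ℝ) + 1) := by
      have := Nat.choose_succ_right_eq (l + 1 + t) l
      rw [e2] at this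
      exact_mod_cast this
    push_cast at hl
    set c1 : ℝ := (((l + 1 + t).choose (l + 1) : ℕ) : ℝ)
    set c0 : ℝ := (((l + 1 + t).choose l : ℕ) : ℝ)
    have hc0 : 0 ≤ c0 := Nat.cast_nonneg _
    have key : q * c1 ≤ (1 - q) * c0 := by
      have hlp : (0 : ℝ) < (l : ℝ) + 1 := by positivity
      have h3 : q * c1 * ((l : ℝ) + 1) = (1 - q) * c0 * l := by
        have h4 : ((t : ℝ) + 1) * q = l * (1 - q) := by linarith
        calc q * c1 * ((l : ℝ) + 1) = q * (c1 * ((l : ℝ) + 1)) := by ring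
          _ = q * (c0 * ((t : ℝ) + 1)) := by rw [hch]
          _ = c0 * (((t : ℝ) + 1) * q) := by ring
          _ = (1 - q) * c0 * l := by rw [h4]; ring
      have h5 : (1 - q) * c0 * l ≤ (1 - q) * c0 * ((l : ℝ) + 1) := by
        have : 0 ≤ (1 - q) * c0 := mul_nonneg hq1 hc0
        nlinarith
      rw [← h3] at h5
      exact le_of_mul_le_mul_right h5 hlp
    have h6 : 0 ≤ q ^ l * (1 - q) ^ t := mul_nonneg (pow_nonneg h0 _) (pow_nonneg hq1 _)
    calc q ^ (l + 1) * (1 - q) ^ t * c1 = (q ^ l * (1 - q) ^ t) * (q * c1) := by ring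
      _ ≤ (q ^ l * (1 - q) ^ t) * ((1 - q) * c0) := mul_le_mul_of_nonneg_left key h6
      _ = _ := by ring
  · rw [if_neg h2]
    split_ifs
    · positivity
    · exact le_rfl

theorem pb_three (p : ι → ℝ) (q : ℝ) (h : ∀ i, p i = 0 ∨ p i = 1 ∨ p i = q) :
    ∃ b n : ℕ, pb p = X ^ b * bf q ^ n ∧ ∑ i, p i = b + n * q := by
  have h2 : ∀ s : Finset ι, ∃ b n : ℕ, ∏ i ∈ s, bf (p i) = X ^ b * bf q ^ n ∧
      ∑ i ∈ s, p i = b + n * q := by
    intro s
    induction s using Finset.induction_on with
    | empty => exact ⟨0, 0, by simp, by simp⟩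
    | insert i s hi ih =>
      obtain ⟨b, n, h1, h2⟩ := ih
      rw [Finset.prod_insert hi, Finset.sum_insert hi, h1, h2]
      rcases h i with h3 | h3 | h3
      · refine ⟨b, n, ?_, ?_⟩
        · rw [h3]
          simp [bf]
        · rw [h3]
          ring
      · refine ⟨b + 1, n, ?_, ?_⟩
        · rw [h3]
          simp only [bf, C_1, sub_self, C_0, mul_one, add_zero]
          ring
        · rw [h3]
          push_cast
          ring
      · refine ⟨b, n + 1, ?_, ?_⟩
        · rw [h3]
          ring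
        · rw [h3]
          push_cast
          ring
  exact h2 Finset.univ

/-- Main inequality. -/
theorem poisson_binomial (m : ℕ) (p : ι → ℝ) (h0 : ∀ i, 0 ≤ p i) (h1 : ∀ i, p i ≤ 1)
    (hm : ∑ i, p i = m) : (pb p).coeff (m + 1) ≤ (pb p).coeff m := by
  obtain ⟨q, hq, hle, heq⟩ := exists_good m p ⟨fun i => ⟨h0 i, h1 i⟩, hm⟩
  have hmain : 0 ≤ fm m q := by
    have hex : ∃ t : ℝ, 0 ≤ t ∧ t ≤ 1 ∧ ∀ i, q i = 0 ∨ q i = 1 ∨ q i = t := by
      by_cases hint : ∃ i, 0 < q i ∧ q i < 1
      · obtain ⟨i, hi0, hi1⟩ := hint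
        refine ⟨q i, hi0.le, hi1.le, ?_⟩
        intro j
        by_cases hij : i = j
        · right; right; rw [hij]
        · rcases (hq.1 j).1.lt_or_eq with h2 | h2
          · rcases (hq.1 j).2.lt_or_eq with h3 | h3
            · right; right
              exact (heq i j hij hi0 hi1 h2 h3).symm
            · right; left; exact h3
          · left; exact h2.symm
      · refine ⟨0, le_rfl, zero_le_one, ?_⟩
        intro j
        rcases (hq.1 j).1.lt_or_eq with h2 | h2
        · rcases (hq.1 j).2.lt_or_eq with h3 | h3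
          · exact absurd ⟨j, h2, h3⟩ hint
          · right; left; exact h3
        · left; exact h2.symm
    obtain ⟨t, ht0, ht1, ht⟩ := hex
    obtain ⟨b, n, hbn, hsum⟩ := pb_three q t ht
    rw [hq.2] at hsum
    have hnt : 0 ≤ (n : ℝ) * t := mul_nonneg (Nat.cast_nonneg n) ht0
    have hbm : b ≤ m := by
      have : (b : ℝ) ≤ m := by linarith
      exact_mod_cast this
    obtain ⟨l, rfl⟩ := Nat.exists_eq_add_of_le hbm
    have hl : (n : ℝ) * t = l := by
      push_cast at hsum
      linarith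
    have h2 := binomial_ineq t ht0 ht1 n l hl
    unfold fm
    rw [hbn, add_comm b l, coeff_X_pow_mul]
    have e1 : l + b + 1 = l + 1 + b := by ring
    rw [e1, coeff_X_pow_mul]
    linarith
  have := hmain.trans hle
  unfold fm at this
  linarith

end Pool.Agent.MP2e24f1
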