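import Pool.Agent.Lib.MP_2e24f1_ag.Reduce
import Pool.Agent.Lib.MP_2e24f1_ag.Tele2
import Pool.Agent.Lib.MP_2e24f1_ag.Poisson

/-! Positivity of powers of `2 × 2` determinants. -/

namespace Pool.Agent.MP2e24f1

open Matrix
open scoped ComplexOrder

theorem evu_W00 {k : ℕ} (K : Fin 2 → Fin 2 → Matrix (Fin k) (Fin k) ℂ) (u : Fin 2 → ℂ) :
    evu (PolyForms k) u (W00 (sysLin K)) = lin (frm K u) := by
  unfold W00 sesq U0 U1 V0 V1 frm sysLin
  simp only [map_add, map_mul, evu_inl, evu_inr, evu_C, Matrix.of_apply, Fin.sum_univ_two,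
    lin_add, lin_smul, MvPolynomial.smul_eq_C_mul, MvPolynomial.algebraMap_eq]
  ring

theorem evu_W11 {k : ℕ} (K : Fin 2 → Fin 2 → Matrix (Fin k) (Fin k) ℂ) (u : Fin 2 → ℂ) :
    evu (PolyForms k) u (W11 (sysLin K)) = lin (frm K ![-star (u 1), star (u 0)]) := by
  unfold W11 sesq U0 U1 V0 V1 frm sysLin
  simp only [map_add, map_mul, map_neg, evu_inl, evu_inr, evu_C, Matrix.of_apply, Fin.sum_univ_two,
    lin_add, lin_smul, MvPolynomial.smul_eq_C_mul, MvPolynomial.algebraMap_eq,
    Matrix.cons_val_zero, Matrix.cons_val_one, star_neg, star_star]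
  ring

theorem frm_J {k : ℕ} (K : Fin 2 → Fin 2 → Matrix (Fin k) (Fin k) ℂ) (u : Fin 2 → ℂ)
    (hunit : ∑ a, K a a = 1) :
    frm K u + frm K ![-star (u 1), star (u 0)] =
      ((Complex.normSq (u 0) + Complex.normSq (u 1) : ℝ) : ℂ) • 1 := by
  rw [← hunit]
  unfold frm
  have e0 : ((Complex.normSq (u 0) : ℝ) : ℂ) = star (u 0) * u 0 := by
    rw [← Complex.mul_conj, mul_comm]; rfl
  have e1 : ((Complex.normSq (u 1) : ℝ) : ℂ) = star (u 1) * u 1 := by
    rw [← Complex.mul_conj, mul_comm]; rfl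
  simp only [Fin.sum_univ_two, Complex.ofReal_add, e0, e1, Matrix.cons_val_zero,
    Matrix.cons_val_one, star_neg, star_star]
  module

theorem trace_frm_two {k m : ℕ} (hk : k = 2 * m) (K : Fin 2 → Fin 2 → Matrix (Fin k) (Fin k) ℂ)
    (u : Fin 2 → ℂ)
    (htr : ∀ a b, (Fintype.card (Fin 2) : ℂ) * (K a b).trace =
      if a = b then (Fintype.card (Fin k) : ℂ) else 0) :
    (frm K u).trace = ((m * (Complex.normSq (u 0) + Complex.normSq (u 1)) : ℝ) : ℂ) := by
  have e0 : ((Complex.normSq (u 0) : ℝ) : ℂ) = star (u 0) * u 0 := by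
    rw [← Complex.mul_conj, mul_comm]; rfl
  have e1 : ((Complex.normSq (u 1) : ℝ) : ℂ) = star (u 1) * u 1 := by
    rw [← Complex.mul_conj, mul_comm]; rfl
  have htr' : ∀ a b, (K a b).trace = if a = b then (m : ℂ) else 0 := by
    intro a b
    have h := htr a b
    have hkc : (k : ℂ) = 2 * (m : ℂ) := by
      rw [hk]
      push_cast
      ring
    rw [Fintype.card_fin, Fintype.card_fin, hkc] at h
    push_cast at h
    split_ifs at h ⊢ with hab
    · have h2 : (2 : ℂ) * (K a b).trace = 2 * (m : ℂ) := h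
      exact mul_left_cancel₀ two_ne_zero h2
    · exact (mul_eq_zero.mp h).resolve_left two_ne_zero
  unfold frm
  simp only [Fin.sum_univ_two, Matrix.trace_add, Matrix.trace_smul, htr', smul_eq_mul]
  push_cast
  rw [e0, e1]
  simp
  ring

theorem prod_lin_real {k : ℕ} (s : ℝ) (p : Fin k → ℝ) :
    ∏ i, (Polynomial.X * Polynomial.C (((s * p i : ℝ)) : ℂ) +
      Polynomial.C (((s - s * p i : ℝ)) : ℂ)) =
      Polynomial.C (((s ^ k : ℝ)) : ℂ) * (pb p).map Complex.ofRealHom := by
  unfold pb bf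
  rw [Polynomial.map_prod]
  have h : ∀ i, (Polynomial.X * Polynomial.C (((s * p i : ℝ)) : ℂ) +
      Polynomial.C (((s - s * p i : ℝ)) : ℂ)) =
      Polynomial.C ((s : ℝ) : ℂ) * (Polynomial.map Complex.ofRealHom
        (Polynomial.X * Polynomial.C (p i) + Polynomial.C (1 - p i))) := by
    intro i
    simp only [Polynomial.map_add, Polynomial.map_mul, Polynomial.map_X, Polynomial.map_C,
      Complex.ofRealHom_eq_coe, Complex.ofReal_mul, Complex.ofReal_sub, map_mul, map_sub,
      Complex.ofReal_one, map_one, Polynomial.map_sub, Polynomial.map_one]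
    ring
  simp only [h]
  rw [Finset.prod_mul_distrib]
  congr 1
  rw [Finset.prod_const, Finset.card_univ, Fintype.card_fin]
  push_cast
  rw [map_pow]

theorem main2_pointwise {m k : ℕ} (hm : 0 < m) (hk : k = 2 * m)
    {A B : Matrix (Fin k) (Fin k) ℂ} (hA : A.PosSemidef) (hB : B.PosSemidef) (s : ℝ)
    (hAB : A + B = (s : ℂ) • 1) (htr : A.trace = ((m * s : ℝ) : ℂ)) :
    0 ≤ ((m : ℂ) + 1) * topCoeff k (lin A ^ m * lin B ^ m) -
      (m : ℂ) * topCoeff k (lin A ^ (m + 1) * lin B ^ (m - 1)) := by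
  have hG : (((m : ℂ) + 1) • (lin A ^ m * lin B ^ m) -
      (m : ℂ) • (lin A ^ (m + 1) * lin B ^ (m - 1))).IsHomogeneous k := by
    have h1 := ((lin_homogeneous A).pow m).mul ((lin_homogeneous B).pow m)
    have h2 := ((lin_homogeneous A).pow (m + 1)).mul ((lin_homogeneous B).pow (m - 1))
    have e1 : 1 * m + 1 * m = k := by omega
    have e2 : 1 * (m + 1) + 1 * (m - 1) = k := by omega
    rw [e1] at h1
    rw [e2] at h2
    rw [MvPolynomial.smul_eq_C_mul, MvPolynomial.smul_eq_C_mul]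
    have h3 := (MvPolynomial.isHomogeneous_C (Fin k × Fin k) ((m : ℂ) + 1)).mul h1
    have h4 := (MvPolynomial.isHomogeneous_C (Fin k × Fin k) (m : ℂ)).mul h2
    rw [zero_add] at h3 h4
    exact h3.sub h4
  obtain ⟨U, d, hd, hU1, hU2, hAU⟩ := psd_spectral A hA
  have hUdet : U.det ≠ 0 := by
    intro h0
    have := congrArg Matrix.det hU1
    rw [Matrix.det_mul, h0, mul_zero, Matrix.det_one] at this
    exact zero_ne_one this
  have hdA : Uᴴ * A * U = Matrix.diagonal (fun i => (d i : ℂ)) := by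
    rw [hAU, ← Matrix.mul_assoc, ← Matrix.mul_assoc, hU1, Matrix.one_mul, Matrix.mul_assoc,
      hU1, Matrix.mul_one]
  have hdB : Uᴴ * B * U = Matrix.diagonal (fun i => ((s - d i : ℝ) : ℂ)) := by
    have h1 : B = (s : ℂ) • 1 - A := by
      rw [← hAB]
      abel
    rw [h1, Matrix.mul_sub, Matrix.sub_mul, hdA, Matrix.mul_smul, Matrix.mul_one, Matrix.smul_mul,
      hU1]
    ext i j
    by_cases hij : i = j
    · subst hij
      simp
    · simp [hij]
  have hds : ∀ i, d i ≤ s := by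
    intro i
    have h1 := hB.conjTranspose_mul_mul_same U
    rw [hdB, Matrix.posSemidef_diagonal_iff] at h1
    have h2 := h1 i
    have h3 : (0 : ℝ) ≤ s - d i := by exact_mod_cast h2
    linarith
  have hsum : ∑ i, d i = m * s := by
    have h1 : (Uᴴ * A * U).trace = A.trace := by
      rw [Matrix.trace_mul_comm, ← Matrix.mul_assoc, hU2, Matrix.one_mul]
    rw [hdA, htr, Matrix.trace_diagonal] at h1
    exact_mod_cast h1
  have hexpr : ((m : ℂ) + 1) * topCoeff k (lin A ^ m * lin B ^ m) -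
      (m : ℂ) * topCoeff k (lin A ^ (m + 1) * lin B ^ (m - 1)) =
      topCoeff k (((m : ℂ) + 1) • (lin A ^ m * lin B ^ m) -
      (m : ℂ) • (lin A ^ (m + 1) * lin B ^ (m - 1))) := by
    rw [map_sub, map_smul, map_smul, smul_eq_mul, smul_eq_mul]
  rw [hexpr]
  apply topCoeff_nonneg_of_sub hG hUdet
  rw [map_sub, map_smul, map_smul, map_mul, map_mul, map_pow, map_pow, map_pow, map_pow,
    sub_lin, sub_lin, star_conj, star_conj, hdA, hdB, map_sub, map_smul, map_smul,
    topCoeff_mixed _ _ m m (by omega), topCoeff_mixed _ _ (m + 1) (m - 1) (by omega),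
    pencil_diagonal]
  rcases eq_or_ne s 0 with hs | hs
  · have hd0 : ∀ i, d i = 0 := by
      intro i
      have h1 := hd i
      have h2 := hds i
      linarith
    have hk0 : 0 < k := by omega
    have hprod : ∏ i : Fin k, (Polynomial.X * Polynomial.C ((d i : ℝ) : ℂ) +
        Polynomial.C (((s - d i : ℝ)) : ℂ)) = 0 := by
      apply Finset.prod_eq_zero (Finset.mem_univ (⟨0, hk0⟩ : Fin k))
      rw [hd0, hs]
      simp
    rw [hprod]
    simp
  · have hs0 : 0 < s := by
      have hk0 : 0 < k := by omega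
      have h1 := hd ⟨0, hk0⟩
      have h2 := hds ⟨0, hk0⟩
      exact lt_of_le_of_ne (h1.trans h2) hs.symm
    have hp0 : ∀ i, 0 ≤ d i / s := fun i => div_nonneg (hd i) hs0.le
    have hp1 : ∀ i, d i / s ≤ 1 := fun i => (div_le_one hs0).mpr (hds i)
    have hps : ∑ i, d i / s = (m : ℝ) := by
      rw [← Finset.sum_div, hsum]
      field_simp
    have hpb := poisson_binomial m (fun i => d i / s) hp0 hp1 hps
    have hprod : ∏ i : Fin k, (Polynomial.X * Polynomial.C ((d i : ℝ) : ℂ) +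
        Polynomial.C (((s - d i : ℝ)) : ℂ)) =
        Polynomial.C (((s ^ k : ℝ)) : ℂ) * (pb (fun i => d i / s)).map Complex.ofRealHom := by
      rw [← prod_lin_real]
      apply Finset.prod_congr rfl
      intro i _
      have : s * (d i / s) = d i := by field_simp
      rw [this]
    rw [hprod, Polynomial.coeff_C_mul, Polynomial.coeff_C_mul, Polynomial.coeff_map,
      Polynomial.coeff_map]
    obtain ⟨m, rfl⟩ := Nat.exists_eq_succ_of_ne_zero hm.ne'
    simp only [smul_eq_mul, Complex.ofRealHom_eq_coe, Nat.succ_eq_add_one, Nat.add_sub_cancel]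
      at hpb ⊢
    set c1 := (pb (fun i => d i / s)).coeff (m + 1 + 1)
    set c0 := (pb (fun i => d i / s)).coeff (m + 1)
    have hfin : ((m + 1 : ℕ) : ℂ) + 1 = ((m + 1 + 1 : ℕ) : ℂ) := by push_cast; ring
    have hval : (((m + 1 : ℕ) : ℂ) + 1) * (((m + 1).factorial : ℂ) * ((m + 1).factorial : ℂ) *
        (((s ^ k : ℝ) : ℂ) * (c0 : ℂ))) - ((m + 1 : ℕ) : ℂ) *
        (((m + 1 + 1).factorial : ℂ) * (m.factorial : ℂ) * (((s ^ k : ℝ) : ℂ) * (c1 : ℂ))) =
        (((((m + 1 + 1).factorial : ℝ) * ((m + 1).factorial : ℝ)) * s ^ k * (c0 - c1) : ℝ) : ℂ) := by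
      rw [Nat.factorial_succ (m + 1), Nat.factorial_succ m]
      push_cast
      ring
    rw [hval]
    have : 0 ≤ (((m + 1 + 1).factorial : ℝ) * ((m + 1).factorial : ℝ)) * s ^ k * (c0 - c1) := by
      apply mul_nonneg
      · positivity
      · linarith
    exact_mod_cast this

theorem main2_normal {m k : ℕ} (hm : 0 < m) (hk : k = 2 * m)
    {K : Fin 2 → Fin 2 → Matrix (Fin k) (Fin k) ℂ} (hK : Normal K) :
    0 ≤ topCoeff k ((sysLin K).det ^ m) := by
  have h1 := quat_tele (sysLin K) m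
  let F : MvPolynomial (Fin 2 ⊕ Fin 2) (PolyForms k) :=
    MvPolynomial.C ((m : PolyForms k) + 1) * (W00 (sysLin K) ^ m * W11 (sysLin K) ^ m)
      - MvPolynomial.C (m : PolyForms k) *
        (W00 (sysLin K) ^ (m + 1) * W11 (sysLin K) ^ (m - 1))
  have h2 : gL (Fin 2) (PolyForms k) F = ((2 * m + 1).factorial : PolyForms k) *
      (sysLin K).det ^ m := by
    simp only [F]
    rw [map_sub, gL_C_mul, gL_C_mul, h1]
  have h3 := gL_nonneg (topCoeff k) F (fun u => by
    simp only [F]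
    rw [map_sub, map_mul, map_mul, map_mul, map_mul, map_pow, map_pow, map_pow, map_pow,
      evu_W00, evu_W11, evu_C, evu_C, map_sub]
    have e1 : ∀ (n : ℕ) (x : PolyForms k), topCoeff k ((n : PolyForms k) * x) =
        (n : ℂ) * topCoeff k x := by
      intro n x
      rw [← nsmul_eq_mul, map_nsmul, nsmul_eq_mul]
    have e2 : (m : PolyForms k) + 1 = ((m + 1 : ℕ) : PolyForms k) := by push_cast; ring
    rw [e2, e1, e1]
    push_cast
    exact main2_pointwise hm hk (hK.pos u) (hK.pos _) _ (frm_J K u hK.unit)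
      (trace_frm_two hk K u hK.tr))
  rw [h2, ← nsmul_eq_mul, map_nsmul, nsmul_eq_mul] at h3
  apply nonneg_of_mul_pos _ h3
  exact_mod_cast Nat.factorial_pos _

theorem main2 (m k : ℕ) (hk : k = Fintype.card (Fin 2) * m)
    (K : Fin 2 → Fin 2 → Matrix (Fin k) (Fin k) ℂ) (hK : GPos K) :
    0 ≤ topCoeff k ((sysLin K).det ^ m) := by
  rcases Nat.eq_zero_or_pos m with hm | hm
  · subst hm
    rw [mul_zero] at hk
    subst hk
    have h := topCoeff_lin_pow (0 : Matrix (Fin 0) (Fin 0) ℂ)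
    rw [pow_zero] at h ⊢
    rw [h]
    simp
  · have hk' : k = 2 * m := by rwa [Fintype.card_fin] at hk
    have : Nonempty (Fin k) := ⟨⟨0, by omega⟩⟩
    exact gpos_of_normal m hk (fun K hK => main2_normal hm hk' hK) hK

end Pool.Agent.MP2e24f1
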