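import Pool.Agent.Lib.MP_2e24f1_ag.Scaling3

/-! Reduction to normalised systems. -/

namespace Pool.Agent.MP2e24f1

open Matrix
open scoped ComplexOrder

variable {ι : Type*} [Fintype ι] [DecidableEq ι] {k : ℕ}

theorem sysLin_trn (K : ι → ι → Matrix (Fin k) (Fin k) ℂ) (B : Matrix ι ι ℂ) :
    sysLin (trn K B) = B.map (fun x => MvPolynomial.C (star x)) * sysLin K *
      (B.map (fun x => MvPolynomial.C x))ᵀ := by
  ext a b : 1
  unfold sysLin trn
  rw [Matrix.of_apply, lin_sum, Matrix.mul_apply]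
  simp only [lin_sum, lin_smul, Matrix.mul_apply, Matrix.map_apply, Matrix.of_apply,
    Matrix.transpose_apply, Finset.sum_mul]
  rw [Finset.sum_comm]
  apply Finset.sum_congr rfl
  intro d _
  apply Finset.sum_congr rfl
  intro c _
  rw [MvPolynomial.smul_eq_C_mul, map_mul]
  ring

theorem det_sysLin_trn (K : ι → ι → Matrix (Fin k) (Fin k) ℂ) (B : Matrix ι ι ℂ) :
    (sysLin (trn K B)).det = MvPolynomial.C (star B.det * B.det) * (sysLin K).det := by
  rw [sysLin_trn, Matrix.det_mul, Matrix.det_mul, Matrix.det_transpose]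
  have h1 : (B.map (fun x => (MvPolynomial.C x : PolyForms k))).det = MvPolynomial.C B.det := by
    have := (MvPolynomial.C : ℂ →+* PolyForms k).map_det B
    rw [this]
    rfl
  have h2 : (B.map (fun x => (MvPolynomial.C (star x) : PolyForms k))).det =
      MvPolynomial.C (star B.det) := by
    have h3 := ((MvPolynomial.C : ℂ →+* PolyForms k).comp (starRingEnd ℂ)).map_det B
    have h4 : ((MvPolynomial.C : ℂ →+* PolyForms k).comp (starRingEnd ℂ)) B.det =
      MvPolynomial.C (star B.det) := rfl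
    rw [← h4, h3]
    rfl
  rw [h1, h2, map_mul]
  ring

theorem star_mul_self_pos {z : ℂ} (hz : z ≠ 0) : 0 < star z * z := by
  have : star z * z = ((Complex.normSq z : ℝ) : ℂ) := by
    rw [← Complex.mul_conj, mul_comm]
    rfl
  rw [this]
  exact_mod_cast Complex.normSq_pos.mpr hz

theorem pow_pos' {c : ℂ} (hc : 0 < c) (m : ℕ) : 0 < c ^ m := by
  induction m with
  | zero => simp
  | succ m ih =>
    rw [pow_succ]
    exact mul_pos ih hc

theorem strict_of_normal [Nonempty ι] [Nonempty (Fin k)] (m : ℕ) (hk : k = Fintype.card ι * m)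
    (hbase : ∀ K : ι → ι → Matrix (Fin k) (Fin k) ℂ, Normal K →
      0 ≤ topCoeff k ((sysLin K).det ^ m))
    {K : ι → ι → Matrix (Fin k) (Fin k) ℂ} (hK : GPosS K) :
    0 ≤ topCoeff k ((sysLin K).det ^ m) := by
  obtain ⟨B0, Q, hB0, hQ, hN⟩ := normalise hK
  have h1 := hbase _ hN
  rw [← sub_det_sysLin, ← map_pow] at h1
  have hhom : ((sysLin (trn K B0)).det ^ m).IsHomogeneous k := by
    have := (det_sysLin_homogeneous (trn K B0)).pow m
    rwa [← hk] at this
  have h2 := topCoeff_nonneg_of_sub hhom hQ h1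
  rw [det_sysLin_trn, mul_pow, ← map_pow, ← MvPolynomial.smul_eq_C_mul, map_smul, smul_eq_mul] at h2
  exact nonneg_of_mul_pos (pow_pos' (star_mul_self_pos hB0) m) h2

/-- Perturbation. -/
noncomputable def pert (K : ι → ι → Matrix (Fin k) (Fin k) ℂ) (ε : ℝ) :
    ι → ι → Matrix (Fin k) (Fin k) ℂ := fun a b => K a b + (if a = b then (ε : ℂ) • 1 else 0)

theorem frm_pert (K : ι → ι → Matrix (Fin k) (Fin k) ℂ) (ε : ℝ) (v : ι → ℂ) :
    frm (pert K ε) v = frm K v + (((∑ a, Complex.normSq (v a)) * ε : ℝ) : ℂ) • 1 := by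
  unfold frm pert
  simp only [smul_add, Finset.sum_add_distrib, smul_ite, smul_zero, Finset.sum_ite_eq,
    Finset.mem_univ, if_true]
  congr 1
  rw [Complex.ofReal_mul, Complex.ofReal_sum, Finset.sum_mul, Finset.sum_smul]
  apply Finset.sum_congr rfl
  intro a _
  rw [smul_smul]
  congr 2
  rw [← Complex.mul_conj, mul_comm]
  rfl

theorem pert_strict {K : ι → ι → Matrix (Fin k) (Fin k) ℂ} (hK : GPos K) {ε : ℝ} (hε : 0 < ε) :
    GPosS (pert K ε) := by
  intro v hv
  rw [frm_pert]
  apply Matrix.PosDef.posSemidef_add (hK v)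
  have hs : 0 < (∑ a, Complex.normSq (v a)) * ε := by
    apply mul_pos _ hε
    obtain ⟨a, ha⟩ : ∃ a, v a ≠ 0 := by
      by_contra h
      apply hv
      funext a
      by_contra h2
      exact h ⟨a, h2⟩
    calc (0 : ℝ) < Complex.normSq (v a) := Complex.normSq_pos.mpr ha
      _ ≤ _ := Finset.single_le_sum (f := fun a => Complex.normSq (v a))
          (fun i _ => Complex.normSq_nonneg _) (Finset.mem_univ a)
  exact Matrix.PosDef.one.smul (by exact_mod_cast hs)

/-- The determinant as a polynomial in the perturbation parameter. -/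
noncomputable def pertPoly (K : ι → ι → Matrix (Fin k) (Fin k) ℂ) : Polynomial (PolyForms k) :=
  ((sysLin K).map Polynomial.C + (Polynomial.X : Polynomial (PolyForms k)) •
    (Matrix.diagonal (fun _ : ι => Polynomial.C (lin (1 : Matrix (Fin k) (Fin k) ℂ))))).det

theorem eval_pertPoly (K : ι → ι → Matrix (Fin k) (Fin k) ℂ) (ε : ℝ) :
    (pertPoly K).eval (MvPolynomial.C (ε : ℂ)) = (sysLin (pert K ε)).det := by
  have h := (Polynomial.evalRingHom (MvPolynomial.C (ε : ℂ) : PolyForms k)).map_det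
    ((sysLin K).map Polynomial.C + (Polynomial.X : Polynomial (PolyForms k)) •
    (Matrix.diagonal (fun _ : ι => Polynomial.C (lin (1 : Matrix (Fin k) (Fin k) ℂ)))))
  change (Polynomial.evalRingHom (MvPolynomial.C (ε : ℂ) : PolyForms k)) (pertPoly K) = _
  unfold pertPoly
  rw [h]
  congr 1
  ext a b : 1
  unfold sysLin pert
  by_cases hab : a = b
  · subst hab
    simp only [RingHom.mapMatrix_apply, Matrix.map_apply, Matrix.add_apply, Matrix.of_apply,
      Matrix.smul_apply, smul_eq_mul, Polynomial.coe_evalRingHom, Polynomial.eval_add,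
      Polynomial.eval_mul, Polynomial.eval_X, Polynomial.eval_C, Matrix.diagonal_apply_eq,
      if_true]
    rw [lin_add, lin_smul, MvPolynomial.smul_eq_C_mul]
  · simp only [RingHom.mapMatrix_apply, Matrix.map_apply, Matrix.add_apply, Matrix.of_apply,
      Matrix.smul_apply, smul_eq_mul, Polynomial.coe_evalRingHom, Polynomial.eval_add,
      Polynomial.eval_mul, Polynomial.eval_X, Polynomial.eval_C, Matrix.diagonal_apply_ne _ hab,
      if_neg hab, Polynomial.eval_zero, mul_zero, add_zero]

theorem continuous_topCoeff_eval (P : Polynomial (PolyForms k)) :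
    Continuous (fun ε : ℝ => topCoeff k (P.eval (MvPolynomial.C (ε : ℂ)))) := by
  have h : ∀ ε : ℝ, topCoeff k (P.eval (MvPolynomial.C (ε : ℂ))) =
      ∑ i ∈ Finset.range (P.natDegree + 1), (ε : ℂ) ^ i * topCoeff k (P.coeff i) := by
    intro ε
    rw [Polynomial.eval_eq_sum_range, map_sum]
    apply Finset.sum_congr rfl
    intro i _
    rw [mul_comm, ← map_pow, ← MvPolynomial.smul_eq_C_mul, map_smul, smul_eq_mul]
  simp only [h]
  apply continuous_finsetSum
  intro i _
  exact (Complex.continuous_ofReal.pow i).mul continuous_const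

theorem gpos_of_normal [Nonempty ι] [Nonempty (Fin k)] (m : ℕ) (hk : k = Fintype.card ι * m)
    (hbase : ∀ K : ι → ι → Matrix (Fin k) (Fin k) ℂ, Normal K →
      0 ≤ topCoeff k ((sysLin K).det ^ m))
    {K : ι → ι → Matrix (Fin k) (Fin k) ℂ} (hK : GPos K) :
    0 ≤ topCoeff k ((sysLin K).det ^ m) := by
  have hcont := continuous_topCoeff_eval ((pertPoly K) ^ m)
  simp only [Polynomial.eval_pow, eval_pertPoly] at hcont
  have hpos : ∀ ε : ℝ, 0 < ε → 0 ≤ topCoeff k ((sysLin (pert K ε)).det ^ m) :=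
    fun ε hε => strict_of_normal m hk hbase (pert_strict hK hε)
  have h0 : pert K 0 = K := by
    funext a b
    unfold pert
    simp
  have hlim : Filter.Tendsto (fun ε : ℝ => topCoeff k ((sysLin (pert K ε)).det ^ m))
      (nhdsWithin 0 (Set.Ioi 0)) (nhds (topCoeff k ((sysLin (pert K 0)).det ^ m))) :=
    (hcont.tendsto 0).mono_left nhdsWithin_le_nhds
  rw [h0] at hlim
  apply ge_of_tendsto hlim
  filter_upwards [self_mem_nhdsWithin] with ε hε
  exact hpos ε hε

end Pool.Agent.MP2e24f1
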