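import Pool.Agent.Lib.MP_2e24f1_ag.Final

/-! The two positivity theorems. -/

namespace Pool.Agent.MP2e24f1

open Matrix
open scoped ComplexOrder

theorem positive_sum {d k : ℕ} (T : Finset (Fin k → ℕ)) (a : (Fin k → ℕ) → ℝ)
    (F : (Fin k → ℕ) → Forms d) (ha : ∀ σ ∈ T, 0 ≤ a σ) (hF : ∀ σ ∈ T, IsPositiveForm k (F σ)) :
    IsPositiveForm k (∑ σ ∈ T, (a σ : ℂ) • F σ) := by
  intro L hL
  have h : ∀ S : Finset (Fin k → ℕ), S ⊆ T →
      ∃ c : ℝ, 0 ≤ c ∧ pullback L (∑ σ ∈ S, (a σ : ℂ) • F σ) = (c : ℂ) • vol k := by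
    classical
    intro S
    induction S using Finset.induction_on with
    | empty =>
      intro _
      exact ⟨0, le_rfl, by simp⟩
    | insert σ S hσ ih =>
      intro hS
      obtain ⟨c, hc, hc2⟩ := ih (fun τ hτ => hS (Finset.mem_insert_of_mem hτ))
      have hσT : σ ∈ T := hS (Finset.mem_insert_self σ S)
      obtain ⟨c', hc', hc2'⟩ := hF σ hσT L hL
      refine ⟨a σ * c' + c, add_nonneg (mul_nonneg (ha σ hσT) hc') hc, ?_⟩
      rw [Finset.sum_insert hσ, map_add, map_smul, hc2, hc2', smul_smul, ← add_smul]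
      push_cast
      rfl
  exact h T (Finset.Subset.refl T)

theorem parts_at_most_two (d r k : ℕ) (U : Set (Fin d → ℂ))
    (h : (Fin d → ℂ) → Matrix (Fin r) (Fin r) ℂ) (_hU : IsOpen U) (hh : IsHermitianMetric U h)
    (hG : ∀ x ∈ U, GriffithsSemipositiveAt h x)
    (T : Finset (Fin k → ℕ)) (a : (Fin k → ℕ) → ℝ)
    (hT : ∀ σ ∈ T, σ ∈ Lam k r ∧ 0 ≤ a σ ∧ ∀ i, σ i ≤ 2) (x : Fin d → ℂ) (hx : x ∈ U) :
    IsPositiveForm k (∑ σ ∈ T, (a σ : ℂ) • schurForm (curvature h x) σ) := by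
  apply positive_sum T a _ (fun σ hσ => (hT σ hσ).2.1)
  intro σ hσ L _
  obtain ⟨⟨_, hanti, hsum⟩, _, h2⟩ := hT σ hσ
  exact schur_positive (curvature h x) (h x) (hh.pos x hx) (hG x hx) σ hsum
    (fun K hK => cover_two hK σ hanti hsum h2) L

theorem hooks_and_degree_three (d r k : ℕ) (U : Set (Fin d → ℂ))
    (h : (Fin d → ℂ) → Matrix (Fin r) (Fin r) ℂ) (_hU : IsOpen U) (hh : IsHermitianMetric U h)
    (hG : ∀ x ∈ U, GriffithsSemipositiveAt h x)
    (T : Finset (Fin k → ℕ)) (a : (Fin k → ℕ) → ℝ)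
    (hT : ∀ σ ∈ T, σ ∈ Lam k r ∧ 0 ≤ a σ ∧
      (k ≤ 3 ∨ ∀ i, σ i ≤ if (i : ℕ) = 0 then 3 else 1)) (x : Fin d → ℂ) (hx : x ∈ U) :
    IsPositiveForm k (∑ σ ∈ T, (a σ : ℂ) • schurForm (curvature h x) σ) := by
  apply positive_sum T a _ (fun σ hσ => (hT σ hσ).2.1)
  intro σ hσ L _
  obtain ⟨⟨_, hanti, hsum⟩, _, h2⟩ := hT σ hσ
  have h3 : ∀ i : Fin k, σ i ≤ if (i : ℕ) = 0 then 3 else 1 := by
    rcases h2 with h2 | h2
    · intro i
      have hle : ∀ j, σ j ≤ 3 := by
        intro j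
        have := Finset.single_le_sum (f := σ) (fun i _ => Nat.zero_le _) (Finset.mem_univ j)
        omega
      by_cases hi : (i : ℕ) = 0
      · rw [if_pos hi]
        exact hle i
      · rw [if_neg hi]
        have hk : 0 < k := by
          have := i.2
          omega
        have h5 : σ i ≤ σ ⟨0, hk⟩ := hanti (Fin.le_def.mpr (Nat.zero_le _))
        have hne : (⟨0, hk⟩ : Fin k) ≠ i := by
          intro h6
          apply hi
          rw [← h6]
        have h6 : σ ⟨0, hk⟩ + σ i ≤ ∑ j, σ j := by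
          rw [← Finset.add_sum_erase Finset.univ σ (Finset.mem_univ (⟨0, hk⟩ : Fin k))]
          have h7 : i ∈ Finset.univ.erase (⟨0, hk⟩ : Fin k) :=
            Finset.mem_erase.mpr ⟨hne.symm, Finset.mem_univ i⟩
          have := Finset.single_le_sum (f := σ) (fun i _ => Nat.zero_le _) h7
          omega
        omega
    · exact h2
  exact schur_positive (curvature h x) (h x) (hh.pos x hx) (hG x hx) σ hsum
    (fun K hK => cover_hook hK σ hanti hsum
      (fun i => by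
        have := h3 i
        split_ifs at this <;> omega)
      (fun i hi => by
        have := h3 i
        rwa [if_neg hi] at this)) L

end Pool.Agent.MP2e24f1
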