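import Pool.Agent.Lib.MP_2e24f1_ag.Gauss2

/-! Elementary and complete symmetric functions of a matrix over a commutative ring, and
Gaussian averages of quadratic forms. -/

namespace Pool.Agent.MP2e24f1

open Matrix

variable {ι : Type*} [Fintype ι] [DecidableEq ι] {R : Type*} [CommRing R]

theorem derivative_det (M : Matrix ι ι (Polynomial R)) :
    Polynomial.derivative M.det =
      (M.adjugate * M.map (fun p => Polynomial.derivative p)).trace := by
  have h1 : (M.adjugate * M.map (fun p => Polynomial.derivative p)).trace =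
      ∑ i, (M.updateCol i (fun j => Polynomial.derivative (M j i))).det := by
    unfold Matrix.trace
    apply Finset.sum_congr rfl
    intro i _
    rw [← Matrix.cramer_apply, Matrix.cramer_eq_adjugate_mulVec]
    rfl
  rw [h1]
  simp only [Matrix.det_apply, map_sum]
  rw [Finset.sum_comm]
  apply Finset.sum_congr rfl
  intro σ _
  have h2 : Polynomial.derivative (Equiv.Perm.sign σ • ∏ i, M (σ i) i) =
      Equiv.Perm.sign σ • Polynomial.derivative (∏ i, M (σ i) i) := by
    rcases Int.units_eq_one_or (Equiv.Perm.sign σ) with h | h <;> rw [h] <;> simp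
  rw [h2, Polynomial.derivative_prod_finset, Finset.smul_sum]
  apply Finset.sum_congr rfl
  intro i _
  congr 1
  rw [← Finset.mul_prod_erase Finset.univ _ (Finset.mem_univ i), mul_comm]
  congr 1
  · simp
  · apply Finset.prod_congr rfl
    intro j hj
    rw [Matrix.updateCol_ne (Finset.ne_of_mem_erase hj)]

/-- The pencil `1 + t Y`. -/
noncomputable def opx (Y : Matrix ι ι R) : Matrix ι ι (Polynomial R) :=
  1 + (Polynomial.X : Polynomial R) • Y.map Polynomial.C

/-- Elementary symmetric functions of the matrix `Y`. -/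
noncomputable def ee (Y : Matrix ι ι R) (i : ℕ) : R := (opx Y).det.coeff i

/-- Coefficients of the adjugate of `1 + t Y`. -/
noncomputable def cc (Y : Matrix ι ι R) (i : ℕ) : Matrix ι ι R :=
  Matrix.of fun a b => ((opx Y).adjugate a b).coeff i

theorem opx_adj (Y : Matrix ι ι R) (a b : ι) :
    (opx Y).adjugate a b + Polynomial.X * ∑ c, Polynomial.C (Y a c) * (opx Y).adjugate c b
      = if a = b then (opx Y).det else 0 := by
  have h := congrFun (congrFun (Matrix.mul_adjugate (opx Y)) a) b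
  rw [Matrix.mul_apply] at h
  simp only [Matrix.smul_apply, Matrix.one_apply, smul_eq_mul, mul_ite, mul_one, mul_zero] at h
  rw [← h]
  have : ∀ c, opx Y a c * (opx Y).adjugate c b = (if a = c then (opx Y).adjugate c b else 0)
      + Polynomial.X * (Polynomial.C (Y a c) * (opx Y).adjugate c b) := by
    intro c
    have : opx Y a c = (if a = c then 1 else 0) + Polynomial.X * Polynomial.C (Y a c) := by
      unfold opx
      simp [Matrix.one_apply]
    rw [this, add_mul, mul_assoc, ite_mul, one_mul, zero_mul]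
  simp only [this]
  rw [Finset.sum_add_distrib, Finset.mul_sum]
  simp

theorem cc_succ (Y : Matrix ι ι R) (i : ℕ) :
    cc Y (i + 1) = ee Y (i + 1) • (1 : Matrix ι ι R) - Y * cc Y i := by
  rw [eq_sub_iff_add_eq]
  ext a b
  have h := congrArg (fun p => p.coeff (i + 1)) (opx_adj Y a b)
  simp only [Polynomial.coeff_add, Polynomial.coeff_X_mul, Polynomial.finsetSum_coeff,
    Polynomial.coeff_C_mul] at h
  simp only [Matrix.add_apply, Matrix.smul_apply, Matrix.mul_apply, cc, Matrix.of_apply, ee,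
    Matrix.one_apply, smul_eq_mul, mul_ite, mul_one, mul_zero]
  rw [h]
  split_ifs <;> simp

theorem ee_zero (Y : Matrix ι ι R) : ee Y 0 = 1 := by
  unfold ee
  rw [Polynomial.coeff_zero_eq_eval_zero]
  have h := (Polynomial.evalRingHom (0 : R)).map_det (opx Y)
  change (Polynomial.evalRingHom (0 : R)) _ = _
  rw [h]
  have : (Polynomial.evalRingHom (0 : R)).mapMatrix (opx Y) = 1 := by
    unfold opx
    ext a b
    by_cases h : a = b
    · subst h; simp
    · simp [h]
  rw [this, Matrix.det_one]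

theorem cc_zero (Y : Matrix ι ι R) : cc Y 0 = 1 := by
  ext a b
  have h := congrArg (fun p => p.coeff 0) (opx_adj Y a b)
  simp only [Polynomial.coeff_add, Polynomial.mul_coeff_zero, Polynomial.coeff_X_zero, zero_mul,
    add_zero] at h
  unfold cc
  rw [Matrix.of_apply, h, Matrix.one_apply]
  have h0 := ee_zero Y
  unfold ee at h0
  split_ifs
  · exact h0
  · simp

theorem trace_mul_cc (Y : Matrix ι ι R) (i : ℕ) :
    (Y * cc Y i).trace = ((i : R) + 1) * ee Y (i + 1) := by
  have h := derivative_det (opx Y)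
  have h2 : (opx Y).map (fun p => Polynomial.derivative p) = Y.map Polynomial.C := by
    ext a b : 2
    unfold opx
    by_cases h : a = b
    · subst h; simp
    · simp [h]
  rw [h2] at h
  have h3 := congrArg (fun p => p.coeff i) h
  simp only [Polynomial.coeff_derivative] at h3
  rw [Matrix.trace_mul_comm]
  unfold ee
  rw [mul_comm, h3]
  unfold Matrix.trace cc
  rw [Polynomial.finsetSum_coeff]
  apply Finset.sum_congr rfl
  intro a _
  simp only [Matrix.diag_apply, Matrix.mul_apply, Polynomial.finsetSum_coeff, Matrix.map_apply,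
    Polynomial.coeff_mul_C, Matrix.of_apply]

theorem trace_cc_succ (Y : Matrix ι ι R) (i : ℕ) :
    (cc Y (i + 1)).trace = ((Fintype.card ι : R) - (i + 1)) * ee Y (i + 1) := by
  rw [cc_succ, Matrix.trace_sub, trace_mul_cc, Matrix.trace_smul, Matrix.trace_one, smul_eq_mul]
  ring

/-- The hermitian-type form `ū Z u`. -/
noncomputable def quad (Z : Matrix ι ι R) : MvPolynomial (ι ⊕ ι) R :=
  ∑ i, MvPolynomial.X (Sum.inr i) * ∑ j, MvPolynomial.C (Z i j) * MvPolynomial.X (Sum.inl j)

theorem quad_add (Z Z' : Matrix ι ι R) : quad (Z + Z') = quad Z + quad Z' := by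
  unfold quad
  rw [← Finset.sum_add_distrib]
  apply Finset.sum_congr rfl
  intro i _
  rw [← mul_add, ← Finset.sum_add_distrib]
  congr 1
  apply Finset.sum_congr rfl
  intro j _
  rw [Matrix.add_apply, map_add]
  ring

theorem quad_smul (c : R) (Z : Matrix ι ι R) : quad (c • Z) = MvPolynomial.C c * quad Z := by
  unfold quad
  rw [Finset.mul_sum]
  apply Finset.sum_congr rfl
  intro i _
  rw [Finset.mul_sum, Finset.mul_sum, Finset.mul_sum]
  apply Finset.sum_congr rfl
  intro j _
  rw [Matrix.smul_apply, smul_eq_mul, map_mul]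
  ring

theorem quad_neg (Z : Matrix ι ι R) : quad (-Z) = - quad Z := by
  have := quad_smul (-1 : R) Z
  rw [neg_one_smul, map_neg, map_one, neg_one_mul] at this
  exact this

theorem quad_sub (Z Z' : Matrix ι ι R) : quad (Z - Z') = quad Z - quad Z' := by
  rw [sub_eq_add_neg, quad_add, quad_neg, sub_eq_add_neg]

theorem pderiv_quad (Y : Matrix ι ι R) (i : ι) :
    MvPolynomial.pderiv (Sum.inl i) (quad Y) =
      ∑ l, MvPolynomial.X (Sum.inr l) * MvPolynomial.C (Y l i) := by
  unfold quad
  rw [map_sum]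
  apply Finset.sum_congr rfl
  intro l _
  rw [MvPolynomial.pderiv_mul, MvPolynomial.pderiv_X_of_ne (by simp), zero_mul, zero_add, map_sum]
  congr 1
  rw [Finset.sum_eq_single i]
  · rw [MvPolynomial.pderiv_C_mul, MvPolynomial.pderiv_X_self, mul_one]
  · intro j _ hj
    rw [MvPolynomial.pderiv_C_mul, MvPolynomial.pderiv_X_of_ne (by simpa using hj), mul_zero]
  · simp

theorem gL_quad_mul_pow (Z Y : Matrix ι ι R) (n : ℕ) :
    gL ι R (quad Z * quad Y ^ (n + 1)) =
      Z.trace * gL ι R (quad Y ^ (n + 1)) + ((n : R) + 1) * gL ι R (quad (Y * Z) * quad Y ^ n) := by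
  have h1 : quad Z * quad Y ^ (n + 1) = ∑ i, MvPolynomial.X (Sum.inr i) *
      ((∑ j, MvPolynomial.C (Z i j) * MvPolynomial.X (Sum.inl j)) * quad Y ^ (n + 1)) := by
    conv_lhs => rw [quad, Finset.sum_mul]
    apply Finset.sum_congr rfl
    intro i _
    rw [mul_assoc]
  rw [h1, map_sum]
  have h2 : ∀ i, gL ι R (MvPolynomial.X (Sum.inr i) *
      ((∑ j, MvPolynomial.C (Z i j) * MvPolynomial.X (Sum.inl j)) * quad Y ^ (n + 1))) =
      Z i i * gL ι R (quad Y ^ (n + 1)) + ((n : R) + 1) * gL ι R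
        ((∑ j, MvPolynomial.C (Z i j) * MvPolynomial.X (Sum.inl j)) *
          (∑ l, MvPolynomial.X (Sum.inr l) * MvPolynomial.C (Y l i)) * quad Y ^ n) := by
    intro i
    rw [gL_inr_mul, MvPolynomial.pderiv_mul, map_add]
    congr 1
    · rw [← gL_C_mul]
      congr 2
      rw [map_sum, Finset.sum_eq_single i]
      · rw [MvPolynomial.pderiv_C_mul, MvPolynomial.pderiv_X_self, mul_one]
      · intro j _ hj
        rw [MvPolynomial.pderiv_C_mul, MvPolynomial.pderiv_X_of_ne (by simpa using hj), mul_zero]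
      · simp
    · rw [MvPolynomial.pderiv_pow, pderiv_quad, ← gL_C_mul]
      congr 1
      simp only [Nat.add_sub_cancel]
      push_cast
      simp only [map_add, map_natCast, map_one]
      ring
  simp only [h2]
  rw [Finset.sum_add_distrib, ← Finset.sum_mul, ← Finset.mul_sum, ← map_sum]
  congr 3
  rw [← Finset.sum_mul]
  congr 1
  unfold quad
  have h3 : ∀ i, (∑ j, MvPolynomial.C (Z i j) * MvPolynomial.X (Sum.inl j)) *
          (∑ l, MvPolynomial.X (Sum.inr l) * MvPolynomial.C (Y l i)) =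
      ∑ l, MvPolynomial.X (Sum.inr l) * (∑ j, MvPolynomial.C (Y l i * Z i j) *
        (MvPolynomial.X (Sum.inl j) : MvPolynomial (ι ⊕ ι) R)) := by
    intro i
    rw [Finset.mul_sum]
    apply Finset.sum_congr rfl
    intro l _
    rw [Finset.mul_sum, Finset.sum_mul]
    apply Finset.sum_congr rfl
    intro j _
    rw [map_mul]
    ring
  simp only [h3]
  rw [Finset.sum_comm]
  apply Finset.sum_congr rfl
  intro l _
  rw [← Finset.mul_sum]
  congr 1
  rw [Finset.sum_comm]
  apply Finset.sum_congr rfl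
  intro j _
  rw [← Finset.sum_mul, ← map_sum]
  rfl

theorem gL_quad (Z : Matrix ι ι R) : gL ι R (quad Z) = Z.trace := by
  unfold quad
  rw [map_sum]
  unfold Matrix.trace
  apply Finset.sum_congr rfl
  intro i _
  rw [gL_inr_mul, map_sum, Finset.sum_eq_single i]
  · rw [MvPolynomial.pderiv_C_mul, MvPolynomial.pderiv_X_self, mul_one, gL_C]
    rfl
  · intro j _ hj
    rw [MvPolynomial.pderiv_C_mul, MvPolynomial.pderiv_X_of_ne (by simpa using hj), mul_zero]
  · simp

theorem gL_quad_one_mul_pow (Y : Matrix ι ι R) (n : ℕ) :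
    gL ι R (quad 1 * quad Y ^ n) = ((Fintype.card ι : R) + n) * gL ι R (quad Y ^ n) := by
  rcases n with _ | n
  · rw [pow_zero, mul_one, gL_quad, Matrix.trace_one]
    have : (1 : MvPolynomial (ι ⊕ ι) R) = MvPolynomial.C 1 := by simp
    rw [this, gL_C]
    simp
  · rw [gL_quad_mul_pow, Matrix.trace_one, mul_one, ← pow_succ']
    push_cast
    ring

section

variable [Algebra ℂ R]

/-- Complete symmetric functions of the matrix `Y`. -/
noncomputable def hh (Y : Matrix ι ι R) (n : ℕ) : R :=
  ((n.factorial : ℂ)⁻¹) • gL ι R (quad Y ^ n)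

/-- Normalised averages. -/
noncomputable def ww (Y Z : Matrix ι ι R) (n : ℕ) : R :=
  ((n.factorial : ℂ)⁻¹) • gL ι R (quad Z * quad Y ^ n)

theorem hh_zero (Y : Matrix ι ι R) : hh Y 0 = 1 := by
  unfold hh
  rw [pow_zero]
  have : (1 : MvPolynomial (ι ⊕ ι) R) = MvPolynomial.C 1 := by simp
  rw [this, gL_C]
  simp

theorem ww_succ (Y Z : Matrix ι ι R) (n : ℕ) :
    ww Y Z (n + 1) = Z.trace * hh Y (n + 1) + ww Y (Y * Z) n := by
  unfold ww hh
  rw [gL_quad_mul_pow, smul_add]
  congr 1
  · rw [mul_smul_comm]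
  · have : ((n : R) + 1) * gL ι R (quad (Y * Z) * quad Y ^ n) =
        ((n : ℂ) + 1) • gL ι R (quad (Y * Z) * quad Y ^ n) := by
      rw [Algebra.smul_def]
      simp
    rw [this, smul_smul]
    congr 1
    rw [Nat.factorial_succ]
    have h1 : ((n : ℂ) + 1) ≠ 0 := by exact_mod_cast Nat.succ_ne_zero n
    have h2 : (n.factorial : ℂ) ≠ 0 := by exact_mod_cast n.factorial_ne_zero
    push_cast
    field_simp

theorem ww_self (Y : Matrix ι ι R) (n : ℕ) : ww Y Y n = ((n : R) + 1) * hh Y (n + 1) := by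
  unfold ww hh
  rw [← pow_succ']
  have : ((n : R) + 1) * ((((n + 1).factorial : ℂ)⁻¹) • gL ι R (quad Y ^ (n + 1))) =
        (((n : ℂ) + 1) * ((n + 1).factorial : ℂ)⁻¹) • gL ι R (quad Y ^ (n + 1)) := by
    rw [mul_smul_comm, mul_comm ((n : ℂ) + 1), mul_smul]
    congr 1
    rw [Algebra.smul_def]
    simp
  rw [this]
  congr 1
  rw [Nat.factorial_succ]
  have h1 : ((n : ℂ) + 1) ≠ 0 := by exact_mod_cast Nat.succ_ne_zero n
  have h2 : (n.factorial : ℂ) ≠ 0 := by exact_mod_cast n.factorial_ne_zero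
  push_cast
  field_simp

theorem ww_one (Y : Matrix ι ι R) (n : ℕ) :
    ww Y 1 n = ((Fintype.card ι : R) + n) * hh Y n := by
  unfold ww hh
  rw [gL_quad_one_mul_pow, mul_smul_comm]

theorem ww_sub (Y Z Z' : Matrix ι ι R) (n : ℕ) : ww Y (Z - Z') n = ww Y Z n - ww Y Z' n := by
  unfold ww
  rw [quad_sub, sub_mul, map_sub, smul_sub]

theorem ww_smul (Y Z : Matrix ι ι R) (c : R) (n : ℕ) : ww Y (c • Z) n = c * ww Y Z n := by
  unfold ww
  rw [quad_smul, mul_assoc, gL_C_mul, mul_smul_comm]

theorem ww_mul_cc (Y : Matrix ι ι R) (n : ℕ) : ∀ i : ℕ,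
    ww Y (Y * cc Y i) n = ((n : R) + i + 1) *
      ∑ l ∈ Finset.range (n + 1), (-1) ^ l * ee Y (i + 1 + l) * hh Y (n - l) := by
  induction n with
  | zero =>
    intro i
    have : ww Y (Y * cc Y i) 0 = (Y * cc Y i).trace := by
      unfold ww
      rw [pow_zero, mul_one, gL_quad]
      simp
    rw [this, trace_mul_cc]
    simp [hh_zero]
  | succ n ih =>
    intro i
    have h1 : Y * cc Y i = ee Y (i + 1) • (1 : Matrix ι ι R) - cc Y (i + 1) := by
      rw [cc_succ]
      abel
    rw [h1, ww_sub, ww_smul, ww_one, ww_succ, trace_cc_succ, ih (i + 1)]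
    rw [Finset.sum_range_succ' _ (n + 1)]
    have h2 : ∑ k ∈ Finset.range (n + 1), (-1 : R) ^ (k + 1) * ee Y (i + 1 + (k + 1)) *
        hh Y (n + 1 - (k + 1)) =
        - ∑ l ∈ Finset.range (n + 1), (-1) ^ l * ee Y (i + 1 + 1 + l) * hh Y (n - l) := by
      rw [← Finset.sum_neg_distrib]
      apply Finset.sum_congr rfl
      intro l _
      have e1 : i + 1 + (l + 1) = i + 1 + 1 + l := by ring
      have e2 : n + 1 - (l + 1) = n - l := by omega
      rw [e1, e2, pow_succ]
      ring
    rw [h2]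
    simp only [pow_zero, one_mul, add_zero, Nat.sub_zero]
    push_cast
    ring

theorem hh_succ (Y : Matrix ι ι R) (n : ℕ) :
    hh Y (n + 1) = ∑ l ∈ Finset.range (n + 1), (-1) ^ l * ee Y (l + 1) * hh Y (n - l) := by
  have h := ww_mul_cc Y n 0
  rw [cc_zero, mul_one, ww_self] at h
  simp only [Nat.cast_zero, add_zero, zero_add] at h
  have h1 : ((n : ℂ) + 1) ≠ 0 := by exact_mod_cast Nat.succ_ne_zero n
  have h2 : ((n : R) + 1) = algebraMap ℂ R ((n : ℂ) + 1) := by simp
  have h3 : algebraMap ℂ R (((n : ℂ) + 1)⁻¹) * ((n : R) + 1) = 1 := by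
    rw [h2, ← map_mul, inv_mul_cancel₀ h1, map_one]
  have h4 := congrArg (fun x => algebraMap ℂ R (((n : ℂ) + 1)⁻¹) * x) h
  rw [← mul_assoc, ← mul_assoc, h3, one_mul, one_mul] at h4
  rw [h4]
  apply Finset.sum_congr rfl
  intro l _
  rw [add_comm 1 l]

end

end Pool.Agent.MP2e24f1
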