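import Pool.Agent.Lib.MP_2e24f1_ag.Spec
import Pool.Agent.Lib.MP_2e24f1_ag.Sym

/-! Normalisation of a positive system of matrices. -/

namespace Pool.Agent.MP2e24f1

open Matrix
open scoped ComplexOrder

variable {ι κ : Type*} [Fintype ι] [DecidableEq ι] [Fintype κ] [DecidableEq κ]

/-- The linear map attached to the system. -/
noncomputable def lam (K : ι → ι → Matrix κ κ ℂ) (M : Matrix ι ι ℂ) : Matrix κ κ ℂ :=
  ∑ a, ∑ b, M a b • K a b

/-- Strictly positive systems. -/
def GPosS (K : ι → ι → Matrix κ κ ℂ) : Prop := ∀ v : ι → ℂ, v ≠ 0 → (frm K v).PosDef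

omit [DecidableEq ι] [DecidableEq κ] [Fintype κ] in
theorem lam_add (K : ι → ι → Matrix κ κ ℂ) (M M' : Matrix ι ι ℂ) :
    lam K (M + M') = lam K M + lam K M' := by
  unfold lam
  simp only [Matrix.add_apply, add_smul, Finset.sum_add_distrib]

omit [DecidableEq ι] [DecidableEq κ] [Fintype κ] in
theorem lam_smul (K : ι → ι → Matrix κ κ ℂ) (c : ℂ) (M : Matrix ι ι ℂ) :
    lam K (c • M) = c • lam K M := by
  unfold lam
  simp only [Matrix.smul_apply, smul_eq_mul, mul_smul, Finset.smul_sum]

omit [DecidableEq ι] [DecidableEq κ] [Fintype κ] in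
theorem lam_conj_mul (K : ι → ι → Matrix κ κ ℂ) (B : Matrix ι ι ℂ) :
    lam K (Bᴴ * B) = ∑ c, frm K (B c) := by
  unfold lam frm
  simp only [Matrix.mul_apply, Matrix.conjTranspose_apply, Finset.sum_smul]
  rw [Finset.sum_congr rfl (fun a _ => Finset.sum_comm)]
  rw [Finset.sum_comm]

omit [DecidableEq κ] in
theorem GPosS.gpos {K : ι → ι → Matrix κ κ ℂ} (hK : GPosS K) : GPos K := by
  intro v
  by_cases hv : v = 0
  · subst hv
    have : frm K (0 : ι → ℂ) = 0 := by
      unfold frm
      simp
    rw [this]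
    exact Matrix.PosSemidef.zero
  · exact (hK v hv).posSemidef

omit [DecidableEq κ] in
theorem lam_posDef {K : ι → ι → Matrix κ κ ℂ} (hK : GPosS K) {B : Matrix ι ι ℂ} (hB : B ≠ 0) :
    (lam K (Bᴴ * B)).PosDef := by
  rw [lam_conj_mul]
  have : ∃ c, B c ≠ 0 := by
    by_contra h
    apply hB
    ext a b
    have h2 : B a = 0 := by
      by_contra h3
      exact h ⟨a, h3⟩
    rw [h2]
    rfl
  obtain ⟨c, hc⟩ := this
  rw [← Finset.add_sum_erase Finset.univ _ (Finset.mem_univ c)]
  apply (hK (B c) hc).add_posSemidef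
  apply Matrix.posSemidef_sum
  intro d _
  exact hK.gpos (B d)

/-- Numerator. -/
noncomputable def num (κ : Type*) [Fintype κ] (B : Matrix ι ι ℂ) : ℝ :=
  (Complex.normSq B.det) ^ (Fintype.card κ)

/-- Denominator. -/
noncomputable def den (K : ι → ι → Matrix κ κ ℂ) (B : Matrix ι ι ℂ) : ℝ :=
  ((lam K (Bᴴ * B)).det.re) ^ (Fintype.card ι)

theorem den_pos {K : ι → ι → Matrix κ κ ℂ} (hK : GPosS K) {B : Matrix ι ι ℂ} (hB : B ≠ 0) :
    0 < den K B := by
  unfold den
  apply pow_pos
  exact (Complex.pos_iff.mp (lam_posDef hK hB).det_pos).1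

theorem continuous_num : Continuous (num κ (ι := ι)) := by
  unfold num
  exact (Complex.continuous_normSq.comp (Continuous.matrix_det continuous_id)).pow _

theorem continuous_den (K : ι → ι → Matrix κ κ ℂ) : Continuous (den K) := by
  unfold den lam
  apply Continuous.pow
  apply Complex.continuous_re.comp
  apply Continuous.matrix_det
  apply continuous_finsetSum
  intro a _
  apply continuous_finsetSum
  intro b _
  have h1 : Continuous (fun B : Matrix ι ι ℂ => Bᴴ * B) :=
      (Continuous.matrix_conjTranspose continuous_id).matrix_mul continuous_id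
  exact (h1.matrix_elem a b).smul continuous_const

theorem num_smul (c : ℝ) (B : Matrix ι ι ℂ) :
    num κ ((c : ℂ) • B) = (c ^ 2) ^ (Fintype.card ι * Fintype.card κ) * num κ B := by
  unfold num
  rw [Matrix.det_smul, map_mul, map_pow, Complex.normSq_ofReal, mul_pow, ← pow_mul, ← sq]

theorem den_smul (K : ι → ι → Matrix κ κ ℂ) (c : ℝ) (B : Matrix ι ι ℂ) :
    den K ((c : ℂ) • B) = (c ^ 2) ^ (Fintype.card ι * Fintype.card κ) * den K B := by
  unfold den
  have h1 : ((c : ℂ) • B)ᴴ * ((c : ℂ) • B) = ((c ^ 2 : ℝ) : ℂ) • (Bᴴ * B) := by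
    rw [Matrix.conjTranspose_smul, Matrix.smul_mul, Matrix.mul_smul, smul_smul]
    congr 1
    change (starRingEnd ℂ) (c : ℂ) * (c : ℂ) = _
    rw [Complex.conj_ofReal]
    push_cast
    ring
  rw [h1, lam_smul, Matrix.det_smul, ← Complex.ofReal_pow, Complex.re_ofReal_mul, mul_pow,
    ← pow_mul, mul_comm (Fintype.card κ)]

/-- The unit sphere. -/
def sph (ι : Type*) [Fintype ι] : Set (Matrix ι ι ℂ) :=
  {B | ∑ a, ∑ b, Complex.normSq (B a b) = 1}

theorem isCompact_sph : IsCompact (sph ι) := by
  have h1 : IsCompact (Set.pi Set.univ (fun _ : ι => Set.pi Set.univ (fun _ : ι =>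
      Metric.closedBall (0 : ℂ) 1))) := by
    apply isCompact_univ_pi
    intro _
    apply isCompact_univ_pi
    intro _
    exact isCompact_closedBall 0 1
  apply h1.of_isClosed_subset
  · apply isClosed_eq _ continuous_const
    apply continuous_finsetSum
    intro a _
    apply continuous_finsetSum
    intro b _
    exact Complex.continuous_normSq.comp ((continuous_apply b).comp (continuous_apply a))
  · intro B hB
    rw [Set.mem_univ_pi]
    intro a
    rw [Set.mem_univ_pi]
    intro b
    rw [mem_closedBall_zero_iff]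
    have h2 : Complex.normSq (B a b) ≤ 1 := by
      have hB' : ∑ a, ∑ b, Complex.normSq (B a b) = 1 := hB
      rw [← hB']
      calc Complex.normSq (B a b) ≤ ∑ b, Complex.normSq (B a b) :=
            Finset.single_le_sum (f := fun b => Complex.normSq (B a b))
              (fun i _ => Complex.normSq_nonneg _) (Finset.mem_univ b)
        _ ≤ _ := Finset.single_le_sum (f := fun a => ∑ b, Complex.normSq (B a b))
              (fun i _ => Finset.sum_nonneg (fun j _ => Complex.normSq_nonneg _)) (Finset.mem_univ a)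
    rw [Complex.normSq_eq_norm_sq] at h2
    have h3 := norm_nonneg (B a b)
    nlinarith

theorem exists_max [Nonempty ι] [Nonempty κ] {K : ι → ι → Matrix κ κ ℂ} (hK : GPosS K) :
    ∃ B0 : Matrix ι ι ℂ, B0 ≠ 0 ∧ ∀ B, num κ B * den K B0 ≤ num κ B0 * den K B := by
  have hne : ∀ B ∈ sph ι, B ≠ 0 := by
    intro B hB h0
    subst h0
    have hB' : ∑ a : ι, ∑ b : ι, Complex.normSq ((0 : Matrix ι ι ℂ) a b) = 1 := hB
    simp at hB'
  have i : ι := Classical.arbitrary ι
  have hsn : (sph ι).Nonempty := by
    refine ⟨Matrix.single i i 1, ?_⟩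
    change ∑ a, ∑ b, Complex.normSq (Matrix.single i i (1 : ℂ) a b) = 1
    rw [Finset.sum_eq_single i]
    · rw [Finset.sum_eq_single i]
      · simp
      · intro b _ hb
        simp [Matrix.single, hb.symm]
      · simp
    · intro a _ ha
      apply Finset.sum_eq_zero
      intro b _
      simp [Matrix.single, ha.symm]
    · simp
  obtain ⟨B0, hB0, hmax⟩ := isCompact_sph.exists_isMaxOn hsn
    (f := fun B => num κ B / den K B) (by
      apply ContinuousOn.div continuous_num.continuousOn (continuous_den K).continuousOn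
      intro B hB
      exact (den_pos hK (hne B hB)).ne')
  refine ⟨B0, hne B0 hB0, ?_⟩
  intro B
  by_cases hB : B = 0
  · subst hB
    have h1 : num κ (0 : Matrix ι ι ℂ) = 0 := by
      unfold num
      rw [Matrix.det_zero, map_zero, zero_pow (Fintype.card_pos.ne')]
    rw [h1, zero_mul]
    apply mul_nonneg
    · unfold num
      exact pow_nonneg (Complex.normSq_nonneg _) _
    · have : den K (0 : Matrix ι ι ℂ) = 0 := by
        unfold den
        have : lam K ((0 : Matrix ι ι ℂ)ᴴ * (0 : Matrix ι ι ℂ)) = 0 := by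
          unfold lam
          simp
        rw [this, Matrix.det_zero, Complex.zero_re, zero_pow (Fintype.card_pos.ne')]
      rw [this]
  · let s : ℝ := ∑ a, ∑ b, Complex.normSq (B a b)
    have hs : 0 < s := by
      obtain ⟨a, b, hab⟩ : ∃ a b, B a b ≠ 0 := by
        by_contra h
        apply hB
        ext a b
        by_contra h2
        exact h ⟨a, b, h2⟩
      calc (0 : ℝ) < Complex.normSq (B a b) := Complex.normSq_pos.mpr hab
        _ ≤ ∑ b, Complex.normSq (B a b) :=
            Finset.single_le_sum (f := fun b => Complex.normSq (B a b))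
              (fun i _ => Complex.normSq_nonneg _) (Finset.mem_univ b)
        _ ≤ _ := Finset.single_le_sum (f := fun a => ∑ b, Complex.normSq (B a b))
              (fun i _ => Finset.sum_nonneg (fun j _ => Complex.normSq_nonneg _)) (Finset.mem_univ a)
    let c : ℝ := (Real.sqrt s)⁻¹
    have hc : c ^ 2 = s⁻¹ := by
      simp only [c]
      rw [inv_pow, Real.sq_sqrt hs.le]
    have hB1 : ((c : ℂ) • B) ∈ sph ι := by
      change ∑ a, ∑ b, Complex.normSq (((c : ℂ) • B) a b) = 1
      have : ∀ a b, Complex.normSq (((c : ℂ) • B) a b) = s⁻¹ * Complex.normSq (B a b) := by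
        intro a b
        rw [Matrix.smul_apply, smul_eq_mul, map_mul, Complex.normSq_ofReal, ← sq, hc]
      simp only [this]
      simp only [← Finset.mul_sum]
      exact inv_mul_cancel₀ hs.ne'
    have h1 := hmax hB1
    simp only [Set.mem_ofPred_eq] at h1
    rw [div_le_div_iff₀ (den_pos hK (hne _ hB1)) (den_pos hK (hne _ hB0)), num_smul, den_smul] at h1
    have hpos : 0 < (c ^ 2) ^ (Fintype.card ι * Fintype.card κ) := by
      rw [hc]
      positivity
    have h2 : (c ^ 2) ^ (Fintype.card ι * Fintype.card κ) * (num κ B * den K B0) ≤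
        (c ^ 2) ^ (Fintype.card ι * Fintype.card κ) * (num κ B0 * den K B) := by
      calc _ = (c ^ 2) ^ (Fintype.card ι * Fintype.card κ) * num κ B * den K B0 := by ring
        _ ≤ _ := h1
        _ = _ := by ring
    exact le_of_mul_le_mul_left h2 hpos

end Pool.Agent.MP2e24f1
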