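import Pool.Agent.Lib.MP_2e24f1_ag.Scaling

/-! First order condition at the maximum. -/

namespace Pool.Agent.MP2e24f1

open Matrix
open scoped ComplexOrder

variable {ι κ : Type*} [Fintype ι] [DecidableEq ι] [Fintype κ] [DecidableEq κ]

/-- Change of frame of a system. -/
noncomputable def trn (K : ι → ι → Matrix κ κ ℂ) (B : Matrix ι ι ℂ) :
    ι → ι → Matrix κ κ ℂ := fun a b => ∑ c, ∑ d, (star (B a c) * B b d) • K c d

omit [DecidableEq ι] [Fintype κ] [DecidableEq κ] in
theorem frm_trn (K : ι → ι → Matrix κ κ ℂ) (B : Matrix ι ι ℂ) (v : ι → ℂ) :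
    frm (trn K B) v = frm K (fun c => ∑ a, v a * B a c) := by
  unfold frm trn
  simp only [Finset.smul_sum, smul_smul]
  calc ∑ a, ∑ b, ∑ c, ∑ d, (star (v a) * v b * (star (B a c) * B b d)) • K c d
      = ∑ a, ∑ c, ∑ b, ∑ d, (star (v a) * v b * (star (B a c) * B b d)) • K c d := by
        apply Finset.sum_congr rfl
        intro a _
        rw [Finset.sum_comm]
    _ = ∑ c, ∑ a, ∑ b, ∑ d, (star (v a) * v b * (star (B a c) * B b d)) • K c d := by
        rw [Finset.sum_comm]
    _ = ∑ c, ∑ a, ∑ d, ∑ b, (star (v a) * v b * (star (B a c) * B b d)) • K c d := by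
        apply Finset.sum_congr rfl
        intro c _
        apply Finset.sum_congr rfl
        intro a _
        rw [Finset.sum_comm]
    _ = ∑ c, ∑ d, ∑ a, ∑ b, (star (v a) * v b * (star (B a c) * B b d)) • K c d := by
        apply Finset.sum_congr rfl
        intro c _
        rw [Finset.sum_comm]
    _ = _ := by
        apply Finset.sum_congr rfl
        intro c _
        apply Finset.sum_congr rfl
        intro d _
        rw [star_sum, Finset.sum_mul]
        simp only [Finset.mul_sum, Finset.sum_smul]
        apply Finset.sum_congr rfl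
        intro a _
        apply Finset.sum_congr rfl
        intro b _
        congr 1
        rw [star_mul']
        ring

omit [DecidableEq ι] [Fintype κ] [DecidableEq κ] in
theorem lam_trn (K : ι → ι → Matrix κ κ ℂ) (B M : Matrix ι ι ℂ) :
    lam (trn K B) M = lam K (Bᴴ * M * B) := by
  unfold lam trn
  simp only [Finset.smul_sum, smul_smul]
  calc ∑ a, ∑ b, ∑ c, ∑ d, (M a b * (star (B a c) * B b d)) • K c d
      = ∑ a, ∑ c, ∑ b, ∑ d, (M a b * (star (B a c) * B b d)) • K c d := by
        apply Finset.sum_congr rfl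
        intro a _
        rw [Finset.sum_comm]
    _ = ∑ c, ∑ a, ∑ b, ∑ d, (M a b * (star (B a c) * B b d)) • K c d := by
        rw [Finset.sum_comm]
    _ = ∑ c, ∑ a, ∑ d, ∑ b, (M a b * (star (B a c) * B b d)) • K c d := by
        apply Finset.sum_congr rfl
        intro c _
        apply Finset.sum_congr rfl
        intro a _
        rw [Finset.sum_comm]
    _ = ∑ c, ∑ d, ∑ a, ∑ b, (M a b * (star (B a c) * B b d)) • K c d := by
        apply Finset.sum_congr rfl
        intro c _
        rw [Finset.sum_comm]
    _ = _ := by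
        apply Finset.sum_congr rfl
        intro c _
        apply Finset.sum_congr rfl
        intro d _
        rw [Matrix.mul_apply]
        simp only [Matrix.mul_apply, Matrix.conjTranspose_apply, Finset.sum_mul, Finset.sum_smul]
        rw [Finset.sum_comm]
        apply Finset.sum_congr rfl
        intro b _
        apply Finset.sum_congr rfl
        intro a _
        congr 1
        ring

omit [DecidableEq ι] [DecidableEq κ] in
theorem lam_conjQ (K : ι → ι → Matrix κ κ ℂ) (Q : Matrix κ κ ℂ) (M : Matrix ι ι ℂ) :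
    lam (fun a b => Qᴴ * K a b * Q) M = Qᴴ * lam K M * Q := by
  unfold lam
  simp only [Matrix.mul_sum, Matrix.sum_mul]
  apply Finset.sum_congr rfl
  intro a _
  apply Finset.sum_congr rfl
  intro b _
  rw [Matrix.mul_smul, Matrix.smul_mul]

omit [DecidableEq ι] [DecidableEq κ] in
theorem GPos.trn {K : ι → ι → Matrix κ κ ℂ} (hK : GPos K) (B : Matrix ι ι ℂ) :
    GPos (trn K B) := by
  intro v
  rw [frm_trn]
  exact hK _

theorem exists_whiten {A : Matrix κ κ ℂ} (hA : A.PosDef) :
    ∃ Q : Matrix κ κ ℂ, Q.det ≠ 0 ∧ Qᴴ * A * Q = 1 := by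
  obtain ⟨U, d, hd, hU1, hU2, hAU⟩ := psd_spectral A hA.posSemidef
  have hUdet : U.det ≠ 0 := by
    intro h0
    have := congrArg Matrix.det hU1
    rw [Matrix.det_mul, h0, mul_zero, Matrix.det_one] at this
    exact zero_ne_one this
  have hdpos : ∀ i, d i ≠ 0 := by
    have h1 := hA.det_pos.ne'
    rw [hAU, Matrix.det_mul, Matrix.det_mul, Matrix.det_diagonal] at h1
    intro i hi
    apply h1
    have : ∏ i, ((d i : ℝ) : ℂ) = 0 := Finset.prod_eq_zero (Finset.mem_univ i) (by rw [hi]; simp)
    rw [this]
    ring
  let s : κ → ℂ := fun i => (((Real.sqrt (d i))⁻¹ : ℝ) : ℂ)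
  refine ⟨U * Matrix.diagonal s, ?_, ?_⟩
  · rw [Matrix.det_mul, Matrix.det_diagonal]
    apply mul_ne_zero hUdet
    rw [Finset.prod_ne_zero_iff]
    intro i _
    simp only [s]
    have : Real.sqrt (d i) ≠ 0 :=
      (Real.sqrt_pos.mpr (lt_of_le_of_ne (hd i) (hdpos i).symm)).ne'
    exact_mod_cast inv_ne_zero this
  · rw [hAU, Matrix.conjTranspose_mul]
    have h1 : (Matrix.diagonal s)ᴴ = Matrix.diagonal s := by
      rw [Matrix.diagonal_conjTranspose]
      congr 1
      funext i
      simp only [s, Pi.star_apply]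
      exact Complex.conj_ofReal _
    rw [h1]
    calc Matrix.diagonal s * Uᴴ * (U * Matrix.diagonal (fun i => (d i : ℂ)) * Uᴴ) *
          (U * Matrix.diagonal s)
        = Matrix.diagonal s * (Uᴴ * U) * Matrix.diagonal (fun i => (d i : ℂ)) * (Uᴴ * U) *
          Matrix.diagonal s := by simp only [Matrix.mul_assoc]
      _ = 1 := by
        rw [hU1, Matrix.mul_one, Matrix.mul_one, Matrix.diagonal_mul_diagonal,
          Matrix.diagonal_mul_diagonal, ← Matrix.diagonal_one]
        congr 1
        funext i
        simp only [s]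
        have h2 : 0 < Real.sqrt (d i) := Real.sqrt_pos.mpr (lt_of_le_of_ne (hd i) (hdpos i).symm)
        have h3 : (Real.sqrt (d i))⁻¹ * d i * (Real.sqrt (d i))⁻¹ = 1 := by
          have h4 : d i = Real.sqrt (d i) * Real.sqrt (d i) := (Real.mul_self_sqrt (hd i)).symm
          calc (Real.sqrt (d i))⁻¹ * d i * (Real.sqrt (d i))⁻¹
              = (Real.sqrt (d i))⁻¹ * (Real.sqrt (d i) * Real.sqrt (d i)) * (Real.sqrt (d i))⁻¹ := by
                rw [← h4]
            _ = 1 := by field_simp
        exact_mod_cast h3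

/-- The quadratic pencil. -/
noncomputable def qp (A B : Matrix κ κ ℂ) : Matrix κ κ (Polynomial ℂ) :=
  1 + (Polynomial.X : Polynomial ℂ) • A.map Polynomial.C
    + (Polynomial.X ^ 2 : Polynomial ℂ) • B.map Polynomial.C

theorem eval_qp (A B : Matrix κ κ ℂ) (t : ℂ) :
    (qp A B).det.eval t = (1 + t • A + t ^ 2 • B).det := by
  have h := (Polynomial.evalRingHom t).map_det (qp A B)
  change (Polynomial.evalRingHom t) _ = _
  rw [h]
  congr 1
  ext i j
  unfold qp
  by_cases hij : i = j
  · subst hij
    simp only [RingHom.mapMatrix_apply, Matrix.map_apply, Matrix.add_apply, Matrix.one_apply_eq,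
      Matrix.smul_apply, smul_eq_mul, Polynomial.coe_evalRingHom, Polynomial.eval_add,
      Polynomial.eval_one, Polynomial.eval_mul, Polynomial.eval_pow, Polynomial.eval_X,
      Polynomial.eval_C]
  · simp only [RingHom.mapMatrix_apply, Matrix.map_apply, Matrix.add_apply, Matrix.one_apply_ne hij,
      Matrix.smul_apply, smul_eq_mul, Polynomial.coe_evalRingHom, Polynomial.eval_add,
      Polynomial.eval_zero, Polynomial.eval_mul, Polynomial.eval_pow, Polynomial.eval_X,
      Polynomial.eval_C]

theorem deriv_qp (A B : Matrix κ κ ℂ) :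
    (Polynomial.derivative (qp A B).det).eval 0 = A.trace := by
  rw [derivative_det]
  have h1 : ∀ M : Matrix κ κ (Polynomial ℂ), M.trace.eval 0 =
      (M.map (Polynomial.evalRingHom (0 : ℂ))).trace := by
    intro M
    unfold Matrix.trace
    rw [Polynomial.eval_finsetSum]
    rfl
  rw [h1, Matrix.map_mul]
  have h2 : (qp A B).adjugate.map (Polynomial.evalRingHom (0 : ℂ)) = 1 := by
    have h3 := (Polynomial.evalRingHom (0 : ℂ)).map_adjugate (qp A B)
    have h4 : (Polynomial.evalRingHom (0 : ℂ)).mapMatrix (qp A B) = 1 := by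
      ext i j
      unfold qp
      by_cases hij : i = j
      · subst hij
        simp
      · simp [Matrix.one_apply_ne hij]
    rw [h4, Matrix.adjugate_one] at h3
    exact h3
  have h5 : ((qp A B).map (fun p => Polynomial.derivative p)).map
      (Polynomial.evalRingHom (0 : ℂ)) = A := by
    ext i j
    unfold qp
    by_cases hij : i = j
    · subst hij
      simp
    · simp [Matrix.one_apply_ne hij]
  rw [h2, h5, Matrix.one_mul]

theorem hasDerivAt_qp (A B : Matrix κ κ ℂ) :
    HasDerivAt (fun t : ℝ => ((qp A B).det.eval (t : ℂ)).re) (A.trace).re 0 := by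
  have h := (qp A B).det.hasDerivAt (((0 : ℝ) : ℂ))
  rw [Complex.ofReal_zero, deriv_qp] at h
  have h2 : HasDerivAt (fun x : ℂ => (qp A B).det.eval x) A.trace ((0 : ℝ) : ℂ) := by
    rw [Complex.ofReal_zero]
    exact h
  exact h2.real_of_complex

/-- First order condition. -/
theorem first_order (A B : Matrix ι ι ℂ) (A' B' : Matrix κ κ ℂ) (n N : ℕ)
    (h : ∀ t : ℝ, ((1 + (t : ℂ) • A + (t : ℂ) ^ 2 • B).det.re) ^ N ≤
      ((1 + (t : ℂ) • A' + (t : ℂ) ^ 2 • B').det.re) ^ n) :
    (N : ℝ) * A.trace.re = (n : ℝ) * A'.trace.re := by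
  have h1 := hasDerivAt_qp A B
  have h2 := hasDerivAt_qp A' B'
  have e1 : ((qp A B).det.eval (((0 : ℝ)) : ℂ)).re = 1 := by
    rw [eval_qp]
    simp
  have e2 : ((qp A' B').det.eval (((0 : ℝ)) : ℂ)).re = 1 := by
    rw [eval_qp]
    simp
  have h3 := (h2.fun_pow n).fun_sub (h1.fun_pow N)
  rw [e1, e2, one_pow, one_pow] at h3
  have hmin : IsLocalMin (fun t : ℝ => ((qp A' B').det.eval (t : ℂ)).re ^ n
      - ((qp A B).det.eval (t : ℂ)).re ^ N) 0 := by
    apply Filter.Eventually.of_forall
    intro t
    simp only
    rw [e1, e2, one_pow, one_pow, sub_self, eval_qp, eval_qp, sub_nonneg]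
    exact h t
  have h4 := hmin.hasDerivAt_eq_zero h3
  linarith

omit [DecidableEq ι] [DecidableEq κ] in
theorem GPos.herm {K : ι → ι → Matrix κ κ ℂ} (hK : GPos K) [DecidableEq ι] (a b : ι) :
    (K a b)ᴴ = K b a := by
  have hD : ∀ v : ι → ℂ, ∑ c, ∑ d, (star (v c) * v d) • ((K d c)ᴴ - K c d) = 0 := by
    intro v
    have h1 := (hK v).isHermitian
    unfold Matrix.IsHermitian frm at h1
    rw [Matrix.conjTranspose_sum] at h1
    simp only [Matrix.conjTranspose_sum, Matrix.conjTranspose_smul, star_mul', star_star] at h1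
    rw [Finset.sum_comm] at h1
    simp only [smul_sub, Finset.sum_sub_distrib]
    rw [sub_eq_zero, ← h1]
    apply Finset.sum_congr rfl
    intro c _
    apply Finset.sum_congr rfl
    intro d _
    rw [mul_comm]
  have hdiag : ∀ c, (K c c)ᴴ - K c c = 0 := by
    intro c
    have h1 := hD (Pi.single c 1)
    rw [Finset.sum_eq_single c] at h1
    · rw [Finset.sum_eq_single c] at h1
      · simpa using h1
      · intro d _ hd
        simp [hd]
      · simp
    · intro d _ hd
      apply Finset.sum_eq_zero
      intro e _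
      simp [hd]
    · simp
  by_cases hab : a = b
  · subst hab
    exact sub_eq_zero.mp (hdiag a)
  · have hpair : ∀ x : ℂ, (star x) • ((K b a)ᴴ - K a b) + x • ((K a b)ᴴ - K b a) = 0 := by
      intro x
      have h1 := hD (fun c => if c = a then x else if c = b then 1 else 0)
      have h2 : ∀ c d, (star (if c = a then x else if c = b then (1:ℂ) else 0) *
          (if d = a then x else if d = b then 1 else 0)) • ((K d c)ᴴ - K c d) =
          (if c = a then (if d = b then (star x) • ((K b a)ᴴ - K a b) else 0) else 0) +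
          (if c = b then (if d = a then x • ((K a b)ᴴ - K b a) else 0) else 0) := by
        intro c d
        by_cases hca : c = a
        · subst hca
          by_cases hda : d = c
          · subst hda
            simp [hdiag, hab]
          · by_cases hdb : d = b
            · subst hdb
              simp [hda, Ne.symm hda]
            · simp [hda, hdb]
        · by_cases hcb : c = b
          · subst hcb
            by_cases hda : d = a
            · subst hda
              simp [hca]
            · by_cases hdb : d = c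
              · subst hdb
                simp [hca, hdiag]
              · simp [hca, hda, hdb]
          · simp [hca, hcb]
      simp only [h2] at h1
      simpa [Finset.sum_add_distrib] using h1
    have h1 := hpair 1
    have h2 := hpair Complex.I
    have h3 : star Complex.I = -Complex.I := Complex.conj_I
    rw [h3] at h2
    rw [star_one, one_smul, one_smul] at h1
    have h4 : (K b a)ᴴ - K a b = -((K a b)ᴴ - K b a) := eq_neg_of_add_eq_zero_left h1
    rw [h4, smul_neg, neg_smul, neg_neg, ← two_smul ℂ, smul_smul, smul_eq_zero] at h2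
    rcases h2 with h2 | h2
    · exfalso
      have : (2 : ℂ) * Complex.I ≠ 0 := mul_ne_zero two_ne_zero Complex.I_ne_zero
      exact this h2
    · exact sub_eq_zero.mp h2

end Pool.Agent.MP2e24f1
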