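import Pool.Agent.Lib.MP_2e24f1_ag.Scaling2

/-! Normalisation theorem and reduction of the positivity of powers of the determinant to
normalised systems. -/

namespace Pool.Agent.MP2e24f1

open Matrix
open scoped ComplexOrder

variable {ι κ : Type*} [Fintype ι] [DecidableEq ι] [Fintype κ] [DecidableEq κ]

theorem det_conj_mul_self (X : Matrix ι ι ℂ) :
    (Xᴴ * X).det = ((Complex.normSq X.det : ℝ) : ℂ) := by
  rw [Matrix.det_mul, Matrix.det_conjTranspose, ← Complex.mul_conj, mul_comm]
  rfl

/-- Normalised systems. -/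
structure Normal (K : ι → ι → Matrix κ κ ℂ) : Prop where
  pos : GPos K
  unit : ∑ a, K a a = 1
  tr : ∀ a b, (Fintype.card ι : ℂ) * (K a b).trace = if a = b then (Fintype.card κ : ℂ) else 0

theorem normalise [Nonempty ι] [Nonempty κ] {K : ι → ι → Matrix κ κ ℂ} (hK : GPosS K) :
    ∃ (B0 : Matrix ι ι ℂ) (Q : Matrix κ κ ℂ), B0.det ≠ 0 ∧ Q.det ≠ 0 ∧
      Normal (fun a b => Qᴴ * trn K B0 a b * Q) := by
  obtain ⟨B0, hB0, hmax⟩ := exists_max hK
  have hdenB0 := den_pos hK hB0
  have hdet : B0.det ≠ 0 := by
    intro h0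
    have h1 := hmax 1
    have h2 : num κ (1 : Matrix ι ι ℂ) = 1 := by
      unfold num
      simp
    have h3 : num κ B0 = 0 := by
      unfold num
      rw [h0, map_zero, zero_pow (Fintype.card_pos.ne')]
    rw [h2, h3, one_mul, zero_mul] at h1
    linarith
  obtain ⟨Q, hQdet, hQ⟩ := exists_whiten (lam_posDef hK hB0)
  refine ⟨B0, Q, hdet, hQdet, ?_⟩
  set K' : ι → ι → Matrix κ κ ℂ := fun a b => Qᴴ * trn K B0 a b * Q with hK'
  have hpos : GPos K' := (hK.gpos.trn B0).conj Q
  have hlam : ∀ M : Matrix ι ι ℂ, lam K' M = Qᴴ * lam K (B0ᴴ * M * B0) * Q := by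
    intro M
    rw [hK', lam_conjQ, lam_trn]
  have hone : lam K' 1 = 1 := by
    rw [hlam, Matrix.mul_one, hQ]
  have hunit : ∑ a, K' a a = 1 := by
    rw [← hone]
    unfold lam
    apply Finset.sum_congr rfl
    intro a _
    rw [Finset.sum_eq_single a]
    · simp
    · intro b _ hb
      rw [Matrix.one_apply_ne hb.symm, zero_smul]
    · simp
  have hfo : ∀ H : Matrix ι ι ℂ, (Fintype.card κ : ℝ) * (H + Hᴴ).trace.re =
      (Fintype.card ι : ℝ) * (lam K' (H + Hᴴ)).trace.re := by
    intro H
    apply first_order (H + Hᴴ) (Hᴴ * H) (lam K' (H + Hᴴ)) (lam K' (Hᴴ * H))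
    intro t
    let X : Matrix ι ι ℂ := 1 + (t : ℂ) • H
    have hX : Xᴴ * X = 1 + (t : ℂ) • (H + Hᴴ) + (t : ℂ) ^ 2 • (Hᴴ * H) := by
      simp only [X]
      rw [Matrix.conjTranspose_add, Matrix.conjTranspose_one, Matrix.conjTranspose_smul]
      have : star (t : ℂ) = t := Complex.conj_ofReal t
      rw [this, Matrix.add_mul, Matrix.mul_add, Matrix.mul_add, Matrix.one_mul, Matrix.one_mul,
        Matrix.mul_one, Matrix.smul_mul, Matrix.mul_smul, smul_smul, smul_add, sq]
      abel
    have hlX : 1 + (t : ℂ) • lam K' (H + Hᴴ) + (t : ℂ) ^ 2 • lam K' (Hᴴ * H) =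
        lam K' (Xᴴ * X) := by
      rw [hX]
      simp only [lam_add, lam_smul, hone]
    rw [hlX, ← hX]
    have h1 := hmax (X * B0)
    unfold num den at h1
    have e1 : (X * B0)ᴴ * (X * B0) = B0ᴴ * (Xᴴ * X) * B0 := by
      rw [Matrix.conjTranspose_mul]
      simp only [Matrix.mul_assoc]
    rw [e1, Matrix.det_mul, map_mul, mul_pow] at h1
    have hnB0 : 0 < (Complex.normSq B0.det) ^ (Fintype.card κ) :=
      pow_pos (Complex.normSq_pos.mpr hdet) _
    have h2 : Complex.normSq X.det ^ Fintype.card κ *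
        (lam K (B0ᴴ * B0)).det.re ^ Fintype.card ι ≤
        (lam K (B0ᴴ * (Xᴴ * X) * B0)).det.re ^ Fintype.card ι := by
      apply le_of_mul_le_mul_left _ hnB0
      calc _ = Complex.normSq X.det ^ Fintype.card κ * Complex.normSq B0.det ^ Fintype.card κ *
          (lam K (B0ᴴ * B0)).det.re ^ Fintype.card ι := by ring
        _ ≤ _ := h1
    have hdQ : ∀ M : Matrix κ κ ℂ, (Qᴴ * M * Q).det.re = Complex.normSq Q.det * M.det.re := by
      intro M
      rw [Matrix.det_mul, Matrix.det_mul, Matrix.det_conjTranspose]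
      have : star Q.det * M.det * Q.det = ((Complex.normSq Q.det : ℝ) : ℂ) * M.det := by
        rw [← Complex.mul_conj]
        change (starRingEnd ℂ) Q.det * M.det * Q.det = _
        ring
      rw [this, Complex.re_ofReal_mul]
    have h3 : Complex.normSq Q.det * (lam K (B0ᴴ * B0)).det.re = 1 := by
      rw [← hdQ, hQ]
      simp
    rw [det_conj_mul_self, Complex.ofReal_re, hlam, hdQ, mul_pow]
    have h4 : 0 ≤ Complex.normSq Q.det ^ Fintype.card ι := pow_nonneg (Complex.normSq_nonneg _) _
    calc Complex.normSq X.det ^ Fintype.card κ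
        = Complex.normSq Q.det ^ Fintype.card ι * (Complex.normSq X.det ^ Fintype.card κ *
          (lam K (B0ᴴ * B0)).det.re ^ Fintype.card ι) := by
          calc _ = Complex.normSq X.det ^ Fintype.card κ *
                (Complex.normSq Q.det * (lam K (B0ᴴ * B0)).det.re) ^ Fintype.card ι := by
                rw [h3, one_pow, mul_one]
            _ = _ := by rw [mul_pow]; ring
      _ ≤ _ := mul_le_mul_of_nonneg_left h2 h4
  refine ⟨hpos, hunit, ?_⟩
  set T : ι → ι → ℂ := fun a b => (Fintype.card ι : ℂ) * (K' a b).trace -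
    (if a = b then (Fintype.card κ : ℂ) else 0) with hT
  have hTherm : ∀ a b, T b a = star (T a b) := by
    intro a b
    simp only [hT]
    rw [star_sub, star_mul', ← hpos.herm a b, Matrix.trace_conjTranspose]
    have e1 : star (Fintype.card ι : ℂ) = (Fintype.card ι : ℂ) := by simp
    have e2 : star (if a = b then (Fintype.card κ : ℂ) else 0) =
        if b = a then (Fintype.card κ : ℂ) else 0 := by
      by_cases h : a = b
      · rw [if_pos h, if_pos h.symm]; simp
      · rw [if_neg h, if_neg (Ne.symm h)]; simp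
    rw [e1, e2]
  have h1 := hfo (Matrix.of fun a b => star (T a b) / 2)
  have hA : (Matrix.of fun a b => star (T a b) / 2) + (Matrix.of fun a b => star (T a b) / 2)ᴴ =
      Matrix.of fun a b => star (T a b) := by
    ext a b
    simp only [Matrix.add_apply, Matrix.of_apply, Matrix.conjTranspose_apply]
    rw [hTherm a b]
    have : star (star (star (T a b)) / 2) = star (T a b) / 2 := by
      rw [star_div₀, star_star]
      simp
    rw [this]
    ring
  rw [hA] at h1
  have h2 : ∑ a, ∑ b, star (T a b) * T a b = (Fintype.card ι : ℂ) *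
      (lam K' (Matrix.of fun a b => star (T a b))).trace -
      (Fintype.card κ : ℂ) * (Matrix.of fun a b => star (T a b)).trace := by
    unfold lam Matrix.trace
    have e1 : ∀ a b, star (T a b) * T a b = (Fintype.card ι : ℂ) * (star (T a b) * (K' a b).trace)
        - (if a = b then (Fintype.card κ : ℂ) * star (T a b) else 0) := by
      intro a b
      have : T a b = (Fintype.card ι : ℂ) * (K' a b).trace -
        (if a = b then (Fintype.card κ : ℂ) else 0) := rfl
      rw [this]
      split_ifs <;> ring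
    simp only [e1]
    simp only [Finset.sum_sub_distrib, Finset.sum_ite_eq, Finset.mem_univ, if_true,
      ← Finset.mul_sum]
    congr 2
    simp only [Matrix.diag_apply, Matrix.sum_apply, Matrix.smul_apply, Matrix.of_apply,
      smul_eq_mul]
    rw [Finset.sum_comm' (s := Finset.univ) (t := fun _ => Finset.univ) (t' := Finset.univ)
      (s' := fun _ => Finset.univ) (by simp)]
    rw [Finset.sum_comm]
    symm
    rw [Finset.sum_comm]
    apply Finset.sum_congr rfl
    intro a _
    rw [Finset.sum_comm]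
    apply Finset.sum_congr rfl
    intro b _
    unfold Matrix.trace
    rw [Finset.mul_sum]
    rfl
  have h3 : (∑ a, ∑ b, star (T a b) * T a b).re = 0 := by
    rw [h2]
    simp only [Complex.sub_re]
    have e1 : ∀ (n : ℕ) (z : ℂ), ((n : ℂ) * z).re = (n : ℝ) * z.re := by
      intro n z
      have : (n : ℂ) = ((n : ℝ) : ℂ) := by simp
      rw [this, Complex.re_ofReal_mul]
    rw [e1, e1, h1]
    ring
  have h4 : ∑ a, ∑ b, Complex.normSq (T a b) = 0 := by
    rw [← h3]
    simp only [Complex.re_sum]
    apply Finset.sum_congr rfl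
    intro a _
    apply Finset.sum_congr rfl
    intro b _
    have : star (T a b) * T a b = ((Complex.normSq (T a b) : ℝ) : ℂ) := by
      rw [← Complex.mul_conj, mul_comm]
      rfl
    rw [this, Complex.ofReal_re]
  intro a b
  have h5 := (Finset.sum_eq_zero_iff_of_nonneg (fun a _ =>
    Finset.sum_nonneg (fun b _ => Complex.normSq_nonneg (T a b)))).mp h4 a (Finset.mem_univ a)
  have h6 := (Finset.sum_eq_zero_iff_of_nonneg (fun b _ =>
    Complex.normSq_nonneg (T a b))).mp h5 b (Finset.mem_univ b)
  have h7 : T a b = 0 := Complex.normSq_eq_zero.mp h6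
  exact sub_eq_zero.mp h7

end Pool.Agent.MP2e24f1
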