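import Pool.Agent.Lib.MP_2e24f1_ag.TopCoeff3

/-! Positive systems of matrices, the spectral decomposition, and the removal of a positive
linear factor from the top coefficient. -/

namespace Pool.Agent.MP2e24f1

open Matrix
open scoped ComplexOrder

theorem psd_spectral {κ : Type*} [Fintype κ] [DecidableEq κ] (A : Matrix κ κ ℂ)
    (hA : A.PosSemidef) :
    ∃ (U : Matrix κ κ ℂ) (d : κ → ℝ), (∀ i, 0 ≤ d i) ∧ Uᴴ * U = 1 ∧ U * Uᴴ = 1 ∧
      A = U * Matrix.diagonal (fun i => (d i : ℂ)) * Uᴴ := by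
  refine ⟨(hA.1.eigenvectorUnitary : Matrix κ κ ℂ), hA.1.eigenvalues, hA.eigenvalues_nonneg,
    ?_, ?_, ?_⟩
  · exact (Unitary.mem_iff.mp hA.1.eigenvectorUnitary.2).1
  · exact (Unitary.mem_iff.mp hA.1.eigenvectorUnitary.2).2
  · have h := hA.1.spectral_theorem
    rw [Unitary.conjStarAlgAut_apply] at h
    exact h

/-- Sum `∑ (star v_a) v_b K_ab`. -/
noncomputable def frm {ι κ : Type*} [Fintype ι] (K : ι → ι → Matrix κ κ ℂ) (v : ι → ℂ) :
    Matrix κ κ ℂ := ∑ a, ∑ b, (star (v a) * v b) • K a b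

/-- Semipositive systems. -/
def GPos {ι κ : Type*} [Fintype ι] [Fintype κ] (K : ι → ι → Matrix κ κ ℂ) : Prop :=
  ∀ v : ι → ℂ, (frm K v).PosSemidef

theorem frm_conj {ι κ κ' : Type*} [Fintype ι] [Fintype κ] [Fintype κ']
    (K : ι → ι → Matrix κ κ ℂ) (P : Matrix κ κ' ℂ) (v : ι → ℂ) :
    frm (fun a b => Pᴴ * K a b * P) v = Pᴴ * frm K v * P := by
  unfold frm
  simp only [Matrix.mul_sum, Matrix.sum_mul]
  apply Finset.sum_congr rfl
  intro a _
  apply Finset.sum_congr rfl
  intro b _
  rw [Matrix.mul_smul, Matrix.smul_mul]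

theorem GPos.conj {ι κ κ' : Type*} [Fintype ι] [Fintype κ] [Fintype κ']
    {K : ι → ι → Matrix κ κ ℂ} (hK : GPos K) (P : Matrix κ κ' ℂ) :
    GPos (fun a b => Pᴴ * K a b * P) := by
  intro v
  rw [frm_conj]
  exact (hK v).conjTranspose_mul_mul_same P

theorem GPos.submatrix {ι κ κ' : Type*} [Fintype ι] [Fintype κ] [Fintype κ']
    {K : ι → ι → Matrix κ κ ℂ} (hK : GPos K) (e : κ' → κ) :
    GPos (fun a b => (K a b).submatrix e e) := by
  intro v
  have : frm (fun a b => (K a b).submatrix e e) v = (frm K v).submatrix e e := by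
    unfold frm
    ext p q
    simp only [Matrix.sum_apply, Matrix.smul_apply, Matrix.submatrix_apply]
  rw [this]
  exact (hK v).submatrix e

/-- Linear forms attached to a system. -/
noncomputable def sysLin {ι : Type*} {k : ℕ} (K : ι → ι → Matrix (Fin k) (Fin k) ℂ) :
    Matrix ι ι (PolyForms k) := Matrix.of fun a b => lin (K a b)

theorem sub_sysLin {ι : Type*} {k : ℕ} (K : ι → ι → Matrix (Fin k) (Fin k) ℂ)
    (P : Matrix (Fin k) (Fin k) ℂ) :
    (sysLin K).map (sub P) = sysLin (fun a b => Pᵀ * K a b * P.map star) := by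
  ext a b : 2
  simp only [sysLin, Matrix.map_apply, Matrix.of_apply, sub_lin]

theorem res_sysLin {ι : Type*} {k : ℕ} (K : ι → ι → Matrix (Fin (k + 1)) (Fin (k + 1)) ℂ)
    (s : Fin (k + 1)) :
    (sysLin K).map (res s) = sysLin (fun a b => (K a b).submatrix s.succAbove s.succAbove) := by
  ext a b : 2
  simp only [sysLin, Matrix.map_apply, Matrix.of_apply, res_lin]

theorem det_sysLin_homogeneous {ι : Type*} [Fintype ι] [DecidableEq ι] {k : ℕ}
    (K : ι → ι → Matrix (Fin k) (Fin k) ℂ) :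
    (sysLin K).det.IsHomogeneous (Fintype.card ι) := by
  rw [Matrix.det_apply]
  apply MvPolynomial.IsHomogeneous.sum
  intro σ _
  have h1 : (∏ i, sysLin K (σ i) i).IsHomogeneous (Fintype.card ι) := by
    have := MvPolynomial.IsHomogeneous.prod Finset.univ (fun i => sysLin K (σ i) i) (fun _ => 1)
      (fun i _ => lin_homogeneous _)
    simpa using this
  rcases Int.units_eq_one_or (Equiv.Perm.sign σ) with h | h
  · rw [h, one_smul]
    exact h1
  · rw [h]
    have : (-1 : ℤˣ) • ∏ i, sysLin K (σ i) i = (-1 : ℂ) • ∏ i, sysLin K (σ i) i := by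
      simp
    rw [this, MvPolynomial.smul_eq_C_mul]
    have h2 := (MvPolynomial.isHomogeneous_C (Fin k × Fin k) (-1 : ℂ)).mul h1
    simpa using h2

theorem nonneg_of_mul_pos {c x : ℂ} (hc : 0 < c) (h : 0 ≤ c * x) : 0 ≤ x := by
  have hc' := Complex.pos_iff.mp hc
  have hcr : c = ((c.re : ℝ) : ℂ) := by
    apply Complex.ext
    · simp
    · simp [← hc'.2]
  have hne : c ≠ 0 := hc.ne'
  have hx : x = ((c.re⁻¹ : ℝ) : ℂ) * (c * x) := by
    rw [Complex.ofReal_inv, ← hcr, ← mul_assoc, inv_mul_cancel₀ hne, one_mul]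
  rw [hx]
  apply mul_nonneg _ h
  exact_mod_cast (inv_pos.mpr hc'.1).le

theorem det_map_star_pos {k : ℕ} {U : Matrix (Fin k) (Fin k) ℂ} (hU : U.det ≠ 0) :
    0 < (U.map star).det * star (U.map star).det := by
  have hne : (U.map star).det ≠ 0 := by
    intro h0
    have h1 := (starRingEnd ℂ).map_det U
    have h2 : ((starRingEnd ℂ).mapMatrix U) = U.map star := rfl
    rw [h2, h0] at h1
    exact hU ((map_eq_zero (starRingEnd ℂ)).mp h1)
  have := Complex.mul_conj ((U.map star).det)
  change 0 < (U.map star).det * (starRingEnd ℂ) (U.map star).det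
  rw [this]
  exact_mod_cast Complex.normSq_pos.mpr hne

theorem star_conj {k : ℕ} (U M : Matrix (Fin k) (Fin k) ℂ) :
    (U.map star)ᵀ * M * (U.map star).map star = Uᴴ * M * U := by
  have e1 : (U.map star)ᵀ = Uᴴ := by
    rw [Matrix.conjTranspose, Matrix.transpose_map]
  have e2 : (U.map star).map star = U := by
    ext a b
    simp
  rw [e1, e2]

theorem topCoeff_nonneg_of_sub {k : ℕ} {F : PolyForms k} (hF : F.IsHomogeneous k)
    {U : Matrix (Fin k) (Fin k) ℂ} (hU : U.det ≠ 0)
    (h : 0 ≤ topCoeff k (sub (U.map star) F)) : 0 ≤ topCoeff k F := by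
  rw [topCoeff_sub _ hF] at h
  exact nonneg_of_mul_pos (det_map_star_pos hU) h

theorem sub_homogeneous {k n : ℕ} (P : Matrix (Fin k) (Fin k) ℂ) {F : PolyForms k}
    (hF : F.IsHomogeneous n) : (sub P F).IsHomogeneous n := by
  have := hF.aeval (fun x : Fin k × Fin k => lin (Matrix.vecMulVec (P x.1) (fun j => star (P x.2 j))))
    (n := 1) (fun x => lin_homogeneous _)
  rw [one_mul] at this
  exact this

theorem peel_step {k : ℕ} {A : Matrix (Fin (k + 1)) (Fin (k + 1)) ℂ} (hA : A.PosSemidef)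
    {F : PolyForms (k + 1)} (hF : F.IsHomogeneous k)
    (h : ∀ (U : Matrix (Fin (k + 1)) (Fin (k + 1)) ℂ) (s : Fin (k + 1)),
      0 ≤ topCoeff k (res s (sub (U.map star) F))) :
    0 ≤ topCoeff (k + 1) (lin A * F) := by
  obtain ⟨U, d, hd, hU1, hU2, hA0⟩ := psd_spectral A hA
  have hUdet : U.det ≠ 0 := by
    intro h0
    have := congrArg Matrix.det hU1
    rw [Matrix.det_mul, h0, mul_zero, Matrix.det_one] at this
    exact zero_ne_one this
  have hF1 : (lin A * F).IsHomogeneous (k + 1) := by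
    have := (lin_homogeneous A).mul hF
    rwa [add_comm 1 k] at this
  apply topCoeff_nonneg_of_sub hF1 hUdet
  have hdiag : Uᴴ * A * U = Matrix.diagonal (fun i => (d i : ℂ)) := by
    rw [hA0, ← Matrix.mul_assoc, ← Matrix.mul_assoc, hU1, Matrix.one_mul, Matrix.mul_assoc,
      hU1, Matrix.mul_one]
  rw [map_mul, sub_lin, star_conj, hdiag, topCoeff_diag_mul _ (sub_homogeneous _ hF)]
  apply Finset.sum_nonneg
  intro s _
  apply mul_nonneg
  · exact_mod_cast hd s
  · exact h U s

theorem sub_det_sysLin {ι : Type*} [Fintype ι] [DecidableEq ι] {k : ℕ}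
    (K : ι → ι → Matrix (Fin k) (Fin k) ℂ) (U : Matrix (Fin k) (Fin k) ℂ) :
    sub (U.map star) (sysLin K).det = (sysLin (fun a b => Uᴴ * K a b * U)).det := by
  have h1 := (sub (U.map star)).toRingHom.map_det (sysLin K)
  change (sub (U.map star)).toRingHom _ = _
  rw [h1]
  congr 1
  have h2 := sub_sysLin K (U.map star)
  simp only [star_conj] at h2
  exact h2

theorem res_det_sysLin {ι : Type*} [Fintype ι] [DecidableEq ι] {k : ℕ}
    (K : ι → ι → Matrix (Fin (k + 1)) (Fin (k + 1)) ℂ) (s : Fin (k + 1)) :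
    res s (sysLin K).det =
      (sysLin (fun a b => (K a b).submatrix s.succAbove s.succAbove)).det := by
  have h1 := (res s).toRingHom.map_det (sysLin K)
  change (res s).toRingHom _ = _
  rw [h1]
  congr 1
  exact res_sysLin _ s

/-- A power of a positive linear factor can be removed. -/
theorem peel {ι : Type*} [Fintype ι] [DecidableEq ι] (m : ℕ)
    (hbase : ∀ k, k = Fintype.card ι * m → ∀ K : ι → ι → Matrix (Fin k) (Fin k) ℂ,
      GPos K → 0 ≤ topCoeff k ((sysLin K).det ^ m)) (j : ℕ) :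
    ∀ k, k = Fintype.card ι * m + j → ∀ (A : Matrix (Fin k) (Fin k) ℂ)
      (K : ι → ι → Matrix (Fin k) (Fin k) ℂ), A.PosSemidef → GPos K →
      0 ≤ topCoeff k (lin A ^ j * (sysLin K).det ^ m) := by
  induction j with
  | zero =>
    intro k hk A K _ hK
    rw [pow_zero, one_mul]
    exact hbase k (by rw [hk, add_zero]) K hK
  | succ j ih =>
    intro k hk A K hA hK
    obtain ⟨k, rfl⟩ := Nat.exists_eq_succ_of_ne_zero (n := k) (by omega)
    have hk' : k = Fintype.card ι * m + j := by omega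
    rw [pow_succ', mul_assoc]
    apply peel_step hA
    · have h1 := (lin_homogeneous A).pow j
      have h2 := (det_sysLin_homogeneous K).pow m
      have h3 := h1.mul h2
      have e : 1 * j + Fintype.card ι * m = k := by omega
      rwa [e] at h3
    · intro U s
      rw [map_mul, map_pow, map_pow, map_mul, map_pow, map_pow, sub_lin, star_conj, sub_det_sysLin,
        res_lin, res_det_sysLin]
      exact ih k hk' _ _ ((hA.conjTranspose_mul_mul_same U).submatrix _)
        ((hK.conj U).submatrix _)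

end Pool.Agent.MP2e24f1
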