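import Pool.Agent.Lib.MP_2e24f1_ag.Sym

/-! The telescoping identity and its two applications. -/

namespace Pool.Agent.MP2e24f1

open Matrix

theorem telescoping {A B : Type*} [CommRing A] [CommRing B] (L : A →+ B) (δ : Derivation ℤ A A)
    (hL : ∀ x, L (δ x) = 0) (Z00 Z01 Z10 Z11 D : A) (hD : D = Z00 * Z11 - Z01 * Z10)
    (h00 : δ Z00 = -Z10) (h01 : δ Z01 = Z00 - Z11) (h10 : δ Z10 = 0) (h11 : δ Z11 = Z10)
    (j : ℕ) (m : ℕ) : ∀ c : ℕ,
    ((m : B) + j + 1) * L (Z00 ^ (m + j) * Z11 ^ m * D ^ c)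
      - (m : B) * L (Z00 ^ (m + j + 1) * Z11 ^ (m - 1) * D ^ c)
      = ((j : B) + 1) * L (Z00 ^ j * D ^ (m + c)) := by
  have hδD : δ D = 0 := by
    rw [hD, map_sub, Derivation.leibniz, Derivation.leibniz, h00, h01, h10, h11]
    simp only [smul_eq_mul]
    ring
  have hcast : ∀ (n : ℕ) (x : A), (n : B) * L x = L ((n : A) * x) := by
    intro n x
    rw [← nsmul_eq_mul, ← nsmul_eq_mul, map_nsmul]
  induction m with
  | zero =>
    intro c
    simp
  | succ m ih =>
    intro c
    have key := hL (Z00 ^ (m + j + 1) * Z11 ^ m * D ^ c * Z01)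
    have hd : δ (Z00 ^ (m + j + 1) * Z11 ^ m * D ^ c * Z01) =
        - (((m + j + 2 : ℕ) : A) * (Z00 ^ (m + 1 + j) * Z11 ^ (m + 1) * D ^ c))
        + ((m + 1 : ℕ) : A) * (Z00 ^ (m + 1 + j + 1) * Z11 ^ m * D ^ c)
        + ((m + j + 1 : ℕ) : A) * (Z00 ^ (m + j) * Z11 ^ m * D ^ (c + 1))
        - (m : A) * (Z00 ^ (m + j + 1) * Z11 ^ (m - 1) * D ^ (c + 1)) := by
      have hZ : Z10 * Z01 = Z00 * Z11 - D := by rw [hD]; ring
      rw [Derivation.leibniz, Derivation.leibniz, Derivation.leibniz, Derivation.leibniz_pow,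
        Derivation.leibniz_pow, Derivation.leibniz_pow, hδD, h00, h01, h11]
      simp only [smul_eq_mul, nsmul_eq_mul, Nat.add_sub_cancel, mul_zero, zero_add, add_zero]
      have e1 : Z01 * (Z11 ^ m * (((m + j + 1 : ℕ) : A) * (Z00 ^ (m + j) * -Z10))) =
          - (((m + j + 1 : ℕ) : A) * Z00 ^ (m + j) * Z11 ^ m * (Z10 * Z01)) := by ring
      rcases m with _ | m
      · simp only [Nat.cast_zero, zero_mul, mul_zero, pow_zero, zero_add, Nat.zero_sub]
        push_cast
        linear_combination (-(((j : A) + 1) * Z00 ^ j * D ^ c)) * hZ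
      · simp only [Nat.add_sub_cancel]
        push_cast
        linear_combination (-(((m : A) + 1 + j + 1) * Z00 ^ (m + 1 + j) * Z11 ^ (m + 1) * D ^ c)
          + ((m : A) + 1) * Z00 ^ (m + 1 + j + 1) * Z11 ^ m * D ^ c) * hZ
    rw [hd, map_sub, map_add, map_add, map_neg, ← hcast, ← hcast, ← hcast, ← hcast] at key
    have ih' := ih (c + 1)
    have e2 : m + 1 - 1 = m := rfl
    have e3 : m + 1 + c = m + (c + 1) := by ring
    rw [e2, e3, ← ih']
    push_cast at key ⊢
    linear_combination -key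

section unitary

variable {ι : Type*} [Fintype ι] [DecidableEq ι] {R : Type*} [CommRing R]

/-- The derivation attached to the infinitesimal transformation `N`. -/
noncomputable def dN (N : Matrix ι ι R) :
    Derivation R (MvPolynomial (ι ⊕ ι) R) (MvPolynomial (ι ⊕ ι) R) :=
  ∑ i, ∑ j, ((MvPolynomial.C (N i j) * MvPolynomial.X (Sum.inl j) : MvPolynomial (ι ⊕ ι) R) •
      MvPolynomial.pderiv (Sum.inl i)
    - (MvPolynomial.C (N i j) * MvPolynomial.X (Sum.inr i) : MvPolynomial (ι ⊕ ι) R) •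
      MvPolynomial.pderiv (Sum.inr j))

omit [Fintype ι] in
theorem pderiv_comm' (a b : ι) (p : MvPolynomial ι R) :
    MvPolynomial.pderiv a (MvPolynomial.pderiv b p) =
      MvPolynomial.pderiv b (MvPolynomial.pderiv a p) := by
  have h : ⁅(MvPolynomial.pderiv a : Derivation R (MvPolynomial ι R) (MvPolynomial ι R)),
      (MvPolynomial.pderiv b : Derivation R (MvPolynomial ι R) (MvPolynomial ι R))⁆ = 0 := by
    apply MvPolynomial.derivation_ext
    intro k
    rw [Derivation.commutator_apply, MvPolynomial.pderiv_X, MvPolynomial.pderiv_X]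
    simp only [Pi.single_apply, Derivation.zero_apply]
    split_ifs <;> simp
  have h2 := congrArg (fun D : Derivation R (MvPolynomial ι R) (MvPolynomial ι R) => D p) h
  simp only [Derivation.commutator_apply, Derivation.zero_apply] at h2
  exact sub_eq_zero.mp h2

theorem derivation_sum_apply {α A M : Type*} [CommRing A] [Algebra R A] [AddCommGroup M]
    [Module A M] [Module R M] (s : Finset α) (D : α → Derivation R A M) (x : A) :
    (∑ i ∈ s, D i) x = ∑ i ∈ s, D i x := by
  have h := map_sum (Derivation.coeFnAddMonoidHom (R := R) (A := A) (M := M)) D s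
  have h2 := congrFun h x
  rw [Finset.sum_apply] at h2
  exact h2

theorem dN_apply (N : Matrix ι ι R) (p : MvPolynomial (ι ⊕ ι) R) :
    dN N p = ∑ i, ∑ j, (MvPolynomial.C (N i j) * MvPolynomial.X (Sum.inl j) *
      MvPolynomial.pderiv (Sum.inl i) p
    - MvPolynomial.C (N i j) * MvPolynomial.X (Sum.inr i) * MvPolynomial.pderiv (Sum.inr j) p) := by
  unfold dN
  simp only [derivation_sum_apply, Derivation.sub_apply, Derivation.smul_apply,
    smul_eq_mul]

theorem gL_dN (N : Matrix ι ι R) (p : MvPolynomial (ι ⊕ ι) R) : gL ι R (dN N p) = 0 := by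
  rw [dN_apply, map_sum]
  apply Finset.sum_eq_zero
  intro i _
  rw [map_sum]
  apply Finset.sum_eq_zero
  intro j _
  rw [map_sub, mul_assoc, mul_assoc, gL_C_mul, gL_C_mul, gL_inl_mul, gL_inr_mul,
    pderiv_comm', sub_self]

theorem dN_inl (N : Matrix ι ι R) (l : ι) :
    dN N (MvPolynomial.X (Sum.inl l)) =
      ∑ j, MvPolynomial.C (N l j) * MvPolynomial.X (Sum.inl j) := by
  rw [dN_apply, Finset.sum_eq_single l]
  · apply Finset.sum_congr rfl
    intro j _
    rw [MvPolynomial.pderiv_X_self, MvPolynomial.pderiv_X_of_ne (by simp)]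
    ring
  · intro i _ hi
    apply Finset.sum_eq_zero
    intro j _
    rw [MvPolynomial.pderiv_X_of_ne (fun h => hi (Sum.inl_injective h).symm),
      MvPolynomial.pderiv_X_of_ne (by simp)]
    ring
  · simp

theorem dN_inr (N : Matrix ι ι R) (l : ι) :
    dN N (MvPolynomial.X (Sum.inr l)) =
      - ∑ i, MvPolynomial.C (N i l) * MvPolynomial.X (Sum.inr i) := by
  rw [dN_apply, ← Finset.sum_neg_distrib]
  apply Finset.sum_congr rfl
  intro i _
  rw [Finset.sum_eq_single l]
  · rw [MvPolynomial.pderiv_X_self, MvPolynomial.pderiv_X_of_ne (by simp)]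
    ring
  · intro j _ hj
    rw [MvPolynomial.pderiv_X_of_ne (fun h => hj (Sum.inr_injective h).symm), MvPolynomial.pderiv_X_of_ne (by simp)]
    ring
  · simp

theorem dN_quad (N M : Matrix ι ι R) : dN N (quad M) = quad (M * N - N * M) := by
  rw [quad_sub]
  have h1 : dN N (quad M) = (∑ i, MvPolynomial.X (Sum.inr i) *
      ∑ j, MvPolynomial.C (M i j) * ∑ l, MvPolynomial.C (N j l) * MvPolynomial.X (Sum.inl l))
      - ∑ i, (∑ l, MvPolynomial.C (N l i) * MvPolynomial.X (Sum.inr l)) *
      ∑ j, MvPolynomial.C (M i j) * MvPolynomial.X (Sum.inl j) := by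
    unfold quad
    rw [map_sum, ← Finset.sum_sub_distrib]
    apply Finset.sum_congr rfl
    intro i _
    rw [Derivation.leibniz, dN_inr, map_sum, smul_eq_mul, smul_eq_mul]
    have h2 : ∀ j, dN N (MvPolynomial.C (M i j) * MvPolynomial.X (Sum.inl j)) =
        MvPolynomial.C (M i j) * ∑ l, MvPolynomial.C (N j l) * MvPolynomial.X (Sum.inl l) := by
      intro j
      rw [← MvPolynomial.smul_eq_C_mul, Derivation.map_smul, dN_inl, MvPolynomial.smul_eq_C_mul]
    simp only [h2]
    ring
  rw [h1]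
  congr 1
  · unfold quad
    apply Finset.sum_congr rfl
    intro i _
    congr 1
    simp only [Matrix.mul_apply, map_sum, map_mul, Finset.mul_sum, Finset.sum_mul]
    rw [Finset.sum_comm]
    apply Finset.sum_congr rfl
    intro l _
    apply Finset.sum_congr rfl
    intro j _
    ring
  · unfold quad
    simp only [Matrix.mul_apply, map_sum, map_mul, Finset.mul_sum, Finset.sum_mul]
    rw [Finset.sum_congr rfl (fun i _ => Finset.sum_comm)]
    rw [Finset.sum_comm]
    apply Finset.sum_congr rfl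
    intro l _
    rw [Finset.sum_comm]
    apply Finset.sum_congr rfl
    intro j _
    apply Finset.sum_congr rfl
    intro i _
    ring

theorem quad_zero : quad (0 : Matrix ι ι R) = 0 := by
  unfold quad
  simp

end unitary

section two

variable {ι : Type*} [Fintype ι] [DecidableEq ι] {R : Type*} [CommRing R]

/-- The four quadratic forms in two vector variables. -/
noncomputable def Q00 (Y : Matrix ι ι R) : MvPolynomial ((ι ⊕ ι) ⊕ (ι ⊕ ι)) R :=
  quad (Matrix.fromBlocks Y 0 0 0)
/-- Mixed form. -/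
noncomputable def Q01 (Y : Matrix ι ι R) : MvPolynomial ((ι ⊕ ι) ⊕ (ι ⊕ ι)) R :=
  quad (Matrix.fromBlocks 0 Y 0 0)
/-- Mixed form. -/
noncomputable def Q10 (Y : Matrix ι ι R) : MvPolynomial ((ι ⊕ ι) ⊕ (ι ⊕ ι)) R :=
  quad (Matrix.fromBlocks 0 0 Y 0)
/-- Second form. -/
noncomputable def Q11 (Y : Matrix ι ι R) : MvPolynomial ((ι ⊕ ι) ⊕ (ι ⊕ ι)) R :=
  quad (Matrix.fromBlocks 0 0 0 Y)

theorem two_tele (Y : Matrix ι ι R) (j m : ℕ) :
    ((m : R) + j + 1) * gL (ι ⊕ ι) R (Q00 Y ^ (m + j) * Q11 Y ^ m)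
      - (m : R) * gL (ι ⊕ ι) R (Q00 Y ^ (m + j + 1) * Q11 Y ^ (m - 1))
      = ((j : R) + 1) * gL (ι ⊕ ι) R (Q00 Y ^ j * (Q00 Y * Q11 Y - Q01 Y * Q10 Y) ^ m) := by
  let N : Matrix (ι ⊕ ι) (ι ⊕ ι) R := Matrix.fromBlocks 0 0 1 0
  have h := telescoping (gL (ι ⊕ ι) R).toAddMonoidHom ((dN N).restrictScalars ℤ)
    (fun x => gL_dN N x) (Q00 Y) (Q01 Y) (Q10 Y) (Q11 Y) (Q00 Y * Q11 Y - Q01 Y * Q10 Y) rfl
    (by
      change dN N (quad _) = - quad _
      rw [dN_quad, ← quad_neg]
      congr 1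
      simp only [N, Matrix.fromBlocks_multiply]
      simp [Matrix.fromBlocks_neg, sub_eq_add_neg, Matrix.fromBlocks_add])
    (by
      change dN N (quad _) = quad _ - quad _
      rw [dN_quad, ← quad_sub]
      congr 1
      simp only [N, Matrix.fromBlocks_multiply]
      simp)
    (by
      change dN N (quad _) = 0
      rw [dN_quad]
      have : (Matrix.fromBlocks 0 0 Y 0 * N - N * Matrix.fromBlocks 0 0 Y 0) = 0 := by
        simp only [N, Matrix.fromBlocks_multiply]
        simp
      rw [this, quad_zero])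
    (by
      change dN N (quad _) = quad _
      rw [dN_quad]
      congr 1
      simp only [N, Matrix.fromBlocks_multiply]
      simp [sub_eq_add_neg, Matrix.fromBlocks_add, Matrix.fromBlocks_neg]) j m 0
  simpa using h

end two

end Pool.Agent.MP2e24f1
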