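import Mathlib

/-!
Algebra of the top coefficient: `PolyForms k` is the polynomial ring in `k * k` variables
standing for the two-forms `dz_p ∧ dz̄_q`; `topCoeff` reads off the coefficient of the volume form.
-/

namespace Pool.Agent.MP2e24f1

open MvPolynomial Matrix

variable {k : ℕ}

/-- Polynomial ring in variables standing for `dz_p ∧ dz̄_q`. -/
abbrev PolyForms (k : ℕ) := MvPolynomial (Fin k × Fin k) ℂ

/-- Exponent of the monomial `∏_j X (j, π j)`. -/
noncomputable def permExp (π : Equiv.Perm (Fin k)) : (Fin k × Fin k) →₀ ℕ :=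
  ∑ j, Finsupp.single (j, π j) 1

/-- The coefficient of the volume form. -/
noncomputable def topCoeff (k : ℕ) : PolyForms k →ₗ[ℂ] ℂ :=
  ∑ π : Equiv.Perm (Fin k), ((Equiv.Perm.sign π : ℤ) : ℂ) • MvPolynomial.lcoeff ℂ (permExp π)

/-- Sign of a self-map of `Fin k`, zero when it is not a bijection. -/
noncomputable def eps (a : Fin k → Fin k) : ℂ := ((1 : Matrix (Fin k) (Fin k) ℂ).submatrix a id).det

theorem eps_perm (σ : Equiv.Perm (Fin k)) : eps (σ : Fin k → Fin k) = ((Equiv.Perm.sign σ : ℤ) : ℂ) := by
  unfold eps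
  rw [Matrix.det_permute]
  simp

theorem eps_not_inj {a : Fin k → Fin k} (h : ¬ Function.Injective a) : eps a = 0 := by
  unfold eps
  simp only [Function.Injective, not_forall] at h
  obtain ⟨i, j, hij, hne⟩ := h
  apply Matrix.det_zero_of_row_eq hne
  ext c
  simp only [Matrix.submatrix_apply]
  rw [hij]

theorem permExp_apply (π : Equiv.Perm (Fin k)) (p q : Fin k) :
    permExp π (p, q) = if π p = q then 1 else 0 := by
  unfold permExp
  rw [Finsupp.finsetSum_apply]
  simp only [Finsupp.single_apply, Prod.mk.injEq]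
  by_cases h : π p = q
  · rw [if_pos h, Finset.sum_eq_single p]
    · simp [h]
    · intro b _ hb
      rw [if_neg]
      rintro ⟨h1, -⟩
      exact hb h1
    · simp
  · rw [if_neg h]
    apply Finset.sum_eq_zero
    intro b _
    rw [if_neg]
    rintro ⟨h1, h2⟩
    subst h1
    exact h h2

theorem permExp_injective : Function.Injective (permExp (k := k)) := by
  intro π ρ h
  ext p
  have h1 := permExp_apply π p (π p)
  rw [h, permExp_apply] at h1
  by_cases h2 : ρ p = π p
  · rw [h2]
  · simp [h2] at h1

theorem prod_X_eq_monomial (a b : Fin k → Fin k) :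
    (∏ i, (X (a i, b i) : PolyForms k)) = monomial (∑ i, Finsupp.single (a i, b i) 1) 1 := by
  rw [MvPolynomial.monomial_sum_one]
  rfl

theorem sum_single_perm (α β : Equiv.Perm (Fin k)) :
    (∑ i, Finsupp.single (α i, β i) 1 : (Fin k × Fin k) →₀ ℕ) = permExp (α.symm.trans β) := by
  unfold permExp
  rw [← Equiv.sum_comp α (fun j => Finsupp.single (j, (α.symm.trans β) j) 1)]
  simp

theorem fst_permExp (π : Equiv.Perm (Fin k)) (p : Fin k) : ∑ q, permExp π (p, q) = 1 := by
  simp [permExp_apply]

theorem snd_permExp (π : Equiv.Perm (Fin k)) (q : Fin k) : ∑ p, permExp π (p, q) = 1 := by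
  simp only [permExp_apply]
  rw [Finset.sum_eq_single (π.symm q)]
  · simp
  · intro b _ hb
    rw [if_neg]
    intro h
    exact hb (by rw [← h]; simp)
  · simp

theorem fst_sum_single (a b : Fin k → Fin k) (p : Fin k) :
    ∑ q, (∑ i, Finsupp.single (a i, b i) 1 : (Fin k × Fin k) →₀ ℕ) (p, q)
      = (Finset.univ.filter (fun i => a i = p)).card := by
  simp only [Finsupp.finsetSum_apply, Finsupp.single_apply, Prod.mk.injEq]
  rw [Finset.sum_comm]
  rw [Finset.card_filter]
  apply Finset.sum_congr rfl
  intro i _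
  by_cases h : a i = p
  · simp [h]
  · simp [h]

theorem snd_sum_single (a b : Fin k → Fin k) (q : Fin k) :
    ∑ p, (∑ i, Finsupp.single (a i, b i) 1 : (Fin k × Fin k) →₀ ℕ) (p, q)
      = (Finset.univ.filter (fun i => b i = q)).card := by
  simp only [Finsupp.finsetSum_apply, Finsupp.single_apply, Prod.mk.injEq]
  rw [Finset.sum_comm]
  rw [Finset.card_filter]
  apply Finset.sum_congr rfl
  intro i _
  by_cases h : b i = q
  · simp [h]
  · simp [h]

theorem inj_of_card {a : Fin k → Fin k}
    (h : ∀ p, (Finset.univ.filter (fun i => a i = p)).card = 1) : Function.Injective a := by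
  intro i j hij
  have h1 := h (a j)
  rw [Finset.card_eq_one] at h1
  obtain ⟨c, hc⟩ := h1
  have hi : i ∈ Finset.univ.filter (fun i => a i = a j) := by simp [hij]
  have hj : j ∈ Finset.univ.filter (fun i => a i = a j) := by simp
  rw [hc] at hi hj
  simp at hi hj
  rw [hi, hj]

theorem topCoeff_monomial (d : (Fin k × Fin k) →₀ ℕ) (c : ℂ) :
    topCoeff k (monomial d c) =
      ∑ π : Equiv.Perm (Fin k), ((Equiv.Perm.sign π : ℤ) : ℂ) * (if d = permExp π then c else 0) := by
  unfold topCoeff
  simp [MvPolynomial.lcoeff, MvPolynomial.coeff_monomial]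

theorem topCoeff_prod_X (a b : Fin k → Fin k) :
    topCoeff k (∏ i, X (a i, b i)) = eps a * eps b := by
  rw [prod_X_eq_monomial, topCoeff_monomial]
  by_cases ha : Function.Injective a
  · by_cases hb : Function.Injective b
    · let α : Equiv.Perm (Fin k) := Equiv.ofBijective a (Finite.injective_iff_bijective.mp ha)
      let β : Equiv.Perm (Fin k) := Equiv.ofBijective b (Finite.injective_iff_bijective.mp hb)
      have e1 : a = α := rfl
      have e2 : b = β := rfl
      rw [e1, e2, sum_single_perm, eps_perm, eps_perm]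
      rw [Finset.sum_eq_single (α.symm.trans β)]
      · simp [Equiv.Perm.sign_trans, mul_comm]
      · intro ρ _ hρ
        rw [if_neg, mul_zero]
        intro h
        exact hρ (permExp_injective h).symm
      · simp
    · rw [eps_not_inj hb, mul_zero]
      apply Finset.sum_eq_zero
      intro π _
      rw [if_neg, mul_zero]
      intro h
      apply hb
      apply inj_of_card
      intro q
      rw [← snd_sum_single a b q, h, snd_permExp]
  · rw [eps_not_inj ha, zero_mul]
    apply Finset.sum_eq_zero
    intro π _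
    rw [if_neg, mul_zero]
    intro h
    apply ha
    apply inj_of_card
    intro p
    rw [← fst_sum_single a b p, h, fst_permExp]

/-- Expansion of the determinant over all maps of indices. -/
theorem sum_prod_eps (P : Matrix (Fin k) (Fin k) ℂ) :
    ∑ p : Fin k → Fin k, (∏ i, P i (p i)) * eps p = P.det := by
  have h := (Matrix.detRowAlternating (n := Fin k) (R := ℂ)).toMultilinearMap.map_sum
    (g := fun i (j : Fin k) => P i j • (Pi.single j (1:ℂ) : Fin k → ℂ))
  have h2 : (fun i => ∑ j : Fin k, P i j • (Pi.single j (1:ℂ) : Fin k → ℂ)) = P := by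
    funext i j
    simp [Pi.single_apply]
  rw [h2] at h
  have h3 : (Matrix.detRowAlternating (n := Fin k) (R := ℂ)).toMultilinearMap P = P.det := rfl
  rw [h3] at h
  rw [h]
  apply Finset.sum_congr rfl
  intro p _
  rw [MultilinearMap.map_smul_univ, smul_eq_mul]
  congr 1
  unfold eps
  change _ = Matrix.det (fun i => (Pi.single (p i) (1:ℂ) : Fin k → ℂ))
  congr 1
  ext i j
  simp [Matrix.one_apply, Pi.single_apply, eq_comm]

theorem sum_prod_eps_comp (P : Matrix (Fin k) (Fin k) ℂ) (a : Fin k → Fin k) :
    ∑ p : Fin k → Fin k, (∏ i, P (a i) (p i)) * eps p = eps a * P.det := by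
  have h := sum_prod_eps (P.submatrix a id)
  simp only [Matrix.submatrix_apply, id] at h
  rw [h]
  unfold eps
  rw [← Matrix.det_mul]
  congr 1
  ext i j
  simp [Matrix.mul_apply, Matrix.one_apply]

theorem eps_mul_self_sum : ∑ a : Fin k → Fin k, eps a * eps a = (k.factorial : ℂ) := by
  have : ∀ a : Fin k → Fin k, eps a * eps a = if Function.Injective a then 1 else 0 := by
    intro a
    by_cases ha : Function.Injective a
    · rw [if_pos ha]
      let α : Equiv.Perm (Fin k) := Equiv.ofBijective a (Finite.injective_iff_bijective.mp ha)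
      have e1 : a = α := rfl
      rw [e1, eps_perm]
      rcases Int.units_eq_one_or (Equiv.Perm.sign α) with h | h <;> rw [h] <;> simp
    · rw [if_neg ha, eps_not_inj ha, mul_zero]
  simp only [this]
  rw [Finset.sum_boole]
  congr 1
  have : (Finset.univ.filter (fun a : Fin k → Fin k => Function.Injective a)).card
      = Fintype.card {a : Fin k → Fin k // Function.Injective a} := by
    rw [Fintype.card_subtype]
  rw [this]
  rw [Fintype.card_congr (Equiv.subtypeInjectiveEquivEmbedding (Fin k) (Fin k))]
  rw [Fintype.card_embedding_eq]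
  simp [Nat.descFactorial_self]

/-- The linear form attached to a matrix. -/
noncomputable def lin (H : Matrix (Fin k) (Fin k) ℂ) : PolyForms k :=
  ∑ p, ∑ q, H p q • X (p, q)

theorem lin_add (H H' : Matrix (Fin k) (Fin k) ℂ) : lin (H + H') = lin H + lin H' := by
  simp [lin, add_smul, Finset.sum_add_distrib]

theorem lin_smul (c : ℂ) (H : Matrix (Fin k) (Fin k) ℂ) : lin (c • H) = c • lin H := by
  simp [lin, mul_smul, Finset.smul_sum]

theorem lin_zero : lin (0 : Matrix (Fin k) (Fin k) ℂ) = 0 := by
  simp [lin]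

/-- `lin` as a linear map. -/
noncomputable def linL : Matrix (Fin k) (Fin k) ℂ →ₗ[ℂ] PolyForms k where
  toFun := lin
  map_add' := lin_add
  map_smul' := lin_smul

theorem linL_apply (H : Matrix (Fin k) (Fin k) ℂ) : linL H = lin H := rfl

theorem lin_sum {ι : Type*} (s : Finset ι) (H : ι → Matrix (Fin k) (Fin k) ℂ) :
    lin (∑ i ∈ s, H i) = ∑ i ∈ s, lin (H i) := by
  simp only [← linL_apply, map_sum]

theorem lin_eq_sum_prod (H : Matrix (Fin k) (Fin k) ℂ) :
    lin H = ∑ x : Fin k × Fin k, H x.1 x.2 • X x := by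
  unfold lin
  rw [← Fintype.sum_prod_type' (f := fun p q => H p q • (X (p, q) : PolyForms k))]

theorem lin_homogeneous (H : Matrix (Fin k) (Fin k) ℂ) : (lin H).IsHomogeneous 1 := by
  unfold lin
  apply MvPolynomial.IsHomogeneous.sum
  intro p _
  apply MvPolynomial.IsHomogeneous.sum
  intro q _
  rw [MvPolynomial.smul_eq_C_mul]
  have h1 := (MvPolynomial.isHomogeneous_C (Fin k × Fin k) (H p q)).mul
    (MvPolynomial.isHomogeneous_X ℂ (p, q))
  simpa using h1

/-- The top coefficient of a product of `k` linear forms. -/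
theorem topCoeff_prod_lin (H : Fin k → Matrix (Fin k) (Fin k) ℂ) :
    topCoeff k (∏ i, lin (H i)) =
      ∑ a : Fin k → Fin k, ∑ b : Fin k → Fin k, (∏ i, H i (a i) (b i)) * (eps a * eps b) := by
  have h1 : ∏ i, lin (H i) = ∑ f : Fin k → Fin k × Fin k,
      ∏ i, (H i (f i).1 (f i).2 • (X (f i) : PolyForms k)) := by
    rw [← Fintype.prod_sum (fun i (x : Fin k × Fin k) => H i x.1 x.2 • (X x : PolyForms k))]
    apply Finset.prod_congr rfl
    intro i _
    rw [lin_eq_sum_prod]
  rw [h1, map_sum]
  rw [← Equiv.sum_comp (Equiv.arrowProdEquivProdArrow (Fin k) (fun _ => Fin k) (fun _ => Fin k)).symm]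
  rw [Fintype.sum_prod_type]
  apply Finset.sum_congr rfl
  intro a _
  apply Finset.sum_congr rfl
  intro b _
  simp only [Equiv.arrowProdEquivProdArrow, Equiv.coe_fn_symm_mk]
  have h2 : ∏ i, (H i (a i) (b i) • (X (a i, b i) : PolyForms k)) =
      (∏ i, H i (a i) (b i)) • ∏ i, (X (a i, b i) : PolyForms k) := by
    rw [Finset.prod_smul]
  rw [h2, map_smul, topCoeff_prod_X, smul_eq_mul]

theorem topCoeff_lin_pow (M : Matrix (Fin k) (Fin k) ℂ) :
    topCoeff k (lin M ^ k) = (k.factorial : ℂ) * M.det := by
  have h := topCoeff_prod_lin (fun _ : Fin k => M)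
  rw [Finset.prod_const, Finset.card_univ, Fintype.card_fin] at h
  rw [h]
  have h3 : ∀ a : Fin k → Fin k, ∑ b : Fin k → Fin k, (∏ i, M (a i) (b i)) * (eps a * eps b)
      = (eps a * eps a) * M.det := by
    intro a
    have := sum_prod_eps_comp M a
    rw [mul_assoc, ← this, Finset.mul_sum]
    apply Finset.sum_congr rfl
    intro b _
    ring
  simp only [h3]
  rw [← Finset.sum_mul, eps_mul_self_sum]

end Pool.Agent.MP2e24f1
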