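import Pool.Agent.Lib.MP_2e24f1_ag.TopCoeff

/-! Invariance and expansion of the top coefficient. -/

namespace Pool.Agent.MP2e24f1

open MvPolynomial Matrix

variable {k : ℕ}

theorem exists_prod_X {σ : Type*} [DecidableEq σ] (n : ℕ) (d : σ →₀ ℕ) (hd : d.degree = n) :
    ∃ f : Fin n → σ, (monomial d (1 : ℂ)) = ∏ i, X (f i) := by
  induction n generalizing d with
  | zero =>
    have : d = 0 := by
      rwa [Finsupp.degree_eq_zero_iff] at hd
    subst this
    exact ⟨Fin.elim0, by simp⟩
  | succ n ih =>
    have hne : d ≠ 0 := by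
      rintro rfl
      simp at hd
    obtain ⟨s, hs⟩ := Finsupp.support_nonempty_iff.mpr hne
    have hs1 : 1 ≤ d s := Nat.one_le_iff_ne_zero.mpr (Finsupp.mem_support_iff.mp hs)
    have hle : Finsupp.single s 1 ≤ d := by
      rw [Finsupp.single_le_iff]
      exact hs1
    have hsplit : Finsupp.single s 1 + (d - Finsupp.single s 1) = d := add_tsub_cancel_of_le hle
    have hdeg : (d - Finsupp.single s 1).degree = n := by
      have := congrArg Finsupp.degree hsplit
      rw [map_add, hd, Finsupp.degree_single] at this
      omega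
    obtain ⟨f, hf⟩ := ih _ hdeg
    refine ⟨Fin.cons s f, ?_⟩
    rw [Fin.prod_univ_succ]
    simp only [Fin.cons_zero, Fin.cons_succ]
    rw [← hf, MvPolynomial.X, MvPolynomial.monomial_mul, hsplit, one_mul]

/-- Induction for homogeneous polynomials. -/
theorem homogeneous_induction {σ : Type*} [DecidableEq σ] {n : ℕ} {F : MvPolynomial σ ℂ}
    (hF : F.IsHomogeneous n)
    {P : MvPolynomial σ ℂ → Prop} (h0 : P 0) (hadd : ∀ a b, P a → P b → P (a + b))
    (hmul : ∀ (c : ℂ) (f : Fin n → σ), P (c • ∏ i, X (f i))) : P F := by
  rw [MvPolynomial.as_sum F]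
  have : ∀ s : Finset (σ →₀ ℕ), (∀ d ∈ s, d ∈ F.support) → P (∑ d ∈ s, monomial d (coeff d F)) := by
    intro s
    induction s using Finset.induction_on with
    | empty => intro _; simpa using h0
    | insert d s hd ih =>
      intro hs
      rw [Finset.sum_insert hd]
      apply hadd
      · have hdF : d ∈ F.support := hs d (Finset.mem_insert_self _ _)
        have hdeg : d.degree = n := by
          have := hF (MvPolynomial.mem_support_iff.mp hdF)
          rw [Finsupp.degree_eq_weight_one]
          exact this
        obtain ⟨f, hf⟩ := exists_prod_X n d hdeg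
        have : (monomial d) (coeff d F) = coeff d F • ∏ i, X (f i) := by
          rw [← hf, MvPolynomial.smul_monomial]
          simp
        rw [this]
        exact hmul _ _
      · exact ih (fun d hd => hs d (Finset.mem_insert_of_mem hd))
  exact this _ (fun d hd => hd)

/-- Substitution induced by a change of coordinates. -/
noncomputable def sub (P : Matrix (Fin k) (Fin k) ℂ) : PolyForms k →ₐ[ℂ] PolyForms k :=
  aeval (fun x : Fin k × Fin k => lin (Matrix.vecMulVec (P x.1) (fun j => star (P x.2 j))))

theorem sub_X (P : Matrix (Fin k) (Fin k) ℂ) (x : Fin k × Fin k) :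
    sub P (X x) = lin (Matrix.vecMulVec (P x.1) (fun j => star (P x.2 j))) := by
  simp [sub]

theorem sub_lin (P H : Matrix (Fin k) (Fin k) ℂ) :
    sub P (lin H) = lin (Pᵀ * H * P.map star) := by
  unfold lin
  simp only [map_sum, map_smul, sub_X]
  have h : ∀ p q : Fin k, H p q • lin (Matrix.vecMulVec (P p) (fun j => star (P q j)))
      = lin (H p q • Matrix.vecMulVec (P p) (fun j => star (P q j))) := by
    intro p q
    rw [lin_smul]
  simp only [h]
  simp only [← lin_sum]
  change _ = lin _
  congr 1
  ext a b
  simp only [Matrix.sum_apply, Matrix.smul_apply, Matrix.vecMulVec_apply, Matrix.mul_apply,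
    Matrix.transpose_apply, Matrix.map_apply, smul_eq_mul]
  rw [Finset.sum_comm]
  apply Finset.sum_congr rfl
  intro q _
  rw [Finset.sum_mul]
  apply Finset.sum_congr rfl
  intro p _
  ring

theorem topCoeff_sub_prod (P : Matrix (Fin k) (Fin k) ℂ) (a b : Fin k → Fin k) :
    topCoeff k (sub P (∏ i, X (a i, b i))) = (P.det * star P.det) * (eps a * eps b) := by
  rw [map_prod]
  simp only [sub_X]
  rw [topCoeff_prod_lin]
  simp only [Matrix.vecMulVec_apply, Finset.prod_mul_distrib]
  have h1 : ∀ p q : Fin k → Fin k,
      (∏ i, P (a i) (p i)) * (∏ i, star (P (b i) (q i))) * (eps p * eps q) =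
      ((∏ i, P (a i) (p i)) * eps p) * ((∏ i, (P.map star) (b i) (q i)) * eps q) := by
    intro p q
    simp only [Matrix.map_apply]
    ring
  simp only [h1]
  simp only [← Finset.mul_sum]
  rw [← Finset.sum_mul, sum_prod_eps_comp, sum_prod_eps_comp]
  have h2 : (P.map star).det = star P.det := by
    have := (starRingEnd ℂ).map_det P
    simpa using this.symm
  rw [h2]
  ring

theorem topCoeff_sub (P : Matrix (Fin k) (Fin k) ℂ) {F : PolyForms k} (hF : F.IsHomogeneous k) :
    topCoeff k (sub P F) = (P.det * star P.det) * topCoeff k F := by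
  apply homogeneous_induction hF (P := fun F => topCoeff k (sub P F) = (P.det * star P.det) * topCoeff k F)
  · simp
  · intro a b ha hb
    simp only [map_add, ha, hb, mul_add]
  · intro c f
    have := topCoeff_sub_prod P (fun i => (f i).1) (fun i => (f i).2)
    simp only [Prod.mk.eta] at this
    rw [map_smul, map_smul, map_smul, this]
    have h2 := topCoeff_prod_X (fun i => (f i).1) (fun i => (f i).2)
    simp only [Prod.mk.eta] at h2
    rw [h2]
    simp only [smul_eq_mul]
    ring

/-- Restriction to a coordinate hyperplane. -/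
noncomputable def res (s : Fin (k+1)) : PolyForms (k+1) →ₐ[ℂ] PolyForms k :=
  aeval (fun x : Fin (k+1) × Fin (k+1) =>
    lin ((Matrix.single x.1 x.2 (1:ℂ)).submatrix s.succAbove s.succAbove))

theorem res_X (s : Fin (k+1)) (x : Fin (k+1) × Fin (k+1)) :
    res s (X x) = lin ((Matrix.single x.1 x.2 (1:ℂ)).submatrix s.succAbove s.succAbove) := by
  simp [res]

theorem res_lin (s : Fin (k+1)) (H : Matrix (Fin (k+1)) (Fin (k+1)) ℂ) :
    res s (lin H) = lin (H.submatrix s.succAbove s.succAbove) := by
  have h0 : lin H = ∑ p, ∑ q, H p q • X (p, q) := rfl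
  rw [h0]
  simp only [map_sum, map_smul, res_X]
  have h : ∀ p q : Fin (k+1), H p q • lin ((Matrix.single p q (1:ℂ)).submatrix s.succAbove s.succAbove)
      = lin (H p q • (Matrix.single p q (1:ℂ)).submatrix s.succAbove s.succAbove) := by
    intro p q
    rw [lin_smul]
  simp only [h]
  simp only [← lin_sum]
  congr 1
  ext a b
  simp only [Matrix.sum_apply, Matrix.smul_apply, Matrix.submatrix_apply, smul_eq_mul]
  rw [Finset.sum_eq_single (s.succAbove a)]
  · rw [Finset.sum_eq_single (s.succAbove b)]
    · simp
    · intro q _ hq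
      simp [Matrix.single, hq]
    · simp
  · intro p _ hp
    apply Finset.sum_eq_zero
    intro q _
    simp [Matrix.single, hp]
  · simp

theorem eps_cons_succAbove (s : Fin (k+1)) (a : Fin k → Fin k) :
    eps (Fin.cons s (fun i => s.succAbove (a i)) : Fin (k+1) → Fin (k+1)) = (-1) ^ (s : ℕ) * eps a := by
  unfold eps
  rw [Matrix.det_succ_row_zero]
  rw [Finset.sum_eq_single s]
  · have h1 : ((1 : Matrix (Fin (k+1)) (Fin (k+1)) ℂ).submatrix
        (Fin.cons s (fun i => s.succAbove (a i)) : Fin (k+1) → Fin (k+1)) id) 0 s = 1 := by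
      simp only [Matrix.submatrix_apply, Fin.cons_zero, id]
      exact Matrix.one_apply_eq s
    rw [h1, mul_one]
    congr 2
    ext i j
    simp [Matrix.one_apply]
  · intro j _ hj
    have h1 : ((1 : Matrix (Fin (k+1)) (Fin (k+1)) ℂ).submatrix
        (Fin.cons s (fun i => s.succAbove (a i)) : Fin (k+1) → Fin (k+1)) id) 0 j = 0 := by
      simp [Matrix.one_apply, Ne.symm hj]
    rw [h1]
    ring
  · simp

theorem eps_cons_hit (s : Fin (k+1)) (a : Fin k → Fin (k+1)) (i : Fin k) (hi : a i = s) :
    eps (Fin.cons s a : Fin (k+1) → Fin (k+1)) = 0 := by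
  apply eps_not_inj
  intro hinj
  have : (Fin.cons s a : Fin (k+1) → Fin (k+1)) 0 = (Fin.cons s a : Fin (k+1) → Fin (k+1)) i.succ := by
    simp [hi]
  have := hinj this
  exact absurd this (Fin.succ_ne_zero i).symm

theorem topCoeff_X_mul (s : Fin (k+1)) {F : PolyForms (k+1)} (hF : F.IsHomogeneous k) :
    topCoeff (k+1) (X (s, s) * F) = topCoeff k (res s F) := by
  apply homogeneous_induction hF
    (P := fun F => topCoeff (k+1) (X (s, s) * F) = topCoeff k (res s F))
  · simp
  · intro a b ha hb
    simp only [map_add, ha, hb, mul_add]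
  · intro c f
    rw [mul_smul_comm, map_smul, map_smul, map_smul]
    congr 1
    have h1 : (X (s, s) * ∏ i, X (f i) : PolyForms (k+1)) =
        ∏ i, X ((Fin.cons s (fun i => (f i).1) : Fin (k+1) → Fin (k+1)) i,
          (Fin.cons s (fun i => (f i).2) : Fin (k+1) → Fin (k+1)) i) := by
      rw [Fin.prod_univ_succ]
      simp
    rw [h1, topCoeff_prod_X, map_prod]
    simp only [res_X]
    by_cases hA : ∃ i, (f i).1 = s
    · obtain ⟨i, hi⟩ := hA
      rw [eps_cons_hit s _ i hi, zero_mul]
      rw [Finset.prod_eq_zero (Finset.mem_univ i)]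
      · simp
      · have : (Matrix.single (f i).1 (f i).2 (1:ℂ)).submatrix s.succAbove s.succAbove = 0 := by
          ext a b
          simp only [Matrix.submatrix_apply, Matrix.zero_apply]
          rw [hi]
          simp [Matrix.single, (Fin.succAbove_ne s a).symm]
        rw [this, lin_zero]
    · by_cases hB : ∃ i, (f i).2 = s
      · obtain ⟨i, hi⟩ := hB
        rw [eps_cons_hit s (fun i => (f i).2) i hi, mul_zero]
        rw [Finset.prod_eq_zero (Finset.mem_univ i)]
        · simp
        · have : (Matrix.single (f i).1 (f i).2 (1:ℂ)).submatrix s.succAbove s.succAbove = 0 := by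
            ext a b
            simp only [Matrix.submatrix_apply, Matrix.zero_apply]
            rw [hi]
            simp [Matrix.single, (Fin.succAbove_ne s b).symm]
          rw [this, lin_zero]
      · replace hA : ∀ i, (f i).1 ≠ s := fun i h => hA ⟨i, h⟩
        replace hB : ∀ i, (f i).2 ≠ s := fun i h => hB ⟨i, h⟩
        have hA' : ∀ i, ∃ a, s.succAbove a = (f i).1 := fun i => Fin.exists_succAbove_eq (hA i)
        have hB' : ∀ i, ∃ a, s.succAbove a = (f i).2 := fun i => Fin.exists_succAbove_eq (hB i)
        choose a ha using hA'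
        choose b hb using hB'
        have e1 : (fun i => (f i).1) = fun i => s.succAbove (a i) := by
          funext i; exact (ha i).symm
        have e2 : (fun i => (f i).2) = fun i => s.succAbove (b i) := by
          funext i; exact (hb i).symm
        rw [e1, e2, eps_cons_succAbove, eps_cons_succAbove]
        have h3 : ∀ i, lin ((Matrix.single (f i).1 (f i).2 (1:ℂ)).submatrix s.succAbove s.succAbove)
            = (X (a i, b i) : PolyForms k) := by
          intro i
          rw [← ha i, ← hb i]
          have : (Matrix.single (s.succAbove (a i)) (s.succAbove (b i)) (1:ℂ)).submatrix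
              s.succAbove s.succAbove = Matrix.single (a i) (b i) 1 := by
            ext p q
            simp [Matrix.single, Fin.succAbove_right_inj]
          rw [this]
          unfold lin
          rw [Finset.sum_eq_single (a i)]
          · rw [Finset.sum_eq_single (b i)]
            · simp
            · intro q _ hq
              simp [Matrix.single, hq.symm]
            · simp
          · intro p _ hp
            apply Finset.sum_eq_zero
            intro q _
            simp [Matrix.single, hp.symm]
          · simp
        simp only [h3]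
        rw [topCoeff_prod_X]
        have : ((-1 : ℂ) ^ (s : ℕ)) * (-1) ^ (s : ℕ) = 1 := by
          rw [← mul_pow]; simp
        calc (-1) ^ (s : ℕ) * eps a * ((-1) ^ (s : ℕ) * eps b)
            = (((-1 : ℂ) ^ (s : ℕ)) * (-1) ^ (s : ℕ)) * (eps a * eps b) := by ring
          _ = eps a * eps b := by rw [this, one_mul]

end Pool.Agent.MP2e24f1
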