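import Pool.Agent.Lib.MP_2e24f1_ag.TopCoeff2

/-! Mixed powers of two linear forms, and the peeling of a linear factor. -/

namespace Pool.Agent.MP2e24f1

open MvPolynomial Matrix

variable {k : ℕ}

/-- The polynomial `det (x A + B)` in `x`. -/
noncomputable def pencil (A B : Matrix (Fin k) (Fin k) ℂ) : Polynomial ℂ :=
  ((Polynomial.X : Polynomial ℂ) • A.map Polynomial.C + B.map Polynomial.C).det

theorem eval_pencil (A B : Matrix (Fin k) (Fin k) ℂ) (x : ℂ) :
    (pencil A B).eval x = (x • A + B).det := by
  unfold pencil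
  have h := (Polynomial.evalRingHom x).map_det
    ((Polynomial.X : Polynomial ℂ) • A.map Polynomial.C + B.map Polynomial.C)
  change (Polynomial.evalRingHom x) _ = _
  rw [h]
  congr 1
  ext i j
  simp
  ring

theorem topCoeff_mixed (A B : Matrix (Fin k) (Fin k) ℂ) (p q : ℕ) (hpq : p + q = k) :
    topCoeff k (lin A ^ p * lin B ^ q) =
      ((p.factorial : ℂ) * (q.factorial : ℂ)) * (pencil A B).coeff p := by
  have key : (∑ m ∈ Finset.range (k + 1),
      Polynomial.C (topCoeff k (lin A ^ m * lin B ^ (k - m)) * (k.choose m : ℂ)) * Polynomial.X ^ m)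
      = Polynomial.C (k.factorial : ℂ) * pencil A B := by
    apply Polynomial.funext
    intro x
    rw [Polynomial.eval_mul, Polynomial.eval_C, eval_pencil, ← topCoeff_lin_pow, lin_add, lin_smul,
      add_pow, map_sum, Polynomial.eval_finsetSum]
    apply Finset.sum_congr rfl
    intro m _
    simp only [Polynomial.eval_mul, Polynomial.eval_C, Polynomial.eval_pow, Polynomial.eval_X]
    have : (x • lin A) ^ m * lin B ^ (k - m) * ((k.choose m : ℕ) : PolyForms k)
        = (x ^ m * (k.choose m : ℂ)) • (lin A ^ m * lin B ^ (k - m)) := by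
      rw [smul_pow, smul_mul_assoc, mul_smul, smul_mul_assoc]
      congr 1
      rw [MvPolynomial.smul_eq_C_mul, mul_comm]
      simp
    rw [this, map_smul, smul_eq_mul]
    ring
  have h2 := congrArg (fun P : Polynomial ℂ => P.coeff p) key
  simp only [Polynomial.finsetSum_coeff, Polynomial.coeff_C_mul, Polynomial.coeff_X_pow] at h2
  rw [Finset.sum_eq_single p] at h2
  · rw [if_pos rfl, mul_one] at h2
    have hq : k - p = q := by omega
    rw [hq] at h2
    have hch : (k.choose p : ℂ) * (p.factorial : ℂ) * (q.factorial : ℂ) = (k.factorial : ℂ) := by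
      have := Nat.choose_mul_factorial_mul_factorial (n := k) (k := p) (by omega)
      rw [hq] at this
      exact_mod_cast this
    have hne : (k.choose p : ℂ) ≠ 0 := by
      have : 0 < k.choose p := Nat.choose_pos (by omega)
      exact_mod_cast this.ne'
    apply mul_right_cancel₀ hne
    rw [h2, ← hch]
    ring
  · intro m _ hm
    rw [if_neg (Ne.symm hm), mul_zero]
  · intro hp
    exfalso
    apply hp
    rw [Finset.mem_range]
    omega

theorem pencil_diagonal (a b : Fin k → ℂ) :
    pencil (Matrix.diagonal a) (Matrix.diagonal b) =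
      ∏ i, (Polynomial.X * Polynomial.C (a i) + Polynomial.C (b i)) := by
  unfold pencil
  rw [← Matrix.det_diagonal]
  congr 1
  ext i j : 1
  by_cases h : i = j
  · subst h
    simp
  · simp [h]

/-- Peeling a diagonal linear factor. -/
theorem topCoeff_diag_mul (d : Fin (k+1) → ℂ) {F : PolyForms (k+1)} (hF : F.IsHomogeneous k) :
    topCoeff (k+1) (lin (Matrix.diagonal d) * F) = ∑ s, d s * topCoeff k (res s F) := by
  have h1 : lin (Matrix.diagonal d) = ∑ s, d s • (X (s, s) : PolyForms (k+1)) := by
    unfold lin
    apply Finset.sum_congr rfl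
    intro s _
    rw [Finset.sum_eq_single s]
    · simp
    · intro q _ hq
      simp [Ne.symm hq]
    · simp
  rw [h1, Finset.sum_mul, map_sum]
  apply Finset.sum_congr rfl
  intro s _
  rw [smul_mul_assoc, map_smul, smul_eq_mul, topCoeff_X_mul s hF]

end Pool.Agent.MP2e24f1
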